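import Pool.Agent.TSN.Defs

/-!
Project TSN, module Chain: sign changes of quadratic and affine functions along a decreasing
sequence.
-/

namespace TSN

private theorem chain_root {f : ℝ → ℝ} (hf : Continuous f) {x y : ℝ} (hxy : x < y)
    (h : f x * f y < 0) : ∃ r, x < r ∧ r < y ∧ f r = 0 := by
  rcases mul_neg_iff.mp h with ⟨h1, h2⟩ | ⟨h1, h2⟩
  · obtain ⟨r, hr, hr0⟩ := intermediate_value_Ioo' hxy.le hf.continuousOn (show (0 : ℝ) ∈ Set.Ioo (f y) (f x) from ⟨h2, h1⟩)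
    exact ⟨r, hr.1, hr.2, hr0⟩
  · obtain ⟨r, hr, hr0⟩ := intermediate_value_Ioo hxy.le hf.continuousOn (show (0 : ℝ) ∈ Set.Ioo (f x) (f y) from ⟨h1, h2⟩)
    exact ⟨r, hr.1, hr.2, hr0⟩

private theorem chain_three {α β γ r1 r2 r3 : ℝ} (h1 : α * r1 ^ 2 + β * r1 + γ = 0)
    (h2 : α * r2 ^ 2 + β * r2 + γ = 0) (h3 : α * r3 ^ 2 + β * r3 + γ = 0)
    (h12 : r1 ≠ r2) (h13 : r1 ≠ r3) (h23 : r2 ≠ r3) : α = 0 ∧ β = 0 ∧ γ = 0 := by
  have e1 : α * (r1 + r2) + β = 0 := by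
    have : (r1 - r2) * (α * (r1 + r2) + β) = 0 := by linear_combination h1 - h2
    rcases mul_eq_zero.mp this with h | h
    · exact absurd (sub_eq_zero.mp h) h12
    · exact h
  have e2 : α * (r2 + r3) + β = 0 := by
    have : (r2 - r3) * (α * (r2 + r3) + β) = 0 := by linear_combination h2 - h3
    rcases mul_eq_zero.mp this with h | h
    · exact absurd (sub_eq_zero.mp h) h23
    · exact h
  have hα : α = 0 := by
    have : (r1 - r3) * α = 0 := by linear_combination e1 - e2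
    rcases mul_eq_zero.mp this with h | h
    · exact absurd (sub_eq_zero.mp h) h13
    · exact h
  subst hα
  have hβ : β = 0 := by linarith
  subst hβ
  exact ⟨rfl, rfl, by linarith⟩

open Classical in
theorem quad_changes {N : ℕ} (q : Fin (N + 1) → ℝ) (hq : StrictAnti q) (α β γ : ℝ)
    (h0 : ∀ i, α * q i ^ 2 + β * q i + γ ≠ 0) :
    (Finset.univ.filter fun i : Fin N =>
      (α * q i.castSucc ^ 2 + β * q i.castSucc + γ) *
        (α * q i.succ ^ 2 + β * q i.succ + γ) < 0).card ≤ 2 := by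
  by_contra hcon
  rw [not_le, Finset.two_lt_card] at hcon
  obtain ⟨i, hi, j, hj, k, hk, hij, hik, hjk⟩ := hcon
  simp only [Finset.mem_filter, Finset.mem_univ, true_and] at hi hj hk
  have hroot : ∀ i : Fin N, (α * q i.castSucc ^ 2 + β * q i.castSucc + γ) *
      (α * q i.succ ^ 2 + β * q i.succ + γ) < 0 →
      ∃ r, q i.succ < r ∧ r < q i.castSucc ∧ α * r ^ 2 + β * r + γ = 0 := by
    intro i hi
    refine chain_root (f := fun x => α * x ^ 2 + β * x + γ) (by fun_prop)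
      (hq (Fin.castSucc_lt_succ)) ?_
    simpa [mul_comm] using hi
  have hne : ∀ i j : Fin N, ∀ r s : ℝ, i ≠ j → q i.succ < r ∧ r < q i.castSucc →
      q j.succ < s ∧ s < q j.castSucc → r ≠ s := by
    have hlt : ∀ i j : Fin N, ∀ r s : ℝ, i < j → q i.succ < r ∧ r < q i.castSucc →
        q j.succ < s ∧ s < q j.castSucc → s < r := by
      intro i j r s hij hr hs
      have h1 : i.succ ≤ j.castSucc := by
        rw [Fin.le_def]
        simp only [Fin.val_succ, Fin.val_castSucc]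
        exact hij
      have h2 : q j.castSucc ≤ q i.succ := hq.antitone h1
      linarith [hr.1, hs.2]
    intro i j r s hij hr hs
    rcases lt_or_gt_of_ne hij with h | h
    · exact (hlt i j r s h hr hs).ne'
    · exact (hlt j i s r h hs hr).ne
  obtain ⟨r1, a1, b1, c1⟩ := hroot i hi
  obtain ⟨r2, a2, b2, c2⟩ := hroot j hj
  obtain ⟨r3, a3, b3, c3⟩ := hroot k hk
  obtain ⟨rfl, rfl, rfl⟩ := chain_three c1 c2 c3 (hne i j r1 r2 hij ⟨a1, b1⟩ ⟨a2, b2⟩)
    (hne i k r1 r3 hik ⟨a1, b1⟩ ⟨a3, b3⟩) (hne j k r2 r3 hjk ⟨a2, b2⟩ ⟨a3, b3⟩)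
  exact h0 0 (by ring)

open Classical in
/-- the base points `(s + 1/25, -2)` change side at most once -/
theorem lin_changes (S : ℕ) (a b c : ℝ) :
    (Finset.univ.filter fun i : Fin (S - 1) =>
      Sep a b c (((i : ℕ) : ℝ) + 1 / 25, -2) ((((i : ℕ) + 1 : ℕ) : ℝ) + 1 / 25, -2)).card
      ≤ 1 := by
  by_contra hcon
  rw [not_le, Finset.one_lt_card] at hcon
  obtain ⟨i, hi, j, hj, hij⟩ := hcon
  simp only [Finset.mem_filter, Finset.mem_univ, true_and] at hi hj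
  have hroot : ∀ i : Fin (S - 1), Sep a b c (((i : ℕ) : ℝ) + 1 / 25, -2)
      ((((i : ℕ) + 1 : ℕ) : ℝ) + 1 / 25, -2) →
      ∃ r, ((i : ℕ) : ℝ) + 1 / 25 < r ∧ r < ((i : ℕ) : ℝ) + 1 + 1 / 25 ∧ a * r + (-2 * b - c) = 0 := by
    intro i hi
    refine chain_root (f := fun x => a * x + (-2 * b - c)) (by fun_prop) (by linarith) ?_
    unfold Sep val at hi
    push_cast at hi
    have e : (a * (((i : ℕ) : ℝ) + 1 / 25) + (-2 * b - c)) *
        (a * (((i : ℕ) : ℝ) + 1 + 1 / 25) + (-2 * b - c)) =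
        (a * (((i : ℕ) : ℝ) + 1 / 25) + b * -2 - c) *
        (a * (((i : ℕ) : ℝ) + 1 + 1 / 25) + b * -2 - c) := by ring
    show (a * (((i : ℕ) : ℝ) + 1 / 25) + (-2 * b - c)) *
        (a * (((i : ℕ) : ℝ) + 1 + 1 / 25) + (-2 * b - c)) < 0
    rw [e]
    exact hi
  have hne : ∀ i j : Fin (S - 1), ∀ r s : ℝ, i < j →
      r < ((i : ℕ) : ℝ) + 1 + 1 / 25 → ((j : ℕ) : ℝ) + 1 / 25 < s → r < s := by
    intro i j r s hij hr hs
    have h1 : ((i : ℕ) : ℝ) + 1 ≤ ((j : ℕ) : ℝ) := by exact_mod_cast hij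
    linarith
  obtain ⟨r1, a1, b1, c1⟩ := hroot i hi
  obtain ⟨r2, a2, b2, c2⟩ := hroot j hj
  have h12 : r1 ≠ r2 := by
    rcases lt_or_gt_of_ne hij with h | h
    · exact (hne i j r1 r2 h b1 a2).ne
    · exact (hne j i r2 r1 h b2 a1).ne'
  have ha : a = 0 := by
    have : (r1 - r2) * a = 0 := by linear_combination c1 - c2
    rcases mul_eq_zero.mp this with h | h
    · exact absurd (sub_eq_zero.mp h) h12
    · exact h
  subst ha
  unfold Sep val at hi
  have h0 : -2 * b - c = 0 := by linarith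
  have e1 : (0 : ℝ) * (((i : ℕ) : ℝ) + 1 / 25) + b * -2 - c = 0 := by linarith
  simp only at hi
  rw [e1, zero_mul] at hi
  exact lt_irrefl _ hi

end TSN
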