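import Mathlib

/-!
Project TSN (MP_3f72ec_co): the tree stabbing number can be halved by adding points, and
not more: `sup treeStab S' / treeStab S = 2` over all `S' ⊆ S`.
Definitions.
-/

namespace TSN

/-- The line with equation `a x + b y = c`. -/
def line (a b c : ℝ) : Set (ℝ × ℝ) := {X | a * X.1 + b * X.2 = c}

/-- `L` is a line of the plane. -/
def IsLine (L : Set (ℝ × ℝ)) : Prop := ∃ a b c : ℝ, (a ≠ 0 ∨ b ≠ 0) ∧ L = line a b c

/-- The line `L` stabs the closed segment `PQ`: they meet in exactly one point, and this point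
lies in the relative interior of the segment. -/
def Stabs (L : Set (ℝ × ℝ)) (P Q : ℝ × ℝ) : Prop :=
  ∃ X ∈ openSegment ℝ P Q, L ∩ segment ℝ P Q = {X}

/-- The edge `e` of a graph on the configuration `S`, drawn as a straight segment, is stabbed
by `L`. -/
def StabsEdge (L : Set (ℝ × ℝ)) {S : Finset (ℝ × ℝ)} (e : Sym2 S) : Prop :=
  ∃ P Q : S, e = s(P, Q) ∧ Stabs L (P : ℝ × ℝ) (Q : ℝ × ℝ)

/-- The stabbing number of the geometric graph `G` on `S` is at most `k`: every line stabs at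
most `k` edges. -/
def StabLe {S : Finset (ℝ × ℝ)} (G : SimpleGraph S) (k : ℕ) : Prop :=
  ∀ L, IsLine L → {e ∈ G.edgeSet | StabsEdge L e}.ncard ≤ k

/-- TREE-STAB of the configuration `S`: the minimum stabbing number over all trees whose vertex
set is `S`. -/
noncomputable def treeStab (S : Finset (ℝ × ℝ)) : ℕ :=
  sInf {k | ∃ G : SimpleGraph S, G.IsTree ∧ StabLe G k}

/-! ### Working notions -/

/-- value of the equation of the line at a point -/
def val (a b c : ℝ) (P : ℝ × ℝ) : ℝ := a * P.1 + b * P.2 - c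

/-- the points `P`, `Q` lie strictly on different sides of the line -/
def Sep (a b c : ℝ) (P Q : ℝ × ℝ) : Prop := val a b c P * val a b c Q < 0

theorem Sep.symm {a b c : ℝ} {P Q : ℝ × ℝ} (h : Sep a b c P Q) : Sep a b c Q P := by
  unfold Sep at *
  rw [mul_comm]
  exact h

/-- the edge relation of a family of edges `src k — tgt k`, `k : K` -/
def Adj {ι K : Type} (src tgt : K → ι) (x y : ι) : Prop :=
  ∃ k, (src k = x ∧ tgt k = y) ∨ (src k = y ∧ tgt k = x)

/-- `x` and `y` are joined by a path of edges -/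
def Conn {ι K : Type} (src tgt : K → ι) : ι → ι → Prop :=
  Relation.ReflTransGen (Adj src tgt)

theorem Adj.symm {ι K : Type} {src tgt : K → ι} {x y : ι} (h : Adj src tgt x y) :
    Adj src tgt y x := by
  obtain ⟨k, h | h⟩ := h
  · exact ⟨k, Or.inr h⟩
  · exact ⟨k, Or.inl h⟩

theorem Conn.symm {ι K : Type} {src tgt : K → ι} {x y : ι} (h : Conn src tgt x y) :
    Conn src tgt y x := by
  induction h with
  | refl => exact Relation.ReflTransGen.refl
  | tail _ h2 ih => exact Relation.ReflTransGen.head h2.symm ih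

theorem Conn.trans {ι K : Type} {src tgt : K → ι} {x y z : ι} (h : Conn src tgt x y)
    (h' : Conn src tgt y z) : Conn src tgt x z :=
  Relation.ReflTransGen.trans h h'

theorem Conn.edge {ι K : Type} {src tgt : K → ι} (k : K) : Conn src tgt (src k) (tgt k) :=
  Relation.ReflTransGen.single ⟨k, Or.inl ⟨rfl, rfl⟩⟩

/-- an edge of a graph on an index type is separated by the line -/
def SepE {ι : Type} (a b c : ℝ) (p : ι → ℝ × ℝ) (e : Sym2 ι) : Prop :=
  ∃ i j, e = s(i, j) ∧ Sep a b c (p i) (p j)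

/-! ### Gadgets -/

/-- A gadget: points `pos v`, lines `y = a j x + b j`, a top vertex, a bottom vertex, edges. -/
structure Gad (V J E : Type) where
  pos : V → ℝ × ℝ
  a : J → ℝ
  b : J → ℝ
  t : V
  bt : V
  src : E → V
  tgt : E → V

/-- signed height of the vertex `v` over the line `j` -/
def Gad.h {V J E : Type} (g : Gad V J E) (v : V) (j : J) : ℝ :=
  (g.pos v).2 - g.a j * (g.pos v).1 - g.b j

open Classical in
/-- the properties of the gadget used for the upper bound -/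
structure Gad.Good {V J E : Type} [Fintype V] [Fintype J] [Fintype E] (g : Gad V J E)
    (κ : ℕ) : Prop where
  pos_t : g.pos g.t = (0, 0)
  h_ne : ∀ v j, g.h v j ≠ 0
  h_t : ∀ j, 0 < g.h g.t j
  h_bt : ∀ j, g.h g.bt j < 0
  a_inj : Function.Injective g.a
  conn : ∀ u v, Conn g.src g.tgt u v
  two_le : 2 ≤ κ
  cross : ∀ j, (Finset.univ.filter fun e => g.h (g.src e) j * g.h (g.tgt e) j < 0).card ≤ κ

/-- value at `x` of the affine function `A x + B` -/
def aff (AB : ℝ × ℝ) (x : ℝ) : ℝ := AB.1 * x + AB.2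

/-- two words agree below `n`. -/
def Agree {J : Type} (n : ℕ) (w w' : ℕ → J) : Prop := ∀ i < n, w i = w' i

/-- A realised configuration with `S` stations: at the station `s < S` there is one copy
`P s w` of the gadget for each word `w` (only the letters below `s` matter); `F n w` is the
planned line of the word `w` (only the letters below `n` matter). -/
structure Conf {V J E : Type} (g : Gad V J E) (S : ℕ) where
  P : ℕ → (ℕ → J) → V → ℝ × ℝ
  Y : ℕ → (ℕ → J) → ℝ
  F : ℕ → (ℕ → J) → ℝ × ℝ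
  δ : ℕ → ℝ
  η : ℕ → ℝ
  P_congr : ∀ s w w', Agree s w w' → P s w = P s w'
  Y_congr : ∀ s w w', Agree s w w' → Y s w = Y s w'
  F_congr : ∀ s w w', Agree s w w' → F s w = F s w'
  P_x : ∀ s < S, ∀ w v, |(P s w v).1 - s| ≤ 1 / 4
  P_y : ∀ s < S, ∀ w v, |(P s w v).2| ≤ 1
  P_t : ∀ s < S, ∀ w, P s w g.t = ((s : ℝ) + Y s w ^ 2 / 100, Y s w)
  Y_le : ∀ s < S, ∀ w, |Y s w| ≤ 1 / 2
  near : ∀ s < S, ∀ w v,
    |(P s w v).1 - (P s w g.t).1| ≤ η s ∧ |(P s w v).2 - (P s w g.t).2| ≤ η s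
  Y_gap : ∀ s < S, ∀ w w', ¬ Agree s w w' →
    Y s w ≠ Y s w' ∧ 1000 * η s ≤ (Y s w - Y s w') ^ 2
  δ_nonneg : ∀ n, 0 ≤ δ n
  δ_lt : ∀ n ≤ S, (4 * (S : ℝ) + 9) * δ n < 1
  F_le : ∀ n ≤ S, ∀ w, ∀ x : ℝ, -1 ≤ x → x ≤ S + 1 → |aff (F n w) x| ≤ 1
  margin : ∀ n ≤ S, ∀ s < n, ∀ w w' v,
    (4 * (S : ℝ) + 9) * δ n < |(P s w' v).2 - aff (F n w) (P s w' v).1|
  tube : ∀ n s, n ≤ s → s < S → ∀ w v, |(P s w v).2 - aff (F n w) (P s w v).1| ≤ δ n
  gap : ∀ n s, n ≤ s → s < S → ∀ w w', ¬ Agree n w w' → ∀ x : ℝ, |x - s| ≤ 1 / 4 →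
    (4 * (S : ℝ) + 10) * δ n < |aff (F n w) x - aff (F n w') x|
  own : ∀ n ≤ S, ∀ s < n, ∀ w v,
    (0 < (P s w v).2 - aff (F n w) (P s w v).1 ↔ 0 < g.h v (w s))
  other : ∀ n ≤ S, ∀ s < n, ∀ w w' v, ¬ Agree s w w' →
    (0 < (P s w' v).2 - aff (F n w) (P s w' v).1 ↔ Y s w < Y s w')

/-- extension of a finite word -/
noncomputable def ext {J : Type} [Nonempty J] {s : ℕ} (u : Fin s → J) : ℕ → J :=
  fun i => if h : i < s then u ⟨i, h⟩ else Classical.arbitrary J

theorem ext_lt {J : Type} [Nonempty J] {s : ℕ} (u : Fin s → J) {i : ℕ} (h : i < s) :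
    ext u i = u ⟨i, h⟩ := by
  simp [ext, h]

theorem agree_ext {J : Type} [Nonempty J] {s : ℕ} {u u' : Fin s → J} :
    Agree s (ext u) (ext u') ↔ u = u' := by
  constructor
  · intro h
    funext i
    have := h i i.2
    rwa [ext_lt u i.2, ext_lt u' i.2] at this
  · rintro rfl i _
    rfl

end TSN
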