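import Pool.Agent.TSN.Defs

/-!
Project TSN, module Eul: an Euler tour, as a list.  Mathlib only.
-/

namespace TSN

open Classical in
/-- number of consecutive pairs of the list that are separated by `A` -/
noncomputable def cuts {α : Type} (A : α → Prop) : List α → ℕ
  | [] => 0
  | [_] => 0
  | x :: y :: l => (if (A x ↔ A y) then 0 else 1) + cuts A (y :: l)

/-- the edge `e` is cut by `A` -/
def CutE {α : Type} (A : α → Prop) (e : Sym2 α) : Prop := ∃ x y, e = s(x, y) ∧ A x ∧ ¬ A y

open Classical in
private theorem cuts_cons_cons {α : Type} (A : α → Prop) (x y : α) (l : List α) :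
    cuts A (x :: y :: l) = (if (A x ↔ A y) then 0 else 1) + cuts A (y :: l) := rfl

private theorem cuts_le_cons {α : Type} (A : α → Prop) (a : α) (l : List α) :
    cuts A l ≤ cuts A (a :: l) := by
  cases l with
  | nil => exact Nat.zero_le _
  | cons b l => rw [cuts_cons_cons]; omega

private theorem cuts_le_cons_cons {α : Type} (A : α → Prop) (x a : α) (l : List α) :
    cuts A (x :: l) ≤ cuts A (x :: a :: l) := by
  cases l with
  | nil => exact Nat.zero_le _
  | cons b l =>
    rw [cuts_cons_cons, cuts_cons_cons, cuts_cons_cons]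
    by_cases h1 : A x <;> by_cases h2 : A a <;> by_cases h3 : A b <;>
      simp only [h1, h2, h3, iff_true, iff_false, not_true_eq_false, not_false_eq_true, if_true,
        if_false, true_iff, false_iff] <;> omega

private theorem cuts_sublist_aux {α : Type} (A : α → Prop) {l l' : List α} (h : l'.Sublist l) :
    (∀ x, cuts A (x :: l') ≤ cuts A (x :: l)) ∧ cuts A l' ≤ cuts A l := by
  induction h with
  | slnil => exact ⟨fun _ => le_refl _, le_refl _⟩
  | cons a _ ih =>
    exact ⟨fun x => (ih.1 x).trans (cuts_le_cons_cons A x a _),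
      ih.2.trans (cuts_le_cons A a _)⟩
  | cons_cons a _ ih =>
    refine ⟨fun x => ?_, ih.1 a⟩
    rw [cuts_cons_cons, cuts_cons_cons]
    exact Nat.add_le_add_left (ih.1 a) _

theorem cuts_sublist {α : Type} (A : α → Prop) {l l' : List α} (h : l'.Sublist l) :
    cuts A l' ≤ cuts A l := (cuts_sublist_aux A h).2

open Classical in
private theorem cuts_insert {α : Type} (A : α → Prop) (u v : α) (l₁ l₂ : List α) :
    cuts A (l₁ ++ u :: v :: u :: l₂) =
      cuts A (l₁ ++ u :: l₂) + 2 * (if (A u ↔ A v) then 0 else 1) := by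
  induction l₁ with
  | nil =>
    rw [List.nil_append, List.nil_append, cuts_cons_cons, cuts_cons_cons]
    by_cases h1 : A u <;> by_cases h2 : A v <;> simp [h1, h2] <;> omega
  | cons a t ih =>
    cases t with
    | nil =>
      simp only [List.cons_append, List.nil_append] at ih ⊢
      rw [cuts_cons_cons A a u, ih, cuts_cons_cons A a u]
      omega
    | cons b t =>
      simp only [List.cons_append] at ih ⊢
      rw [cuts_cons_cons A a b, ih, cuts_cons_cons A a b]
      omega

private theorem cutE_iff {α : Type} (A : α → Prop) (u v : α) :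
    CutE A s(u, v) ↔ ¬ (A u ↔ A v) := by
  constructor
  · rintro ⟨x, y, h, hx, hy⟩
    rcases Sym2.eq_iff.1 h with ⟨rfl, rfl⟩ | ⟨rfl, rfl⟩
    · exact fun h1 => hy (h1.1 hx)
    · exact fun h1 => hy (h1.2 hx)
  · intro h
    by_cases hu : A u
    · exact ⟨u, v, rfl, hu, fun hv => h ⟨fun _ => hv, fun _ => hu⟩⟩
    · by_cases hv : A v
      · exact ⟨v, u, Sym2.eq_swap, hv, hu⟩
      · exact absurd ⟨fun h1 => absurd h1 hu, fun h1 => absurd h1 hv⟩ h

open Classical in
private theorem exists_list_aux {α : Type} [Fintype α] (G : SimpleGraph α) (hG : G.Connected)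
    (n : ℕ) (hn : n + 1 ≤ Fintype.card α) :
    ∃ (l : List α) (M : Finset (Sym2 α)), n + 1 ≤ l.toFinset.card ∧
      (∀ e ∈ M, e ∈ G.edgeSet ∧ ∀ x ∈ e, x ∈ l) ∧
      ∀ A : α → Prop, cuts A l ≤ 2 * (M.filter fun e => CutE A e).card := by
  induction n with
  | zero =>
    obtain ⟨x⟩ := hG.nonempty
    refine ⟨[x], ∅, by simp, by simp, fun A => ?_⟩
    exact Nat.zero_le _
  | succ n ih =>
    obtain ⟨l, M, h1, h2, h3⟩ := ih (by omega)
    by_cases hc : n + 1 + 1 ≤ l.toFinset.card
    · exact ⟨l, M, hc, h2, h3⟩
    · have hcard : l.toFinset.card < Fintype.card α := by omega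
      obtain ⟨z, hz⟩ : ∃ z, z ∉ l.toFinset := by
        by_contra hcon
        push Not at hcon
        have : l.toFinset = Finset.univ := Finset.eq_univ_iff_forall.2 hcon
        rw [this, Finset.card_univ] at hcard
        exact lt_irrefl _ hcard
      obtain ⟨w, hw⟩ : l.toFinset.Nonempty := Finset.card_pos.1 (by omega)
      rw [List.mem_toFinset] at hz hw
      obtain ⟨p⟩ := hG.preconnected w z
      obtain ⟨d, -, hd1, hd2⟩ := p.exists_boundary_dart {x | x ∈ l} hw hz
      have hu : d.fst ∈ l := hd1
      have hv : d.snd ∉ l := hd2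
      obtain ⟨l₁, l₂, rfl⟩ := List.append_of_mem hu
      have hnM : s(d.fst, d.snd) ∉ M := fun hM =>
        hv ((h2 _ hM).2 _ (Sym2.mem_mk_right _ _))
      have hmem : ∀ x, x ∈ l₁ ++ d.fst :: d.snd :: d.fst :: l₂ ↔
          x = d.snd ∨ x ∈ l₁ ++ d.fst :: l₂ := by
        intro x
        simp only [List.mem_append, List.mem_cons]
        tauto
      refine ⟨l₁ ++ d.fst :: d.snd :: d.fst :: l₂, insert s(d.fst, d.snd) M, ?_, ?_, ?_⟩
      · have h4 : (l₁ ++ d.fst :: d.snd :: d.fst :: l₂).toFinset =
            insert d.snd (l₁ ++ d.fst :: l₂).toFinset := by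
          ext x
          rw [List.mem_toFinset, Finset.mem_insert, List.mem_toFinset, hmem]
        rw [h4, Finset.card_insert_of_notMem (by rwa [List.mem_toFinset])]
        omega
      · intro e he
        rcases Finset.mem_insert.1 he with rfl | he
        · refine ⟨d.adj, fun x hx => ?_⟩
          rw [hmem]
          rcases Sym2.mem_iff.1 hx with rfl | rfl
          · exact Or.inr hu
          · exact Or.inl rfl
        · exact ⟨(h2 e he).1, fun x hx => (hmem x).2 (Or.inr ((h2 e he).2 x hx))⟩
      · intro A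
        rw [cuts_insert, Finset.filter_insert]
        have h4 := h3 A
        by_cases h5 : (A d.fst ↔ A d.snd)
        · rw [if_pos h5, if_neg (by rw [cutE_iff]; exact not_not.2 h5)]
          omega
        · rw [if_neg h5, if_pos ((cutE_iff _ _ _).2 h5),
            Finset.card_insert_of_notMem (fun h6 => hnM (Finset.mem_filter.1 h6).1)]
          omega

theorem exists_list {α : Type} [Fintype α] (G : SimpleGraph α) (hG : G.Connected) :
    ∃ l : List α, (∀ x, x ∈ l) ∧
      ∀ A : α → Prop, cuts A l ≤ 2 * {e ∈ G.edgeSet | CutE A e}.ncard := by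
  classical
  have hpos : 0 < Fintype.card α := Fintype.card_pos_iff.2 hG.nonempty
  obtain ⟨l, M, h1, h2, h3⟩ := exists_list_aux G hG (Fintype.card α - 1) (by omega)
  refine ⟨l, fun x => ?_, fun A => ?_⟩
  · have h4 : l.toFinset = Finset.univ := by
      apply Finset.eq_univ_of_card
      have := Finset.card_le_univ l.toFinset
      omega
    have h5 : x ∈ l.toFinset := by rw [h4]; exact Finset.mem_univ x
    exact List.mem_toFinset.1 h5
  · refine (h3 A).trans (Nat.mul_le_mul_left _ ?_)
    rw [← Set.ncard_coe_finset]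
    refine Set.ncard_le_ncard ?_ (Set.toFinite _)
    intro e he
    rw [Finset.mem_coe, Finset.mem_filter] at he
    exact ⟨(h2 e he.1).1, he.2⟩

end TSN
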