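import Pool.Agent.TSN.Stat

/-!
Project TSN, module Follow: a line hitting copies in two different stations follows a planned line
up to some station, and afterwards it meets at most `card J + 1` stations in a copy.
The station up to which the two hit words agree is chosen maximal; the line is within
`(4 S + 9) δ n` of the planned line `F n w`.
-/

namespace TSN

variable {V J E : Type}

private theorem follow_conv {p q M lam : ℝ} (hp : |p| ≤ M) (hq : |q| ≤ M) (h0 : 0 ≤ lam)
    (h1 : lam ≤ 1) : |(1 - lam) * p + lam * q| ≤ M := by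
  have h2 := abs_add_le ((1 - lam) * p) (lam * q)
  rw [abs_mul, abs_mul, abs_of_nonneg h0, abs_of_nonneg (by linarith : 0 ≤ 1 - lam)] at h2
  have h3 := mul_le_mul_of_nonneg_left hp (by linarith : 0 ≤ 1 - lam)
  have h4 := mul_le_mul_of_nonneg_left hq h0
  linarith

private theorem follow_pt {g : Gad V J E} {S : ℕ} (C : Conf g S) {a b c : ℝ} {s : ℕ} (hs : s < S)
    {w : ℕ → J} (h : Hit a b c (C.P s w) g.t) :
    ∃ X : ℝ × ℝ, a * X.1 + b * X.2 = c ∧ |X.1 - s| ≤ 1 / 4 ∧
      ∀ n ≤ s, |X.2 - aff (C.F n w) X.1| ≤ C.δ n := by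
  obtain ⟨v, hv⟩ := h
  unfold Sep at hv
  obtain ⟨u, hu⟩ : ∃ u, u = val a b c (C.P s w v) := ⟨_, rfl⟩
  obtain ⟨u', hu'⟩ : ∃ u', u' = val a b c (C.P s w g.t) := ⟨_, rfl⟩
  rw [← hu, ← hu'] at hv
  have hne : u - u' ≠ 0 := by
    intro h0
    have : u = u' := by linarith
    rw [this] at hv
    nlinarith [mul_self_nonneg u']
  obtain ⟨lam, hlam⟩ : ∃ lam, lam = u / (u - u') := ⟨_, rfl⟩
  have hsq : 0 < (u - u') ^ 2 := by positivity
  have hl0 : 0 ≤ lam := by
    rw [hlam, show u / (u - u') = u * (u - u') / (u - u') ^ 2 by field_simp]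
    apply div_nonneg _ hsq.le
    nlinarith [mul_self_nonneg u]
  have hl1 : lam ≤ 1 := by
    rw [hlam, show u / (u - u') = u * (u - u') / (u - u') ^ 2 by field_simp, div_le_one hsq]
    nlinarith [mul_self_nonneg u']
  refine ⟨((1 - lam) * (C.P s w v).1 + lam * (C.P s w g.t).1,
    (1 - lam) * (C.P s w v).2 + lam * (C.P s w g.t).2), ?_, ?_, ?_⟩
  · have h1 : lam * (u - u') = u := by
      rw [hlam]
      exact div_mul_cancel₀ _ hne
    rw [hu, hu'] at h1
    unfold val at h1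
    simp only
    linarith
  · have h1 := follow_conv (C.P_x s hs w v) (C.P_x s hs w g.t) hl0 hl1
    have h2 : (1 - lam) * ((C.P s w v).1 - s) + lam * ((C.P s w g.t).1 - s) =
        (1 - lam) * (C.P s w v).1 + lam * (C.P s w g.t).1 - s := by ring
    rw [h2] at h1
    exact h1
  · intro n hn
    have h1 := follow_conv (C.tube n s hn hs w v) (C.tube n s hn hs w g.t) hl0 hl1
    have h2 : (1 - lam) * ((C.P s w v).2 - aff (C.F n w) (C.P s w v).1) +
        lam * ((C.P s w g.t).2 - aff (C.F n w) (C.P s w g.t).1) =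
        (1 - lam) * (C.P s w v).2 + lam * (C.P s w g.t).2 -
          aff (C.F n w) ((1 - lam) * (C.P s w v).1 + lam * (C.P s w g.t).1) := by
      unfold aff
      ring
    rw [h2] at h1
    exact h1

private theorem follow_sign {x y e : ℝ} (h : |x - y| ≤ e) (h' : e < |y|) : 0 < x ↔ 0 < y := by
  have h1 := abs_le.1 h
  rcases lt_trichotomy y 0 with h2 | h2 | h2
  · rw [abs_of_neg h2] at h'
    constructor <;> intro h3 <;> linarith
  · rw [h2, abs_zero] at h'
    have := abs_nonneg (x - y)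
    linarith
  · rw [abs_of_pos h2] at h'
    constructor <;> intro h3 <;> linarith

open Classical in
theorem follow [Fintype J] {g : Gad V J E} {S : ℕ} (C : Conf g S) {a b c : ℝ}
    (hab : a ≠ 0 ∨ b ≠ 0)
    {s₁ s₂ : ℕ} (h12 : s₁ < s₂) (h2 : s₂ < S) {w₁ w₂ : ℕ → J}
    (hit1 : Hit a b c (C.P s₁ w₁) g.t) (hit2 : Hit a b c (C.P s₂ w₂) g.t) :
    b ≠ 0 ∧ ∃ n ≤ S, ∃ w : ℕ → J,
      (∀ s < n, ∀ w' v, (0 < val a b c (C.P s w' v) * b ↔
        0 < (C.P s w' v).2 - aff (C.F n w) (C.P s w' v).1)) ∧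
      (∀ s < n, val a b c ((s : ℝ) + 1 / 25, -2) * b < 0) ∧
      ((Finset.range S).filter fun s => n ≤ s ∧ ∃ w', Hit a b c (C.P s w') g.t).card
        ≤ Fintype.card J + 1 := by
  obtain ⟨Pr, hPr⟩ : ∃ Pr : ℕ → Prop, ∀ n, Pr n ↔ ∃ s s' w w', s < s' ∧ s' < S ∧ n ≤ s ∧
      Hit a b c (C.P s w) g.t ∧ Hit a b c (C.P s' w') g.t ∧ Agree n w w' := ⟨_, fun n => Iff.rfl⟩
  have hPr0 : Pr 0 := (hPr 0).2 ⟨s₁, s₂, w₁, w₂, h12, h2, Nat.zero_le _, hit1, hit2,
    fun i hi => absurd hi (Nat.not_lt_zero i)⟩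
  obtain ⟨n, hn, hmax⟩ : ∃ n, Pr n ∧ ∀ k, n < k → k ≤ S → ¬ Pr k := by
    refine ⟨Nat.findGreatest Pr S, Nat.findGreatest_spec (Nat.zero_le S) hPr0, fun k hk hkS => ?_⟩
    exact Nat.findGreatest_is_greatest hk hkS
  obtain ⟨s, s', w, w', hss', hs'S, hns, hitw, hitw', hag⟩ := (hPr n).1 hn
  obtain ⟨X, hX0, hX1, hX2⟩ := follow_pt C (hss'.trans hs'S) hitw
  obtain ⟨X', hX0', hX1', hX2'⟩ := follow_pt C hs'S hitw'
  have hXn := hX2 n hns
  have hXn' := hX2' n (hns.trans hss'.le)
  rw [← C.F_congr n w w' hag] at hXn'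
  have hnS : n ≤ S := by omega
  have hd0 := C.δ_nonneg n
  have hdist : 1 / 2 ≤ X'.1 - X.1 := by
    have h3 := (abs_le.1 hX1).2
    have h4 := (abs_le.1 hX1').1
    have h5 : (s : ℝ) + 1 ≤ s' := by exact_mod_cast hss'
    linarith
  have hb : b ≠ 0 := by
    intro hb
    rcases hab with ha | hb'
    · have h3 : a * (X'.1 - X.1) = 0 := by
        rw [hb] at hX0 hX0'
        linarith
      rcases mul_eq_zero.1 h3 with h4 | h4
      · exact ha h4
      · linarith
    · exact hb' hb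
  refine ⟨hb, n, hnS, w, ?_⟩
  obtain ⟨A, hA⟩ : ∃ A, A = (C.F n w).1 := ⟨_, rfl⟩
  obtain ⟨B, hB⟩ : ∃ B, B = (C.F n w).2 := ⟨_, rfl⟩
  obtain ⟨p, hp⟩ : ∃ p, p = a / b := ⟨_, rfl⟩
  obtain ⟨r, hr⟩ : ∃ r, r = c / b := ⟨_, rfl⟩
  have ha : a = p * b := by rw [hp]; field_simp
  have hc : c = r * b := by rw [hr]; field_simp
  -- the points of the line
  have hline : ∀ x y : ℝ, a * x + b * y = c → y = r - p * x := by
    intro x y h
    rw [ha, hc] at h
    have h3 : b * (y - (r - p * x)) = 0 := by linarith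
    rcases mul_eq_zero.1 h3 with h4 | h4
    · exact absurd h4 hb
    · linarith
  have hval : ∀ x y : ℝ, val a b c (x, y) * b = b ^ 2 * (y - (r - p * x)) := by
    intro x y
    unfold val
    rw [ha, hc]
    ring
  have haff : ∀ x : ℝ, aff (C.F n w) x = A * x + B := by
    intro x
    unfold aff
    rw [hA, hB]
  have hD1 : |(r - p * X.1) - (A * X.1 + B)| ≤ C.δ n := by
    rw [← hline _ _ hX0, ← haff]
    exact hXn
  have hD2 : |(r - p * X'.1) - (A * X'.1 + B)| ≤ C.δ n := by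
    rw [← hline _ _ hX0', ← haff]
    exact hXn'
  have hk : |p + A| ≤ 4 * C.δ n := by
    have h3 : |(p + A) * (X'.1 - X.1)| ≤ 2 * C.δ n := by
      have h4 : (p + A) * (X'.1 - X.1) = ((r - p * X.1) - (A * X.1 + B)) -
          ((r - p * X'.1) - (A * X'.1 + B)) := by ring
      rw [h4]
      have h5 := abs_sub ((r - p * X.1) - (A * X.1 + B)) ((r - p * X'.1) - (A * X'.1 + B))
      linarith
    rw [abs_mul, abs_of_pos (by linarith : 0 < X'.1 - X.1)] at h3
    have h6 := mul_le_mul_of_nonneg_left hdist (abs_nonneg (p + A))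
    linarith
  have hD : ∀ x : ℝ, -1 ≤ x → x ≤ S + 1 → |(r - p * x) - (A * x + B)| ≤ (4 * S + 9) * C.δ n := by
    intro x hx1 hx2
    have h3 : (r - p * x) - (A * x + B) = ((r - p * X.1) - (A * X.1 + B)) -
        (p + A) * (x - X.1) := by ring
    rw [h3]
    have h4 := abs_sub ((r - p * X.1) - (A * X.1 + B)) ((p + A) * (x - X.1))
    rw [abs_mul] at h4
    have h5 : |x - X.1| ≤ S + 2 := by
      have h6 := abs_le.1 hX1
      have h7 : (0 : ℝ) ≤ s := Nat.cast_nonneg s
      have h8 : (s : ℝ) + 1 ≤ S := by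
        have : s + 1 ≤ S := by omega
        exact_mod_cast this
      rw [abs_le]
      constructor <;> linarith
    have h6 := mul_le_mul hk h5 (abs_nonneg _) (by positivity)
    linarith
  have hx : ∀ s'' < S, ∀ x : ℝ, |x - s''| ≤ 1 / 4 → -1 ≤ x ∧ x ≤ S + 1 := by
    intro s'' hs'' x hx
    have h6 := abs_le.1 hx
    have h7 : (0 : ℝ) ≤ s'' := Nat.cast_nonneg s''
    have h8 : (s'' : ℝ) + 1 ≤ S := by exact_mod_cast hs''
    constructor <;> linarith
  refine ⟨?_, ?_, ?_⟩
  · intro s'' hs'' w'' v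
    have h3 := hx s'' (by omega) _ (C.P_x s'' (by omega) w'' v)
    have h4 := C.margin n hnS s'' hs'' w w'' v
    have h5 := hD _ h3.1 h3.2
    have h6 : val a b c (C.P s'' w'' v) * b =
        b ^ 2 * ((C.P s'' w'' v).2 - (r - p * (C.P s'' w'' v).1)) := hval _ _
    rw [h6, mul_pos_iff_of_pos_left (by positivity)]
    apply follow_sign _ h4
    rw [haff]
    have h7 : (C.P s'' w'' v).2 - (r - p * (C.P s'' w'' v).1) -
        ((C.P s'' w'' v).2 - (A * (C.P s'' w'' v).1 + B)) =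
        -((r - p * (C.P s'' w'' v).1) - (A * (C.P s'' w'' v).1 + B)) := by ring
    rw [h7, abs_neg]
    exact h5
  · intro s'' hs''
    rw [hval]
    have h3 := hx s'' (by omega) ((s'' : ℝ) + 1 / 25) (by
      rw [add_sub_cancel_left]
      rw [abs_of_pos (by norm_num)]
      norm_num)
    have h4 := (abs_le.1 (hD _ h3.1 h3.2)).1
    have h5 := C.δ_lt n hnS
    have h6 := (abs_le.1 (C.F_le n hnS w _ h3.1 h3.2)).1
    rw [haff] at h6
    have h7 : (-2 : ℝ) - (r - p * ((s'' : ℝ) + 1 / 25)) < 0 := by linarith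
    have h8 : 0 < b ^ 2 := by positivity
    nlinarith
  · have hagree : ∀ s'' < S, n ≤ s'' → ∀ w'', Hit a b c (C.P s'' w'') g.t → Agree n w w'' := by
      intro s'' hs'' hns'' w'' hit''
      by_contra hna
      obtain ⟨Z, hZ0, hZ1, hZ2⟩ := follow_pt C hs'' hit''
      have h3 := C.gap n s'' hns'' hs'' w w'' hna Z.1 hZ1
      have h4 := hx s'' hs'' Z.1 hZ1
      have h5 := hD _ h4.1 h4.2
      have h6 := hZ2 n hns''
      rw [← hline _ _ hZ0, ← haff] at h5
      have h7 : aff (C.F n w) Z.1 - aff (C.F n w'') Z.1 =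
          (Z.2 - aff (C.F n w'') Z.1) - (Z.2 - aff (C.F n w) Z.1) := by ring
      rw [h7] at h3
      have h8 := abs_sub (Z.2 - aff (C.F n w'') Z.1) (Z.2 - aff (C.F n w) Z.1)
      linarith
    obtain ⟨f, hf⟩ : ∃ f : ℕ → (ℕ → J), ∀ s'', (∃ w'', Hit a b c (C.P s'' w'') g.t) →
        Hit a b c (C.P s'' (f s'')) g.t := by
      refine ⟨fun s'' => if h : ∃ w'', Hit a b c (C.P s'' w'') g.t then h.choose else w, ?_⟩
      intro s'' h
      simp only [dif_pos h]
      exact h.choose_spec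
    obtain ⟨A', hA'⟩ : ∃ A' : Finset ℕ, A' = (Finset.range S).filter fun s =>
      n + 1 ≤ s ∧ ∃ w', Hit a b c (C.P s w') g.t := ⟨_, rfl⟩
    have hsub : ((Finset.range S).filter fun s => n ≤ s ∧ ∃ w', Hit a b c (C.P s w') g.t) ⊆
        insert n A' := by
      intro x hx
      rw [Finset.mem_filter, Finset.mem_range] at hx
      rw [Finset.mem_insert, hA', Finset.mem_filter, Finset.mem_range]
      by_cases hxn : x = n
      · exact Or.inl hxn
      · exact Or.inr ⟨hx.1, by omega, hx.2.2⟩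
    have hcard : A'.card ≤ Fintype.card J := by
      rw [← Finset.card_univ]
      apply Finset.card_le_card_of_injOn (fun s'' => f s'' n) (fun _ _ => Finset.mem_univ _)
      have key : ∀ x ∈ A', ∀ y ∈ A', f x n = f y n → ¬ x < y := by
        intro x hx y hy hxy hlt
        rw [hA', Finset.mem_filter, Finset.mem_range] at hx hy
        have h3 := hf x hx.2.2
        have h4 := hf y hy.2.2
        have h5 := hagree x hx.1 (by omega) _ h3
        have h6 := hagree y hy.1 (by omega) _ h4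
        apply hmax (n + 1) (Nat.lt_succ_self n) (by omega)
        rw [hPr]
        refine ⟨x, y, f x, f y, hlt, hy.1, hx.2.1, h3, h4, ?_⟩
        intro i hi
        rcases Nat.lt_succ_iff_lt_or_eq.1 hi with h7 | h7
        · rw [← h5 i h7, ← h6 i h7]
        · rw [h7]
          exact hxy
      intro x hx y hy hxy
      rcases lt_trichotomy x y with h3 | h3 | h3
      · exact absurd h3 (key x hx y hy hxy)
      · exact h3
      · exact absurd h3 (key y hy x hx hxy.symm)
    exact (Finset.card_le_card hsub).trans ((Finset.card_insert_le _ _).trans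
      (Nat.add_le_add_right hcard 1))

end TSN
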