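import Pool.Agent.TSN.GadDefs

/-!
Project TSN, module GadComb1: the combinatorics of the sign table, part 1 (inductions on `D`).
-/

namespace TSN

theorem card_Wd (m D : ℕ) : Fintype.card (Wd m D) = m ^ D := by
  induction D with
  | zero => rfl
  | succ D ih =>
    have h : Fintype.card (Wd m (D + 1)) = Fintype.card (Fin m × Wd m D) := rfl
    rw [h, Fintype.card_prod, Fintype.card_fin, ih, pow_succ, mul_comm]

theorem sg_tp {m : ℕ} (hm : 0 < m) (D : ℕ) (w : Wd m D) : sg D (tp hm D) w = true := by
  induction D with
  | zero => rfl
  | succ D ih =>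
    have h : sg (D + 1) (tp hm (D + 1)) w =
        if (⟨m - 1, by omega⟩ : Fin m) = w.1 then (sl w.1 == sg D (tp hm D) w.2)
          else !(sl w.1) := rfl
    rw [h, ih]
    split_ifs with h1
    · rw [← h1]
      simp only [sl, beq_true, decide_eq_true_eq]
      omega
    · simp only [sl, Bool.not_eq_true', decide_eq_false_iff_not]
      intro h2
      apply h1
      apply Fin.ext
      simp only
      omega

theorem cross_le {m : ℕ} (hm : 0 < m) (D : ℕ) (w : Wd m D) :
    (Finset.univ.filter fun e : Ed m D => sg D (es D e) w ≠ sg D (et hm D e) w).card ≤ D := by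
  classical
  induction D with
  | zero =>
    rw [Nat.le_zero, Finset.card_eq_zero]
    ext e
    exact (nomatch (show Empty from e))
  | succ D ih =>
    let F : Finset (Ed m D) :=
      Finset.univ.filter fun e : Ed m D => sg D (es D e) w.2 ≠ sg D (et hm D e) w.2
    let ι : Ed m D → Ed m (D + 1) := fun e => (Sum.inr (w.1, e) : Fin m ⊕ (Fin m × Ed m D))
    let e₀ : Ed m (D + 1) := (Sum.inl w.1 : Fin m ⊕ (Fin m × Ed m D))
    have hsub : (Finset.univ.filter fun e : Ed m (D + 1) =>
        sg (D + 1) (es (D + 1) e) w ≠ sg (D + 1) (et hm (D + 1) e) w) ⊆ insert e₀ (F.image ι) := by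
      intro e he
      rw [Finset.mem_filter] at he
      rw [Finset.mem_insert, Finset.mem_image]
      obtain ⟨-, he⟩ := he
      rcases e with k | ⟨k, e⟩
      · left
        have h1 : sg (D + 1) (es (D + 1) (Sum.inl k)) w = !(sl w.1) := rfl
        have h2 : sg (D + 1) (et hm (D + 1) (Sum.inl k)) w =
          if k = w.1 then (sl w.1 == sg D (tp hm D) w.2) else !(sl w.1) := rfl
        rw [h1, h2] at he
        by_cases hk : k = w.1
        · rw [hk]
        · rw [if_neg hk] at he
          exact absurd rfl he
      · right
        have h1 : sg (D + 1) (es (D + 1) (Sum.inr (k, e))) w =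
          if k = w.1 then (sl w.1 == sg D (es D e) w.2) else !(sl w.1) := rfl
        have h2 : sg (D + 1) (et hm (D + 1) (Sum.inr (k, e))) w =
          if k = w.1 then (sl w.1 == sg D (et hm D e) w.2) else !(sl w.1) := rfl
        rw [h1, h2] at he
        by_cases hk : k = w.1
        · rw [if_pos hk, if_pos hk] at he
          refine ⟨e, ?_, ?_⟩
          · rw [Finset.mem_filter]
            refine ⟨Finset.mem_univ _, fun h3 => he ?_⟩
            rw [h3]
          · rw [hk]
        · rw [if_neg hk, if_neg hk] at he
          exact absurd rfl he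
    calc _ ≤ (insert e₀ (F.image ι)).card := Finset.card_le_card hsub
      _ ≤ (F.image ι).card + 1 := Finset.card_insert_le _ _
      _ ≤ F.card + 1 := by
        have := Finset.card_image_le (s := F) (f := ι)
        omega
      _ ≤ D + 1 := by
        have := ih w.2
        have h3 : F.card ≤ D := by
          convert this
        omega

theorem conn_gad {m : ℕ} (hm : 0 < m) (D : ℕ) (u v : Vt m D) : Conn (es D) (et hm D) u v := by
  induction D with
  | zero => exact Relation.ReflTransGen.refl
  | succ D ih =>
    have key : ∀ x : Vt m (D + 1), Conn (es (D + 1)) (et hm (D + 1)) (none : Option (Fin m × Vt m D)) x := by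
      intro x
      rcases x with _ | ⟨k, x⟩
      · exact Relation.ReflTransGen.refl
      · have h1 : Conn (es (D + 1)) (et hm (D + 1)) (none : Option (Fin m × Vt m D))
            (some (k, tp hm D) : Option (Fin m × Vt m D)) :=
          Conn.edge (src := es (D + 1)) (tgt := et hm (D + 1))
            (Sum.inl k : Fin m ⊕ (Fin m × Ed m D))
        refine h1.trans ?_
        refine Relation.ReflTransGen.lift
          (fun y : Vt m D => (some (k, y) : Option (Fin m × Vt m D))) ?_ _ _ (ih (tp hm D) x)
        rintro a b ⟨e, he⟩
        refine ⟨(Sum.inr (k, e) : Fin m ⊕ (Fin m × Ed m D)), ?_⟩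
        rcases he with ⟨h2, h3⟩ | ⟨h2, h3⟩
        · left
          refine ⟨?_, ?_⟩
          · change some (k, es D e) = _
            rw [h2]
          · change some (k, et hm D e) = _
            rw [h3]
        · right
          refine ⟨?_, ?_⟩
          · change some (k, es D e) = _
            rw [h2]
          · change some (k, et hm D e) = _
            rw [h3]
    exact (key u).symm.trans (key v)

end TSN
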