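import Pool.Agent.TSN.GadComb1

/-!
Project TSN, module GadComb2: the combinatorics of the sign table, part 2.
(`card_Wd` of `GadComb1` may be used; its proof is another module.)

PLAN (all by induction on `D`; the types `Wd m (D+1)`, `Vt m (D+1)` are by definition
`Fin m × Wd m D`, `Option (Fin m × Vt m D)`).
`low_gad`: for `(j, z)` the negative lines are the `(k, v)` with `k ≠ j`, `sl k = true`, and the
`(j, v)` with `(sl j == sg z v) = false`; if `j` is the last letter (`sl j = true`) their number is
`0 + neg z`, otherwise it is at most `m^D + m^D`.
`card_pre`: the image of `pre (D+1) (l+1)` is the set of the `j :: p`, `p` in the image of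
`pre D l`; the image of `pre D 0` is `{[]}`.
`hier_gad`: `l = 0` is impossible (`pre D 0 z = []`).  First letters equal: the two signs agree on
the lines `(k, v)` with `k ≠ j`, and on the lines `(j, v)` they differ iff the signs of `z.2, z'.2`
differ on `v`: induction (`D + 1 - (l + 1) = D - l`).  First letters `j ≠ j'`: on the lines `(j, v)`
the signs are `(sl j == sg z v)` and `!sl j`, different iff `sg z v = true`; similarly on `(j', v)`
the signs are different iff `sg z' v = true`; so the number of different signs is at least
`2 m^D - neg z - neg z'`, and by `low_gad` `m` times this is at least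
`2 m m^D - 4 m^D = 2 (m-2) m^D ≥ 2 (m-2) m^(D-l)`.
`sep_of_ne`: from `hier_gad` with `l = D` and the injectivity of `pre D D` (`D ≥ 1`; for `D = 0`
there is only one word), or directly by induction.
-/

namespace TSN

private theorem gadC2_sum {m D : ℕ} (f : Wd m (D + 1) → ℕ) :
    ∑ w : Wd m (D + 1), f w = ∑ j : Fin m, ∑ v : Wd m D, f ((j, v) : Fin m × Wd m D) :=
  Fintype.sum_prod_type (f := fun w : Fin m × Wd m D => f w)

private theorem gadC2_sg {m D : ℕ} (j k : Fin m) (z v : Wd m D) :
    sg (D + 1) (em (D + 1) ((j, z) : Fin m × Wd m D)) ((k, v) : Fin m × Wd m D) =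
      if j = k then (sl k == sg D (em D z) v) else !(sl k) := rfl

private theorem gadC2_cnt {m D : ℕ} (P : Wd m (D + 1) → Prop) [DecidablePred P] :
    (Finset.univ.filter fun w : Wd m (D + 1) => P w).card =
      ∑ j : Fin m, (Finset.univ.filter fun v : Wd m D => P ((j, v) : Fin m × Wd m D)).card := by
  rw [Finset.card_filter, gadC2_sum]
  exact Finset.sum_congr rfl fun j _ => (Finset.card_filter _ _).symm

private theorem gadC2_le {m D : ℕ} (P : Wd m D → Prop) [DecidablePred P] :
    (Finset.univ.filter fun w : Wd m D => P w).card ≤ m ^ D := by
  rw [← card_Wd m D]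
  exact Finset.card_le_univ _

private theorem gadC2_sl {m : ℕ} (hm : 0 < m) (k : Fin m) (h : sl k = true) :
    k = ⟨m - 1, by omega⟩ := by
  have h1 : k.val + 1 = m := by simpa only [sl, decide_eq_true_eq] using h
  apply Fin.ext
  show k.val = m - 1
  omega

theorem low_gad {m : ℕ} (hm : 0 < m) (D : ℕ) (z : Wd m D) :
    m * (Finset.univ.filter fun w : Wd m D => sg D (em D z) w = false).card ≤ 2 * m ^ D := by
  induction D with
  | zero =>
    have h1 : (Finset.univ.filter fun w : Wd m 0 => sg 0 (em 0 z) w = false).card = 0 := by
      rw [Finset.card_eq_zero, Finset.filter_eq_empty_iff]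
      intro w _ h
      exact Bool.noConfusion (h : true = false)
    rw [h1, Nat.mul_zero]
    exact Nat.zero_le _
  | succ D ih =>
    obtain ⟨j, z⟩ := z
    have hc := gadC2_cnt (m := m) (D := D)
      (fun w => sg (D + 1) (em (D + 1) ((j, z) : Fin m × Wd m D)) w = false)
    refine (Nat.mul_le_mul_left m hc.le).trans ?_
    by_cases hj : sl j = true
    · have h1 : ∑ k : Fin m, (Finset.univ.filter fun v : Wd m D =>
          sg (D + 1) (em (D + 1) ((j, z) : Fin m × Wd m D)) ((k, v) : Fin m × Wd m D) =
            false).card =
          (Finset.univ.filter fun v : Wd m D => sg D (em D z) v = false).card := by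
        rw [Finset.sum_eq_single j]
        · congr 1
          ext v
          simp only [Finset.mem_filter, Finset.mem_univ, true_and]
          rw [gadC2_sg, if_pos rfl, hj]
          cases sg D (em D z) v <;> simp
        · intro k _ hk
          rw [Finset.card_eq_zero, Finset.filter_eq_empty_iff]
          intro v _ h
          rw [gadC2_sg, if_neg (Ne.symm hk)] at h
          have h2 : sl k = true := by
            cases hs : sl k
            · rw [hs] at h
              exact Bool.noConfusion h
            · rfl
          exact hk ((gadC2_sl hm k h2).trans (gadC2_sl hm j hj).symm)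
        · intro h
          exact absurd (Finset.mem_univ j) h
      rw [h1]
      refine (ih z).trans ?_
      rw [pow_succ]
      exact Nat.mul_le_mul_left 2 (Nat.le_mul_of_pos_right _ hm)
    · have h1 : ∑ k : Fin m, (Finset.univ.filter fun v : Wd m D =>
          sg (D + 1) (em (D + 1) ((j, z) : Fin m × Wd m D)) ((k, v) : Fin m × Wd m D) =
            false).card ≤ ∑ k : Fin m, ((if k = j then m ^ D else 0) +
              (if k = (⟨m - 1, by omega⟩ : Fin m) then m ^ D else 0)) := by
        refine Finset.sum_le_sum fun k _ => ?_
        by_cases hk : k = j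
        · rw [if_pos hk]
          exact (gadC2_le _).trans (Nat.le_add_right _ _)
        · by_cases hk2 : sl k = true
          · rw [if_pos (gadC2_sl hm k hk2)]
            exact (gadC2_le _).trans (Nat.le_add_left _ _)
          · have h2 : (Finset.univ.filter fun v : Wd m D =>
                sg (D + 1) (em (D + 1) ((j, z) : Fin m × Wd m D)) ((k, v) : Fin m × Wd m D) =
                  false).card = 0 := by
              rw [Finset.card_eq_zero, Finset.filter_eq_empty_iff]
              intro v _ h
              rw [gadC2_sg, if_neg (Ne.symm hk)] at h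
              have h3 : sl k = false := by
                cases hs : sl k
                · rfl
                · exact absurd hs hk2
              rw [h3] at h
              exact Bool.noConfusion h
            rw [h2]
            exact Nat.zero_le _
      refine (Nat.mul_le_mul_left m h1).trans ?_
      rw [Finset.sum_add_distrib, Finset.sum_ite_eq' Finset.univ j (fun _ => m ^ D),
        Finset.sum_ite_eq' Finset.univ (⟨m - 1, by omega⟩ : Fin m) (fun _ => m ^ D),
        if_pos (Finset.mem_univ _), if_pos (Finset.mem_univ _), pow_succ]
      apply le_of_eq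
      ring

open Classical in
theorem card_pre {m : ℕ} (D l : ℕ) (hm : 0 < m) (hl : l ≤ D) :
    (Finset.univ.image (pre (m := m) D l)).card = m ^ l := by
  induction D generalizing l with
  | zero =>
    obtain rfl : l = 0 := Nat.le_zero.1 hl
    have h1 : (Finset.univ.image (pre (m := m) 0 0)) = {[]} := by
      apply Finset.eq_singleton_iff_unique_mem.2
      refine ⟨Finset.mem_image.2 ⟨(), Finset.mem_univ _, rfl⟩, ?_⟩
      intro x hx
      obtain ⟨w, _, rfl⟩ := Finset.mem_image.1 hx
      rfl
    rw [h1, Finset.card_singleton, pow_zero]
  | succ D ih =>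
    cases l with
    | zero =>
      have h1 : (Finset.univ.image (pre (m := m) (D + 1) 0)) = {[]} := by
        apply Finset.eq_singleton_iff_unique_mem.2
        obtain ⟨w⟩ := nonempty_Wd hm (D + 1)
        refine ⟨Finset.mem_image.2 ⟨w, Finset.mem_univ _, rfl⟩, ?_⟩
        intro x hx
        obtain ⟨w, _, rfl⟩ := Finset.mem_image.1 hx
        rfl
      rw [h1, Finset.card_singleton, pow_zero]
    | succ l =>
      have h1 : (Finset.univ.image (pre (m := m) (D + 1) (l + 1))) =
          ((Finset.univ : Finset (Fin m)) ×ˢ (Finset.univ.image (pre (m := m) D l))).image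
            (fun q => q.1 :: q.2) := by
        ext x
        simp only [Finset.mem_image, Finset.mem_product, Finset.mem_univ, true_and]
        constructor
        · rintro ⟨w, rfl⟩
          exact ⟨(w.1, pre D l w.2), ⟨w.2, rfl⟩, rfl⟩
        · rintro ⟨⟨j, p⟩, ⟨v, hv⟩, rfl⟩
          refine ⟨((j, v) : Fin m × Wd m D), ?_⟩
          show j :: pre D l v = j :: p
          rw [hv]
      rw [h1, Finset.card_image_of_injective, Finset.card_product, ih l (by omega),
        Finset.card_univ, Fintype.card_fin, pow_succ, Nat.mul_comm]
      rintro ⟨a, b⟩ ⟨c, d⟩ h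
      have h2 : a :: b = c :: d := h
      injection h2 with h3 h4
      rw [h3, h4]

theorem hier_gad {m : ℕ} (hm : 4 ≤ m) (D l : ℕ) (hl : l ≤ D) (z z' : Wd m D)
    (h : pre D l z ≠ pre D l z') :
    2 * (m - 2) * m ^ (D - l) ≤
      m * (Finset.univ.filter fun w : Wd m D => sg D (em D z) w ≠ sg D (em D z') w).card := by
  have hm0 : 0 < m := by omega
  induction D generalizing l with
  | zero =>
    exact absurd rfl h
  | succ D ih =>
    cases l with
    | zero => exact absurd rfl h
    | succ l =>
      obtain ⟨j, u⟩ := z
      obtain ⟨j', u'⟩ := z'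
      have hc := gadC2_cnt (m := m) (D := D)
        (fun w => sg (D + 1) (em (D + 1) ((j, u) : Fin m × Wd m D)) w ≠
          sg (D + 1) (em (D + 1) ((j', u') : Fin m × Wd m D)) w)
      refine le_trans ?_ (Nat.mul_le_mul_left m hc.ge)
      by_cases hj : j = j'
      · subst hj
        have h1 : pre D l u ≠ pre D l u' := by
          intro h2
          apply h
          show j :: pre D l u = j :: pre D l u'
          rw [h2]
        have h3 := ih l (by omega) u u' h1
        rw [Nat.succ_sub_succ]
        refine h3.trans (Nat.mul_le_mul_left m ?_)
        have h4 : (Finset.univ.filter fun w : Wd m D => sg D (em D u) w ≠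
            sg D (em D u') w).card ≤ (Finset.univ.filter fun v : Wd m D =>
              sg (D + 1) (em (D + 1) ((j, u) : Fin m × Wd m D)) ((j, v) : Fin m × Wd m D) ≠
              sg (D + 1) (em (D + 1) ((j, u') : Fin m × Wd m D))
                ((j, v) : Fin m × Wd m D)).card := by
          apply Finset.card_le_card
          intro v hv
          simp only [Finset.mem_filter, Finset.mem_univ, true_and] at hv ⊢
          rw [gadC2_sg, gadC2_sg, if_pos rfl, if_pos rfl]
          revert hv
          cases sg D (em D u) v <;> cases sg D (em D u') v <;> cases sl j <;> simp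
        exact h4.trans (Finset.single_le_sum (f := fun k => (Finset.univ.filter fun v : Wd m D =>
              sg (D + 1) (em (D + 1) ((j, u) : Fin m × Wd m D)) ((k, v) : Fin m × Wd m D) ≠
              sg (D + 1) (em (D + 1) ((j, u') : Fin m × Wd m D))
                ((k, v) : Fin m × Wd m D)).card) (fun _ _ => Nat.zero_le _) (Finset.mem_univ j))
      · have key : ∀ (a b : Fin m) (x y : Wd m D), a ≠ b → ∀ v : Wd m D,
            sg D (em D x) v = true →
            sg (D + 1) (em (D + 1) ((a, x) : Fin m × Wd m D)) ((a, v) : Fin m × Wd m D) ≠
            sg (D + 1) (em (D + 1) ((b, y) : Fin m × Wd m D)) ((a, v) : Fin m × Wd m D) := by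
          intro a b x y hab v hv
          rw [gadC2_sg, gadC2_sg, if_pos rfl, if_neg (Ne.symm hab), hv]
          cases sl a <;> simp
        have key2 : ∀ x : Wd m D, m * m ^ D ≤
            m * (Finset.univ.filter fun v : Wd m D => sg D (em D x) v = true).card +
              2 * m ^ D := by
          intro x
          have h1 : (Finset.univ.filter fun v : Wd m D => sg D (em D x) v = true).card +
              (Finset.univ.filter fun v : Wd m D => sg D (em D x) v = false).card = m ^ D := by
            rw [← card_Wd m D, ← Finset.card_univ,
              ← Finset.card_filter_add_card_filter_not (s := (Finset.univ : Finset (Wd m D)))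
                (fun v : Wd m D => sg D (em D x) v = true)]
            congr 2
            ext v
            simp
          have h2 := low_gad hm0 D x
          rw [← h1, Nat.mul_add]
          rw [h1]
          exact Nat.add_le_add_left h2 _
        let d : Fin m → ℕ := fun k => (Finset.univ.filter fun v : Wd m D =>
              sg (D + 1) (em (D + 1) ((j, u) : Fin m × Wd m D)) ((k, v) : Fin m × Wd m D) ≠
              sg (D + 1) (em (D + 1) ((j', u') : Fin m × Wd m D))
                ((k, v) : Fin m × Wd m D)).card
        have hd1 : (Finset.univ.filter fun v : Wd m D => sg D (em D u) v = true).card ≤ d j := by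
          apply Finset.card_le_card
          intro v hv
          simp only [Finset.mem_filter, Finset.mem_univ, true_and] at hv ⊢
          exact key j j' u u' hj v hv
        have hd2 : (Finset.univ.filter fun v : Wd m D => sg D (em D u') v = true).card ≤ d j' := by
          apply Finset.card_le_card
          intro v hv
          simp only [Finset.mem_filter, Finset.mem_univ, true_and] at hv ⊢
          exact (key j' j u' u (Ne.symm hj) v hv).symm
        have hsum : d j + d j' ≤ ∑ k, d k := by
          rw [← Finset.sum_pair hj]
          exact Finset.sum_le_sum_of_subset (Finset.subset_univ _)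
        have h5 := key2 u
        have h6 := key2 u'
        have h7 : m * (d j + d j') ≤ m * ∑ k, d k := Nat.mul_le_mul_left m hsum
        have h8 : 2 * m * m ^ D ≤ m * (d j + d j') + 4 * m ^ D := by
          have h9 := Nat.mul_le_mul_left m hd1
          have h10 := Nat.mul_le_mul_left m hd2
          nlinarith
        have h11 : 2 * (m - 2) * m ^ D + 4 * m ^ D = 2 * m * m ^ D := by
          have h12 : (m - 2) + 2 = m := by omega
          calc 2 * (m - 2) * m ^ D + 4 * m ^ D = 2 * ((m - 2) + 2) * m ^ D := by ring
            _ = 2 * m * m ^ D := by rw [h12]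
        have h13 : 2 * (m - 2) * m ^ D ≤ m * ∑ k, d k := by omega
        refine le_trans (Nat.mul_le_mul_left _ ?_) h13
        exact Nat.pow_le_pow_right hm0 (by omega)

theorem sep_of_ne {m : ℕ} (hm : 4 ≤ m) (D : ℕ) (z z' : Wd m D) (h : z ≠ z') :
    ∃ w : Wd m D, sg D (em D z) w ≠ sg D (em D z') w := by
  induction D with
  | zero => exact absurd rfl h
  | succ D ih =>
    obtain ⟨j, u⟩ := z
    obtain ⟨j', u'⟩ := z'
    by_cases hj : j = j'
    · subst hj
      have h1 : u ≠ u' := by
        intro h2
        exact h (by rw [h2])
      obtain ⟨v, hv⟩ := ih u u' h1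
      refine ⟨((j, v) : Fin m × Wd m D), ?_⟩
      rw [gadC2_sg, gadC2_sg, if_pos rfl, if_pos rfl]
      revert hv
      cases sg D (em D u) v <;> cases sg D (em D u') v <;> cases sl j <;> simp
    · have h1 : pre (D + 1) 1 ((j, u) : Fin m × Wd m D) ≠
          pre (D + 1) 1 ((j', u') : Fin m × Wd m D) := by
        intro h2
        have h3 : j :: pre D 0 u = j' :: pre D 0 u' := h2
        injection h3 with h4 h5
        exact hj h4
      have h2 := hier_gad hm (D + 1) 1 (by omega) _ _ h1
      by_contra hcon
      have h3 : ∀ w : Wd m (D + 1), sg (D + 1) (em (D + 1) ((j, u) : Fin m × Wd m D)) w =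
          sg (D + 1) (em (D + 1) ((j', u') : Fin m × Wd m D)) w := by
        intro w
        by_contra hw
        exact hcon ⟨w, hw⟩
      have h4 : (Finset.univ.filter fun w : Wd m (D + 1) =>
          sg (D + 1) (em (D + 1) ((j, u) : Fin m × Wd m D)) w ≠
          sg (D + 1) (em (D + 1) ((j', u') : Fin m × Wd m D)) w).card = 0 := by
        rw [Finset.card_eq_zero, Finset.filter_eq_empty_iff]
        intro w _ hw
        exact hw (h3 w)
      rw [h4, Nat.mul_zero] at h2
      have h5 : 0 < 2 * (m - 2) * m ^ (D + 1 - 1) :=
        Nat.mul_pos (by omega) (Nat.pow_pos (by omega))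
      omega

end TSN
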