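import Pool.Agent.TSN.LbDefs

/-!
Project TSN: the combinatorial gadget.  Words over `Fin m` of length `D` index both the terminals
and the lines; shorter words index the Steiner points.
-/

namespace TSN

/-- words of length `D` -/
def Wd (m : ℕ) : ℕ → Type
  | 0 => Unit
  | D + 1 => Fin m × Wd m D

/-- words of length at most `D` (vertices) -/
def Vt (m : ℕ) : ℕ → Type
  | 0 => Unit
  | D + 1 => Option (Fin m × Vt m D)

/-- edges -/
def Ed (m : ℕ) : ℕ → Type
  | 0 => Empty
  | D + 1 => Fin m ⊕ (Fin m × Ed m D)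

instance instFintypeWd (m : ℕ) : ∀ D, Fintype (Wd m D)
  | 0 => inferInstanceAs (Fintype Unit)
  | D + 1 => haveI := instFintypeWd m D; inferInstanceAs (Fintype (Fin m × Wd m D))

instance instFintypeVt (m : ℕ) : ∀ D, Fintype (Vt m D)
  | 0 => inferInstanceAs (Fintype Unit)
  | D + 1 => haveI := instFintypeVt m D; inferInstanceAs (Fintype (Option (Fin m × Vt m D)))

instance instFintypeEd (m : ℕ) : ∀ D, Fintype (Ed m D)
  | 0 => inferInstanceAs (Fintype Empty)
  | D + 1 => haveI := instFintypeEd m D; inferInstanceAs (Fintype (Fin m ⊕ (Fin m × Ed m D)))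

theorem nonempty_Wd {m : ℕ} (hm : 0 < m) : ∀ D, Nonempty (Wd m D)
  | 0 => ⟨()⟩
  | D + 1 => by
    obtain ⟨w⟩ := nonempty_Wd hm D
    exact ⟨((⟨0, hm⟩ : Fin m), w)⟩

/-- the sign of a letter: `true` only for the last one -/
def sl {m : ℕ} (j : Fin m) : Bool := decide (j.val + 1 = m)

/-- the sign table: `true` = the vertex is above the line -/
def sg {m : ℕ} : (D : ℕ) → Vt m D → Wd m D → Bool
  | 0, _, _ => true
  | _ + 1, none, w => !(sl w.1)
  | D + 1, some v, w => if v.1 = w.1 then (sl w.1 == sg D v.2 w.2) else !(sl w.1)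

/-- the terminals are vertices -/
def em {m : ℕ} : (D : ℕ) → Wd m D → Vt m D
  | 0, _ => ()
  | D + 1, w => some (w.1, em D w.2)

/-- the top vertex `m … m` (`0 < m`) -/
def tp {m : ℕ} (hm : 0 < m) : (D : ℕ) → Vt m D
  | 0 => ()
  | D + 1 => some (⟨m - 1, by omega⟩, tp hm D)

/-- the sources of the edges -/
def es {m : ℕ} : (D : ℕ) → Ed m D → Vt m D
  | 0, e => nomatch e
  | _ + 1, .inl _ => none
  | D + 1, .inr e => some (e.1, es D e.2)

/-- the targets of the edges -/
def et {m : ℕ} (hm : 0 < m) : (D : ℕ) → Ed m D → Vt m D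
  | 0, e => nomatch e
  | D + 1, .inl j => some (j, tp hm D)
  | D + 1, .inr e => some (e.1, et hm D e.2)

/-- the beginning of length `l` of a word -/
def pre {m : ℕ} : (D : ℕ) → ℕ → Wd m D → List (Fin m)
  | 0, _, _ => []
  | _ + 1, 0, _ => []
  | D + 1, l + 1, w => w.1 :: pre D l w.2

end TSN
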