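import Pool.Agent.TSN.GadDefs

/-!
Project TSN, module GadReal: the sign table is realised by points and lines of the plane.
Mathlib only.

PLAN.  Induction on `D`.  `D = 0`: the point `(0, 1)`, the line `y = 0`.
Step.  Base lines: for the letter `j` with `j.val + 1 < m` put `k = j.val + 1` and
`G j x = 2 k x - k²` (tangent of `y = x²` at `x = k`), base point `X j = k`; for the last letter
`G j x = m²` (slope 0), base point abscissa `X j = 0`.  `s j = 1` for the last letter, `-1` otherwise.
For `δ > 0` put
 line `(j, w)`:  `y = G j x + s j (δ a_w (x - X j) + δ² b_w)`  (slope `slope (G j) + s j δ a_w`),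
 vertex `some (j, v)`: `x = X j + δ ξ_v`, `y = G j x + s j δ² ζ_v`,
 vertex `none`: `(0, 1/2)`.
Signs: vertex `some (j, v)` against line `(j, w)`: `y - line = s j δ² (ζ_v - a_w ξ_v - b_w)`, sign
`s j * sg v w`, i.e. `(sl j == sg v w)`.
Vertex `some (j, v)` against line `(l, w)`, `l ≠ j`: as `δ → 0` the difference tends to
`G j (X j) - G l (X j)`, which is `> 0` if `l` is not the last letter (`j` not last:
`k² - (2 k' k - k'^2) = (k - k')² > 0`; `j` last, `X j = 0`: `m² + k'^2 > 0`) and `< 0` if `l` is the
last letter (`k² - m² < 0`): sign `!sl l`.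
Vertex `none` against line `(l, w)`: the limit is `1/2 - G l 0 = 1/2 + k² > 0`, or
`1/2 - m² < 0` for the last letter: sign `!sl l`.
Slopes: for different first letters the limits `2 k`, `0` are different; for the same first letter
the difference is `s j δ (a_w - a_w') ≠ 0`.
All the conditions are finitely many strict inequalities between continuous functions of `δ` which
hold at `δ = 0`, so they hold for all small `δ > 0`
(`Filter.Eventually`, `nhdsWithin 0 (Set.Ioi 0)`, `Filter.eventually_all` for finite types,
`(nhdsWithin 0 (Set.Ioi 0)).NeBot`), except those which hold for every `δ > 0`.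
-/

namespace TSN

private theorem grl_ev {f : ℝ → ℝ} (hf : Continuous f) (h : 0 < f 0) :
    ∀ᶠ δ in nhdsWithin (0 : ℝ) (Set.Ioi 0), 0 < f δ := by
  have h1 : ∀ᶠ δ in nhds (0 : ℝ), 0 < f δ := (hf.tendsto 0).eventually (lt_mem_nhds h)
  exact nhdsWithin_le_nhds h1

/-- slope of the base line -/
private noncomputable def grlA {m : ℕ} (j : Fin m) : ℝ :=
  if sl j = true then 0 else 2 * ((j.val : ℝ) + 1)

/-- intercept of the base line -/
private noncomputable def grlB {m : ℕ} (j : Fin m) : ℝ :=
  if sl j = true then (m : ℝ) ^ 2 else -((j.val : ℝ) + 1) ^ 2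

/-- base point -/
private noncomputable def grlX {m : ℕ} (j : Fin m) : ℝ :=
  if sl j = true then 0 else (j.val : ℝ) + 1

private noncomputable def grlS {m : ℕ} (j : Fin m) : ℝ := if sl j = true then 1 else -1

private theorem grl_sl {m : ℕ} {j : Fin m} (h : sl j = true) : j.val + 1 = m := by
  simpa [sl] using h

private theorem grl_sl' {m : ℕ} {j : Fin m} (h : ¬ sl j = true) : j.val + 1 < m := by
  have h1 : ¬ (j.val + 1 = m) := by simpa [sl] using h
  have := j.2
  omega

private theorem grl_A_inj {m : ℕ} {j l : Fin m} (h : j ≠ l) : grlA j ≠ grlA l := by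
  unfold grlA
  by_cases hj : sl j = true <;> by_cases hl : sl l = true
  · exfalso
    apply h
    have h1 := grl_sl hj
    have h2 := grl_sl hl
    exact Fin.ext (by omega)
  · simp only [hj, hl, if_true, if_false]
    have : (0 : ℝ) ≤ (l.val : ℝ) := by positivity
    intro h3
    simp at h3
    linarith
  · simp only [hj, hl, if_true, if_false]
    have : (0 : ℝ) ≤ (j.val : ℝ) := by positivity
    intro h3
    simp at h3
    linarith
  · simp only [hj, hl, if_false]
    intro h3
    simp at h3
    exact h (Fin.ext h3)

private theorem grl_base {m : ℕ} {j l : Fin m} (h : j ≠ l) :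
    (sl l = false → 0 < grlA j * grlX j + grlB j - (grlA l * grlX j + grlB l)) ∧
    (sl l = true → 0 < -(grlA j * grlX j + grlB j - (grlA l * grlX j + grlB l))) := by
  constructor
  · intro hl
    by_cases hj : sl j = true
    · have hm := grl_sl hj
      simp only [grlA, grlB, grlX, hj, hl, if_true, Bool.false_eq_true, if_false]
      have : (0 : ℝ) < (l.val : ℝ) + 1 := by positivity
      have h2 : (0 : ℝ) ≤ (m : ℝ) ^ 2 := by positivity
      nlinarith
    · simp only [grlA, grlB, grlX, hj, hl, Bool.false_eq_true, if_false]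
      have h1 : (j.val : ℝ) - l.val ≠ 0 := by
        intro h3
        apply h
        have h4 : (j.val : ℝ) = l.val := by linarith
        exact Fin.ext (by exact_mod_cast h4)
      have h2 : 0 < ((j.val : ℝ) - l.val) ^ 2 := by positivity
      nlinarith
  · intro hl
    by_cases hj : sl j = true
    · exfalso
      apply h
      have h1 := grl_sl hj
      have h2 := grl_sl hl
      exact Fin.ext (by omega)
    · have hm := grl_sl' hj
      simp only [grlA, grlB, grlX, hj, hl, if_true, Bool.false_eq_true, if_false]
      have h1 : ((j.val : ℝ) + 1) < m := by exact_mod_cast hm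
      have h0 : (0 : ℝ) < (j.val : ℝ) + 1 := by positivity
      nlinarith

private theorem grl_core {m : ℕ} (hm : 2 ≤ m) (l : Fin m) :
    (sl l = false → 0 < (1 / 2 : ℝ) - grlA l * 0 - grlB l) ∧
    (sl l = true → 0 < -((1 / 2 : ℝ) - grlA l * 0 - grlB l)) := by
  have hmR : (2 : ℝ) ≤ m := by exact_mod_cast hm
  constructor
  · intro hl
    simp only [grlB, hl, Bool.false_eq_true, if_false]
    nlinarith [sq_nonneg ((l.val : ℝ) + 1)]
  · intro hl
    simp only [grlB, hl, if_true]
    nlinarith

private noncomputable def grlPos {m D : ℕ} (pos : Vt m D → ℝ × ℝ) (δ : ℝ) :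
    Option (Fin m × Vt m D) → ℝ × ℝ
  | none => (0, 1 / 2)
  | some v => (grlX v.1 + δ * (pos v.2).1,
      grlA v.1 * (grlX v.1 + δ * (pos v.2).1) + grlB v.1 + grlS v.1 * (δ ^ 2 * (pos v.2).2))

private noncomputable def grlLa {m D : ℕ} (a : Wd m D → ℝ) (δ : ℝ) (w : Fin m × Wd m D) : ℝ :=
  grlA w.1 + grlS w.1 * (δ * a w.2)

private noncomputable def grlLb {m D : ℕ} (a b : Wd m D → ℝ) (δ : ℝ) (w : Fin m × Wd m D) : ℝ :=
  grlB w.1 + grlS w.1 * (δ ^ 2 * b w.2 - δ * a w.2 * grlX w.1)

private theorem grl_own {m D : ℕ} (pos : Vt m D → ℝ × ℝ) (a b : Wd m D → ℝ) (δ : ℝ) (j : Fin m)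
    (v : Vt m D) (w : Wd m D) :
    (grlPos pos δ (some (j, v))).2 - grlLa a δ (j, w) * (grlPos pos δ (some (j, v))).1
      - grlLb a b δ (j, w) = grlS j * (δ ^ 2 * ((pos v).2 - a w * (pos v).1 - b w)) := by
  simp only [grlPos, grlLa, grlLb]
  ring

private theorem grl_step {m : ℕ} (hm : 2 ≤ m) (D : ℕ) (pos : Vt m D → ℝ × ℝ)
    (a b : Wd m D → ℝ) (ha : Function.Injective a)
    (h : ∀ v w, (sg D v w = true → 0 < (pos v).2 - a w * (pos v).1 - b w) ∧
        (sg D v w = false → (pos v).2 - a w * (pos v).1 - b w < 0)) :
    ∃ (pos : Vt m (D + 1) → ℝ × ℝ) (a b : Wd m (D + 1) → ℝ), Function.Injective a ∧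
      ∀ v w, (sg (D + 1) v w = true → 0 < (pos v).2 - a w * (pos v).1 - b w) ∧
        (sg (D + 1) v w = false → (pos v).2 - a w * (pos v).1 - b w < 0) := by
  -- the eventual conditions
  have e1 : ∀ᶠ δ in nhdsWithin (0 : ℝ) (Set.Ioi 0), ∀ (j l : Fin m) (v : Vt m D) (w : Wd m D),
      j ≠ l →
      (sl l = false → 0 < (grlPos pos δ (some (j, v))).2
        - grlLa a δ (l, w) * (grlPos pos δ (some (j, v))).1 - grlLb a b δ (l, w)) ∧
      (sl l = true → 0 < -((grlPos pos δ (some (j, v))).2
        - grlLa a δ (l, w) * (grlPos pos δ (some (j, v))).1 - grlLb a b δ (l, w))) := by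
    rw [Filter.eventually_all]; intro j
    rw [Filter.eventually_all]; intro l
    rw [Filter.eventually_all]; intro v
    rw [Filter.eventually_all]; intro w
    by_cases hjl : j = l
    · exact Filter.Eventually.of_forall (fun δ h => absurd hjl h)
    have hb := grl_base hjl
    cases hsl : sl l with
    | false =>
      have h0 := hb.1 hsl
      have := grl_ev (f := fun δ => (grlPos pos δ (some (j, v))).2
        - grlLa a δ (l, w) * (grlPos pos δ (some (j, v))).1 - grlLb a b δ (l, w))
        (by simp only [grlPos, grlLa, grlLb]; fun_prop) (by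
          simp only [grlPos, grlLa, grlLb]
          nlinarith)
      filter_upwards [this] with δ hδ _
      exact ⟨fun _ => hδ, fun h => by simp at h⟩
    | true =>
      have h0 := hb.2 hsl
      have := grl_ev (f := fun δ => -((grlPos pos δ (some (j, v))).2
        - grlLa a δ (l, w) * (grlPos pos δ (some (j, v))).1 - grlLb a b δ (l, w)))
        (by simp only [grlPos, grlLa, grlLb]; fun_prop) (by
          simp only [grlPos, grlLa, grlLb]
          nlinarith)
      filter_upwards [this] with δ hδ _
      exact ⟨fun h => by simp at h, fun _ => hδ⟩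
  have e2 : ∀ᶠ δ in nhdsWithin (0 : ℝ) (Set.Ioi 0), ∀ (l : Fin m) (w : Wd m D),
      (sl l = false → 0 < (1 / 2 : ℝ) - grlLa a δ (l, w) * 0 - grlLb a b δ (l, w)) ∧
      (sl l = true → 0 < -((1 / 2 : ℝ) - grlLa a δ (l, w) * 0 - grlLb a b δ (l, w))) := by
    rw [Filter.eventually_all]; intro l
    rw [Filter.eventually_all]; intro w
    have hb := grl_core hm l
    cases hsl : sl l with
    | false =>
      have h0 := hb.1 hsl
      have := grl_ev (f := fun δ => (1 / 2 : ℝ) - grlLa a δ (l, w) * 0 - grlLb a b δ (l, w))
        (by simp only [grlLa, grlLb]; fun_prop) (by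
          simp only [grlLa, grlLb]
          nlinarith)
      filter_upwards [this] with δ hδ
      exact ⟨fun _ => hδ, fun h => by simp at h⟩
    | true =>
      have h0 := hb.2 hsl
      have := grl_ev (f := fun δ => -((1 / 2 : ℝ) - grlLa a δ (l, w) * 0 - grlLb a b δ (l, w)))
        (by simp only [grlLa, grlLb]; fun_prop) (by
          simp only [grlLa, grlLb]
          nlinarith)
      filter_upwards [this] with δ hδ
      exact ⟨fun h => by simp at h, fun _ => hδ⟩
  have e3 : ∀ᶠ δ in nhdsWithin (0 : ℝ) (Set.Ioi 0), ∀ (j l : Fin m) (w w' : Wd m D),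
      j ≠ l → 0 < (grlLa a δ (j, w) - grlLa a δ (l, w')) ^ 2 := by
    rw [Filter.eventually_all]; intro j
    rw [Filter.eventually_all]; intro l
    rw [Filter.eventually_all]; intro w
    rw [Filter.eventually_all]; intro w'
    by_cases hjl : j = l
    · exact Filter.Eventually.of_forall (fun δ h => absurd hjl h)
    have := grl_ev (f := fun δ => (grlLa a δ (j, w) - grlLa a δ (l, w')) ^ 2)
        (by simp only [grlLa]; fun_prop) (by
          have h1 : grlA j - grlA l ≠ 0 := sub_ne_zero.2 (grl_A_inj hjl)
          have h2 : grlLa a 0 (j, w) - grlLa a 0 (l, w') = grlA j - grlA l := by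
            simp [grlLa]
          simp only [h2]
          positivity)
    filter_upwards [this] with δ hδ _
    exact hδ
  have e4 : ∀ᶠ δ in nhdsWithin (0 : ℝ) (Set.Ioi 0), (0 : ℝ) < δ := self_mem_nhdsWithin
  obtain ⟨δ, h1, h2, h3, hδ⟩ := (e1.and (e2.and (e3.and e4))).exists
  have hS : ∀ j : Fin m, grlS j ≠ 0 := by
    intro j
    unfold grlS
    split_ifs <;> norm_num
  refine ⟨grlPos pos δ, grlLa a δ, grlLb a b δ, ?_, ?_⟩
  · rintro ⟨j, w⟩ ⟨l, w'⟩ heq
    by_cases hjl : j = l
    · subst hjl
      simp only [grlLa] at heq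
      have h5 : δ * a w = δ * a w' := mul_left_cancel₀ (hS j) (by linarith)
      have h6 : a w = a w' := mul_left_cancel₀ hδ.ne' h5
      rw [ha h6]
    · have := h3 j l w w' hjl
      rw [heq] at this
      simp at this
  · rintro v ⟨l, w⟩
    match v with
    | none =>
      have h5 := h2 l w
      show (sg (D + 1) none (l, w) = true → _) ∧ (sg (D + 1) none (l, w) = false → _)
      have hsg : sg (D + 1) (none : Vt m (D + 1)) ((l, w) : Wd m (D + 1)) = !(sl l) := rfl
      rw [hsg]
      cases hsl : sl l with
      | false =>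
        refine ⟨fun _ => h5.1 hsl, fun h => by simp at h⟩
      | true =>
        refine ⟨fun h => by simp at h, fun _ => ?_⟩
        have := h5.2 hsl
        have h6 : (1 / 2 : ℝ) - grlLa a δ (l, w) * 0 - grlLb a b δ (l, w) < 0 := by linarith
        exact h6
    | some (j, v) =>
      by_cases hjl : j = l
      · subst hjl
        have hsg : sg (D + 1) (some (j, v) : Vt m (D + 1)) ((j, w) : Wd m (D + 1)) =
            (sl j == sg D v w) := by
          show (if j = j then _ else _) = _
          rw [if_pos rfl]
        rw [hsg, grl_own]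
        have hvw := h v w
        have hd2 : 0 < δ ^ 2 := by positivity
        cases hsl : sl j with
        | false =>
          have hs1 : grlS j = -1 := by simp [grlS, hsl]
          rw [hs1]
          cases hs : sg D v w with
          | false =>
            refine ⟨fun _ => ?_, fun h => by simp at h⟩
            have := mul_neg_of_pos_of_neg hd2 (hvw.2 hs)
            linarith
          | true =>
            refine ⟨fun h => by simp at h, fun _ => ?_⟩
            have := mul_pos hd2 (hvw.1 hs)
            linarith
        | true =>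
          have hs1 : grlS j = 1 := by simp [grlS, hsl]
          rw [hs1]
          cases hs : sg D v w with
          | false =>
            refine ⟨fun h => by simp at h, fun _ => ?_⟩
            have := mul_neg_of_pos_of_neg hd2 (hvw.2 hs)
            linarith
          | true =>
            refine ⟨fun _ => ?_, fun h => by simp at h⟩
            have := mul_pos hd2 (hvw.1 hs)
            linarith
      · have hsg : sg (D + 1) (some (j, v) : Vt m (D + 1)) ((l, w) : Wd m (D + 1)) =
            !(sl l) := by
          show (if j = l then _ else _) = _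
          rw [if_neg hjl]
        rw [hsg]
        have h5 := h1 j l v w hjl
        cases hsl : sl l with
        | false =>
          refine ⟨fun _ => h5.1 hsl, fun h => by simp at h⟩
        | true =>
          refine ⟨fun h => by simp at h, fun _ => ?_⟩
          have := h5.2 hsl
          linarith

theorem real_gad {m : ℕ} (hm : 2 ≤ m) (D : ℕ) :
    ∃ (pos : Vt m D → ℝ × ℝ) (a b : Wd m D → ℝ), Function.Injective a ∧
      ∀ v w, (sg D v w = true → 0 < (pos v).2 - a w * (pos v).1 - b w) ∧
        (sg D v w = false → (pos v).2 - a w * (pos v).1 - b w < 0) := by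
  induction D with
  | zero =>
    refine ⟨fun _ => (0, 1), fun _ => 0, fun _ => 0, ?_, ?_⟩
    · intro x y _
      exact (Subsingleton.elim (α := Unit) x y)
    · intro v w
      refine ⟨fun _ => by norm_num, fun h => ?_⟩
      exact absurd h (by show ¬ (true = false); simp)
  | succ D ih =>
    obtain ⟨pos, a, b, ha, h⟩ := ih
    exact grl_step hm D pos a b ha h

end TSN
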