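import Pool.Agent.TSN.GadComb2
import Pool.Agent.TSN.GadReal

/-!
Project TSN, module GadMake: the gadget, assembled from the sign table and its realisation.
-/

namespace TSN

private noncomputable def gmkPos {m D : ℕ} (pos : Vt m D → ℝ × ℝ) (T : ℝ × ℝ) (B : ℝ) :
    Option (Vt m D) → ℝ × ℝ
  | none => (0, -B)
  | some v => ((pos v).1 - T.1, (pos v).2 - T.2)

private def gmkSrc {m D : ℕ} (hm : 0 < m) : Option (Ed m D) → Option (Vt m D)
  | none => some (tp hm D)
  | some e => some (es D e)

private def gmkTgt {m D : ℕ} (hm : 0 < m) : Option (Ed m D) → Option (Vt m D)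
  | none => none
  | some e => some (et hm D e)

private noncomputable def gmk {m D : ℕ} (hm : 0 < m) (pos : Vt m D → ℝ × ℝ) (a b : Wd m D → ℝ)
    (B : ℝ) : Gad (Option (Vt m D)) (Wd m D) (Option (Ed m D)) where
  pos := gmkPos pos (pos (tp hm D)) B
  a := a
  b := fun w => b w + a w * (pos (tp hm D)).1 - (pos (tp hm D)).2
  t := some (tp hm D)
  bt := none
  src := gmkSrc hm
  tgt := gmkTgt hm

private theorem gmk_h_some {m D : ℕ} (hm : 0 < m) (pos : Vt m D → ℝ × ℝ) (a b : Wd m D → ℝ)
    (B : ℝ) (v : Vt m D) (w : Wd m D) :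
    (gmk hm pos a b B).h (some v) w = (pos v).2 - a w * (pos v).1 - b w := by
  simp only [Gad.h, gmk, gmkPos]
  ring

private theorem gmk_h_none {m D : ℕ} (hm : 0 < m) (pos : Vt m D → ℝ × ℝ) (a b : Wd m D → ℝ)
    (B : ℝ) (w : Wd m D) :
    (gmk hm pos a b B).h none w =
      -B - (b w + a w * (pos (tp hm D)).1 - (pos (tp hm D)).2) := by
  simp only [Gad.h, gmk, gmkPos]
  ring

theorem exists_gad {m D : ℕ} (hm : 4 ≤ m) (hD : 1 ≤ D) :
    ∃ g : Gad (Option (Vt m D)) (Wd m D) (Option (Ed m D)), g.Good (D + 1) ∧
      g.Low (fun z : Wd m D => some (em D z)) m D (pre D) := by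
  classical
  obtain ⟨pos, a, b, ha, hs⟩ := real_gad (m := m) (by omega) D
  have hm0 : 0 < m := by omega
  obtain ⟨B, hB⟩ : ∃ B : ℝ, ∀ w : Wd m D,
      |b w + a w * (pos (tp hm0 D)).1 - (pos (tp hm0 D)).2| < B := by
    refine ⟨1 + ∑ w : Wd m D, |b w + a w * (pos (tp hm0 D)).1 - (pos (tp hm0 D)).2|,
      fun w => ?_⟩
    have h1 := Finset.single_le_sum (s := Finset.univ)
      (f := fun w : Wd m D => |b w + a w * (pos (tp hm0 D)).1 - (pos (tp hm0 D)).2|)
      (fun w _ => abs_nonneg _) (Finset.mem_univ w)
    have h2 : |b w + a w * (pos (tp hm0 D)).1 - (pos (tp hm0 D)).2| ≤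
      ∑ w : Wd m D, |b w + a w * (pos (tp hm0 D)).1 - (pos (tp hm0 D)).2| := h1
    linarith
  obtain ⟨g, hg⟩ : ∃ g, g = gmk hm0 pos a b B := ⟨_, rfl⟩
  have hsome : ∀ v w, g.h (some v) w = (pos v).2 - a w * (pos v).1 - b w := by
    intro v w
    rw [hg]
    exact gmk_h_some hm0 pos a b B v w
  have hnone : ∀ w, g.h none w < 0 := by
    intro w
    rw [hg, gmk_h_none]
    have h1 := hB w
    have h2 := neg_abs_le (b w + a w * (pos (tp hm0 D)).1 - (pos (tp hm0 D)).2)
    linarith
  have hpos : ∀ v w, sg D v w = true → 0 < g.h (some v) w := fun v w h => by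
    rw [hsome]
    exact (hs v w).1 h
  have hneg : ∀ v w, sg D v w = false → g.h (some v) w < 0 := fun v w h => by
    rw [hsome]
    exact (hs v w).2 h
  have hneg' : ∀ v w, g.h (some v) w < 0 ↔ sg D v w = false := by
    intro v w
    refine ⟨fun h => ?_, hneg v w⟩
    by_contra h1
    have h2 : sg D v w = true := by simpa using h1
    exact absurd (hpos v w h2) (not_lt.2 h.le)
  have hpair : ∀ v v' w, g.h (some v) w * g.h (some v') w < 0 ↔ sg D v w ≠ sg D v' w := by
    intro v v' w
    rcases hv : sg D v w with _ | _ <;> rcases hv' : sg D v' w with _ | _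
    · simp only [ne_eq, not_true_eq_false, iff_false, not_lt]
      exact (mul_pos_of_neg_of_neg (hneg v w hv) (hneg v' w hv')).le
    · simp only [ne_eq, Bool.false_eq_true, not_false_eq_true, iff_true]
      exact mul_neg_of_neg_of_pos (hneg v w hv) (hpos v' w hv')
    · simp only [ne_eq, Bool.true_eq_false, not_false_eq_true, iff_true]
      exact mul_neg_of_pos_of_neg (hpos v w hv) (hneg v' w hv')
    · simp only [ne_eq, not_true_eq_false, iff_false, not_lt]
      exact (mul_pos (hpos v w hv) (hpos v' w hv')).le
  have hgt : g.t = some (tp hm0 D) := by rw [hg]; rfl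
  have hgbt : g.bt = none := by rw [hg]; rfl
  have hsrcN : g.src none = some (tp hm0 D) := by rw [hg]; rfl
  have htgtN : g.tgt none = none := by rw [hg]; rfl
  have hsrcS : ∀ e, g.src (some e) = some (es D e) := fun e => by rw [hg]; rfl
  have htgtS : ∀ e, g.tgt (some e) = some (et hm0 D e) := fun e => by rw [hg]; rfl
  refine ⟨g, ?_, ?_⟩
  · refine
      { pos_t := ?_, h_ne := ?_, h_t := ?_, h_bt := ?_, a_inj := ?_, conn := ?_, two_le := ?_,
        cross := ?_ }
    · rw [hg]
      exact Prod.ext (sub_self _) (sub_self _)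
    · intro v w
      cases v with
      | none => exact (hnone w).ne
      | some v =>
        rcases hv : sg D v w with _ | _
        · exact (hneg v w hv).ne
        · exact (hpos v w hv).ne'
    · intro w
      rw [hgt]
      exact hpos _ w (sg_tp hm0 D w)
    · intro w
      rw [hgbt]
      exact hnone w
    · rw [hg]
      exact ha
    · have h1 : ∀ u v : Vt m D, Conn g.src g.tgt (some u) (some v) := by
        intro u v
        have h0 : Conn (es D) (et hm0 D) u v := conn_gad hm0 D u v
        induction h0 with
        | refl => exact Relation.ReflTransGen.refl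
        | tail _ h3 ih =>
          refine ih.trans (Relation.ReflTransGen.single ?_)
          obtain ⟨k, h | h⟩ := h3
          · exact ⟨some k, Or.inl ⟨by rw [hsrcS, h.1], by rw [htgtS, h.2]⟩⟩
          · exact ⟨some k, Or.inr ⟨by rw [hsrcS, h.1], by rw [htgtS, h.2]⟩⟩
      have h2 : Conn g.src g.tgt (some (tp hm0 D)) none := by
        have h3 := Conn.edge (src := g.src) (tgt := g.tgt) none
        rwa [hsrcN, htgtN] at h3
      intro u v
      cases u with
      | none =>
        cases v with
        | none => exact Relation.ReflTransGen.refl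
        | some v => exact h2.symm.trans (h1 _ _)
      | some u =>
        cases v with
        | none => exact (h1 _ _).trans h2
        | some v => exact h1 _ _
    · omega
    · intro w
      have h1 := cross_le hm0 D w
      have h2 : (Finset.univ.filter fun e => g.h (g.src e) w * g.h (g.tgt e) w < 0) ⊆
          insert none ((Finset.univ.filter fun e : Ed m D =>
            sg D (es D e) w ≠ sg D (et hm0 D e) w).image some) := by
        intro e he
        cases e with
        | none => exact Finset.mem_insert_self _ _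
        | some e =>
          refine Finset.mem_insert_of_mem (Finset.mem_image_of_mem _ ?_)
          rw [Finset.mem_filter] at he ⊢
          refine ⟨Finset.mem_univ _, ?_⟩
          have h3 := he.2
          rw [hsrcS, htgtS] at h3
          exact (hpair _ _ w).1 h3
      refine (Finset.card_le_card h2).trans ((Finset.card_insert_le _ _).trans ?_)
      exact Nat.add_le_add_right (Finset.card_image_le.trans h1) 1
  · refine { card_J := card_Wd m D, inj := ?_, card_π := ?_, low := ?_, hier := ?_ }
    · intro z z' h
      obtain ⟨w, hw⟩ := sep_of_ne hm D z z' h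
      exact ⟨w, (hpair _ _ w).2 hw⟩
    · intro l hl
      refine le_antisymm ?_ ?_
      · refine le_trans (Finset.card_le_card ?_) (card_pre (m := m) D l hm0 hl).le
        exact fun x hx => Finset.mem_image.2 (Finset.mem_image.1 hx)
      · refine le_trans (card_pre (m := m) D l hm0 hl).ge (Finset.card_le_card ?_)
        exact fun x hx => Finset.mem_image.2 (Finset.mem_image.1 hx)
    · intro z
      refine le_trans (Nat.mul_le_mul_left m (Finset.card_le_card ?_)) (low_gad hm0 D z)
      intro w hw
      rw [Finset.mem_filter] at hw ⊢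
      exact ⟨hw.1, (hneg' _ w).1 hw.2⟩
    · intro l _ hl z z' h
      refine (hier_gad hm D l hl z z' h).trans (Nat.mul_le_mul_left m (Finset.card_le_card ?_))
      intro w hw
      rw [Finset.mem_filter] at hw ⊢
      exact ⟨hw.1, (hpair _ _ w).2 hw.2⟩

end TSN
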