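import Pool.Agent.TSN.GeoC

/-!
Project TSN, module Geo: the configuration exists.
(The theorems of `GeoPar`, `GeoA`, `GeoB`, `GeoC` may be used; their proofs are other modules.)

PLAN.  Take `p : GeoPar g S` (`exists_par`), `P = geoP g p.ω`, `Y = geoY g p.ω`, `F = geoF g p.ω`,
`T = S + 3`, `δ n = 3 * ω n * A * (S + 3)`, `η n = 2 * ω n * A`.  Fields:
* congruences: `geoF_congr`.
* `P_x`, `P_y`: `geo_P`.  `P_t`, `Y_le`: `geo_root`, `hg.pos_t`.  `near`: the abscissas differ by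
  `ω n |ξ| ≤ ω n A`, the ordinates by `|slope| ω n A + ω n ^ 2 A` (`geo_bound`: slope `≤ 1/10`).
* `Y_gap`: `¬ Agree s w w'` forces `1 ≤ s`; `geo_order`:
  `(Y - Y')² ≥ Δ² ω (s-1)² / 9` and `1000 η s = 2000 A ω s ≤ 2000 A c ω (s-1)²`, `c_small`.
* `δ_lt`: `12 A T² c < 1` (`4 S + 9 ≤ 4 T`).  `F_le`: `geo_bound`.
* `tube`: `geo_tube`.
* `own`: `geo_own` (`hg.h_ne`: the height is positive or negative).
* `other`: `geo_other`, `geo_order` (the ordinates `Y` are different).
* `margin`: if `Agree s w w'` then `P s w' = P s w` and `geo_own`: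
  `(4 S + 9) δ n ≤ 12 A T² ω (s+1) ≤ 12 A T² c ω s ^ 2 < c₀ ω s ^ 2 / 2` (`ω n ≤ ω (s+1)`); otherwise
  `geo_other`: `12 A T² ω n ≤ 12 A T² ω s ≤ 12 A T² c ω (s-1)² < Δ ω (s-1) / 4`.
* `gap` (`n ≤ s`, `¬ Agree n w w'`, so `1 ≤ n`): `geo_order`, `|x - s| ≤ 1/4`:
  `Δ ω (n-1) / 2 > 12 A T² c ω (n-1)² ≥ (4 S + 10) δ n`.
-/

namespace TSN

variable {V J E : Type}

private theorem geol_small [Nonempty J] {g : Gad V J E} {S : ℕ} (p : GeoPar g S) (n : ℕ) :
    p.A * ((S : ℝ) + 3) ^ 2 * p.ω n ≤ 1 / 100000 ∧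
    p.A * ((S : ℝ) + 3) ^ 2 * p.ω (n + 1) ≤ p.Δ ^ 2 * p.c₀ * p.ω n ^ 2 / 100000 := by
  have hA := p.one_le_A
  have hcs := p.c_small
  have hS : (0 : ℝ) ≤ S := by positivity
  have hAT : 0 ≤ p.A * ((S : ℝ) + 3) ^ 2 := by positivity
  have hd2 : p.Δ ^ 2 ≤ 1 := by
    have h1 := p.Δ_pos
    have h2 := p.Δ_le
    nlinarith
  have hdc : p.Δ ^ 2 * p.c₀ ≤ 1 := by
    have h1 := p.c₀_pos
    have h2 := p.c₀_le
    have h3 : 0 ≤ p.Δ ^ 2 := by positivity
    nlinarith
  constructor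
  · have h1 := (p.ω_le n).1
    have h2 : p.A * ((S : ℝ) + 3) ^ 2 * p.ω n ≤ p.A * ((S : ℝ) + 3) ^ 2 * p.c :=
      mul_le_mul_of_nonneg_left h1 hAT
    nlinarith
  · have h1 := p.ω_succ n
    have h2 : p.A * ((S : ℝ) + 3) ^ 2 * p.ω (n + 1) ≤
        p.A * ((S : ℝ) + 3) ^ 2 * (p.c * p.ω n ^ 2) := mul_le_mul_of_nonneg_left h1 hAT
    have h3 : 0 ≤ p.ω n ^ 2 := by positivity
    have h4 : 100000 * p.A * ((S : ℝ) + 3) ^ 2 * p.c * p.ω n ^ 2 ≤
        p.Δ ^ 2 * p.c₀ * p.ω n ^ 2 := mul_le_mul_of_nonneg_right hcs h3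
    nlinarith

private theorem geol_coef [Nonempty J] {g : Gad V J E} {S : ℕ} (p : GeoPar g S) (n : ℕ) :
    (4 * (S : ℝ) + 9) * (3 * p.ω n * p.A * (S + 3)) ≤
      12 * (p.A * ((S : ℝ) + 3) ^ 2 * p.ω n) ∧
    (4 * (S : ℝ) + 10) * (3 * p.ω n * p.A * (S + 3)) ≤
      12 * (p.A * ((S : ℝ) + 3) ^ 2 * p.ω n) := by
  have hA := p.one_le_A
  have hw := p.ω_pos n
  have hS : (0 : ℝ) ≤ S := by positivity
  have h1 : 0 ≤ 3 * p.ω n * p.A * ((S : ℝ) + 3) := by positivity
  constructor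
  · have h2 : (4 * (S : ℝ) + 9) * (3 * p.ω n * p.A * (S + 3)) ≤
        (4 * ((S : ℝ) + 3)) * (3 * p.ω n * p.A * (S + 3)) :=
      mul_le_mul_of_nonneg_right (by linarith) h1
    nlinarith
  · have h2 : (4 * (S : ℝ) + 10) * (3 * p.ω n * p.A * (S + 3)) ≤
        (4 * ((S : ℝ) + 3)) * (3 * p.ω n * p.A * (S + 3)) :=
      mul_le_mul_of_nonneg_right (by linarith) h1
    nlinarith

private theorem geol_one_le {n : ℕ} {w w' : ℕ → J} (h : ¬ Agree n w w') : 1 ≤ n := by
  by_contra h0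
  apply h
  intro i hi
  omega

theorem exists_conf [Fintype V] [Fintype J] [Fintype E] [Nonempty J] (g : Gad V J E) {κ : ℕ}
    (hg : g.Good κ) (S : ℕ) : Nonempty (Conf g S) := by
  obtain ⟨p⟩ := exists_par g hg S
  have hA := p.one_le_A
  have hSR : (0 : ℝ) ≤ S := by positivity
  have hΔ := p.Δ_pos
  have hΔ1 := p.Δ_le
  have hc0 := p.c₀_pos
  have hc01 := p.c₀_le
  have hdc : p.Δ ^ 2 * p.c₀ ≤ p.c₀ := by
    have : p.Δ ^ 2 ≤ 1 := by nlinarith
    nlinarith
  have hdd : p.Δ ^ 2 * p.c₀ ≤ p.Δ := by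
    have h1 : p.Δ ^ 2 ≤ p.Δ := by nlinarith
    have h2 : 0 ≤ p.Δ ^ 2 := by positivity
    nlinarith
  have hδn : ∀ n, 0 ≤ 3 * p.ω n * p.A * ((S : ℝ) + 3) := by
    intro n
    have := p.ω_pos n
    positivity
  have hmono : ∀ {a b : ℕ}, a ≤ b → p.A * ((S : ℝ) + 3) ^ 2 * p.ω b ≤
      p.A * ((S : ℝ) + 3) ^ 2 * p.ω a := by
    intro a b hab
    exact mul_le_mul_of_nonneg_left (p.ω_anti hab) (by positivity)
  have hsucc : ∀ n, 1 ≤ n → p.A * ((S : ℝ) + 3) ^ 2 * p.ω n ≤
      p.Δ ^ 2 * p.c₀ * p.ω (n - 1) ^ 2 / 100000 := by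
    intro n hn
    have := (geol_small p (n - 1)).2
    rwa [Nat.sub_add_cancel hn] at this
  have hω1 : ∀ n, p.ω n ≤ 1 := fun n => by
    have := p.ω_le n
    linarith [this.1, this.2.2]
  have hωsq : ∀ n, p.ω n ^ 2 ≤ p.ω n := fun n => by
    have h1 := hω1 n
    have h2 := p.ω_pos n
    nlinarith
  refine ⟨⟨geoP g p.ω, geoY g p.ω, geoF g p.ω, fun n => 3 * p.ω n * p.A * (S + 3),
    fun n => 2 * p.ω n * p.A, ?_, ?_, ?_, ?_, ?_, ?_, ?_, ?_, ?_, ?_, ?_, ?_, ?_, ?_, ?_, ?_,
    ?_⟩⟩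
  · -- P_congr
    intro s w w' h
    funext v
    unfold geoP geoY
    rw [geoF_congr g p.ω s w w' h]
  · intro s w w' h
    unfold geoY
    rw [geoF_congr g p.ω s w w' h]
  · intro s w w' h
    exact geoF_congr g p.ω s w w' h
  · -- P_x
    intro s hs w v
    have := (geo_P p hs w v).1
    linarith
  · intro s hs w v
    have := (geo_P p hs w v).2
    linarith
  · -- P_t
    intro s hs w
    have h1 := (geo_root p hs.le w).2
    have h2 := hg.pos_t
    unfold geoP
    rw [h2]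
    simp only [mul_zero, add_zero]
    rw [← h1]
  · intro s hs w
    have := (geo_root p hs.le w).1
    linarith
  · -- near
    intro s hs w v
    have h2 := hg.pos_t
    have hp := p.pos_le v
    have hb := geo_bound p (n := s) hs.le w (x := 0) (by norm_num) (by positivity)
    have hw := p.ω_pos s
    have hwA : 0 ≤ p.ω s * p.A := by positivity
    have hx := abs_le.1 hp.1
    have hy := abs_le.1 hp.2
    have hsl := abs_le.1 hb.2
    have ex : (geoP g p.ω s w v).1 - (geoP g p.ω s w g.t).1 = p.ω s * (g.pos v).1 := by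
      unfold geoP
      rw [h2]
      simp
    have ey : (geoP g p.ω s w v).2 - (geoP g p.ω s w g.t).2 =
        (geoF g p.ω s w).1 * (p.ω s * (g.pos v).1) + p.ω s ^ 2 * (g.pos v).2 := by
      unfold geoP aff
      rw [h2]
      ring
    have b1 : |p.ω s * (g.pos v).1| ≤ p.ω s * p.A := by
      rw [abs_mul, abs_of_pos hw]
      exact mul_le_mul_of_nonneg_left hp.1 hw.le
    have b2 : |p.ω s ^ 2 * (g.pos v).2| ≤ p.ω s * p.A := by
      rw [abs_mul, abs_of_nonneg (by positivity : 0 ≤ p.ω s ^ 2)]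
      exact mul_le_mul (hωsq s) hp.2 (abs_nonneg _) hw.le
    constructor
    · rw [ex]
      have : p.ω s * p.A ≤ 2 * p.ω s * p.A := by linarith
      exact le_trans b1 this
    · rw [ey]
      have b3 : |(geoF g p.ω s w).1 * (p.ω s * (g.pos v).1)| ≤ 1 / 10 * (p.ω s * p.A) := by
        rw [abs_mul]
        exact mul_le_mul hb.2 b1 (abs_nonneg _) (by norm_num)
      calc _ ≤ |(geoF g p.ω s w).1 * (p.ω s * (g.pos v).1)| + |p.ω s ^ 2 * (g.pos v).2| :=
            abs_add_le _ _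
        _ ≤ 2 * p.ω s * p.A := by linarith
  · -- Y_gap
    intro s hs w w' hag
    have h1 : 1 ≤ s := geol_one_le hag
    have hw := p.ω_pos (s - 1)
    have hpos : 0 < p.Δ * p.ω (s - 1) / 3 := by positivity
    have hsq : ∀ x : ℝ, p.Δ * p.ω (s - 1) / 3 ≤ x →
        1000 * (2 * p.ω s * p.A) ≤ x ^ 2 := by
      intro x hx
      have h2 : (p.Δ * p.ω (s - 1) / 3) ^ 2 ≤ x ^ 2 := by
        apply pow_le_pow_left₀ hpos.le hx
      have h3 := hsucc s h1
      have h4 : p.A * p.ω s ≤ p.A * ((S : ℝ) + 3) ^ 2 * p.ω s := by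
        have h5 : 1 ≤ ((S : ℝ) + 3) ^ 2 := by nlinarith
        have h6 : 0 ≤ p.A * p.ω s := by
          have := p.ω_pos s
          positivity
        nlinarith
      have h7 : p.Δ ^ 2 * p.c₀ * p.ω (s - 1) ^ 2 ≤ p.Δ ^ 2 * p.ω (s - 1) ^ 2 := by
        have : 0 ≤ p.Δ ^ 2 * p.ω (s - 1) ^ 2 := by positivity
        nlinarith
      have h8 : (p.Δ * p.ω (s - 1) / 3) ^ 2 = p.Δ ^ 2 * p.ω (s - 1) ^ 2 / 9 := by ring
      rw [h8] at h2
      have h9 : 0 ≤ p.Δ ^ 2 * p.ω (s - 1) ^ 2 := by positivity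
      nlinarith
    rcases geo_order p h1 hs.le hag with ⟨h, -⟩ | ⟨h, -⟩
    · refine ⟨fun h0 => ?_, hsq _ h⟩
      rw [h0, sub_self] at h
      linarith
    · refine ⟨fun h0 => ?_, ?_⟩
      · rw [h0, sub_self] at h
        linarith
      · have := hsq _ h
        have e : (geoY g p.ω s w' - geoY g p.ω s w) ^ 2 =
            (geoY g p.ω s w - geoY g p.ω s w') ^ 2 := by ring
        rw [e] at this
        exact this
  · exact hδn
  · -- δ_lt
    intro n hn
    have h1 := (geol_coef p n).1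
    have h2 := (geol_small p n).1
    linarith
  · -- F_le
    intro n hn w x h1 h2
    have := (geo_bound p hn w h1 h2).1
    linarith
  · -- margin
    intro n hn s hs w w' v
    have h1 := (geol_coef p n).1
    by_cases hag : Agree s w w'
    · have e : geoP g p.ω s w' = geoP g p.ω s w := by
        funext v
        unfold geoP geoY
        rw [geoF_congr g p.ω s w w' hag]
      rw [e]
      have h2 := geo_own p hs hn w v
      have h3 := (geol_small p s).2
      have h4 := hmono (show s + 1 ≤ n from hs)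
      have hw := p.ω_pos s
      have hw2 : 0 < p.ω s ^ 2 := by positivity
      have h5 : (4 * (S : ℝ) + 9) * (3 * p.ω n * p.A * (S + 3)) < p.c₀ * p.ω s ^ 2 / 2 := by
        have h6 : p.Δ ^ 2 * p.c₀ * p.ω s ^ 2 ≤ p.c₀ * p.ω s ^ 2 :=
          mul_le_mul_of_nonneg_right hdc hw2.le
        have h7 : 0 < p.c₀ * p.ω s ^ 2 := by positivity
        linarith
      rcases lt_or_gt_of_ne (hg.h_ne v (w s)) with h | h
      · have := h2.2 h
        rw [abs_of_nonpos (by linarith [show (0:ℝ) ≤ p.c₀ * p.ω s ^ 2 / 2 by positivity])]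
        linarith
      · have := h2.1 h
        have h8 := le_abs_self ((geoP g p.ω s w v).2 - aff (geoF g p.ω n w) (geoP g p.ω s w v).1)
        linarith
    · obtain ⟨h1s, h2, h3⟩ := geo_other p hs hn hag v
      have h4 := hsucc s h1s
      have h5 := hmono (le_of_lt hs)
      have hw := p.ω_pos (s - 1)
      have hw2 := hωsq (s - 1)
      have h6 : (4 * (S : ℝ) + 9) * (3 * p.ω n * p.A * (S + 3)) <
          p.Δ * p.ω (s - 1) / 4 := by
        have h7 : p.Δ ^ 2 * p.c₀ * p.ω (s - 1) ^ 2 ≤ p.Δ * p.ω (s - 1) :=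
          mul_le_mul hdd hw2 (by positivity) hΔ.le
        have h8 : 0 < p.Δ * p.ω (s - 1) := by positivity
        linarith
      have hpos : 0 < p.Δ * p.ω (s - 1) / 4 := by positivity
      have hne : geoY g p.ω s w ≠ geoY g p.ω s w' := by
        intro h0
        have hp3 : 0 < p.Δ * p.ω (s - 1) / 3 := by positivity
        rcases geo_order p h1s (le_trans hs.le hn) hag with ⟨h, -⟩ | ⟨h, -⟩
        · rw [h0, sub_self] at h
          linarith
        · rw [h0, sub_self] at h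
          linarith
      rcases lt_or_gt_of_ne hne with h | h
      · have := h2 h
        have h8 := le_abs_self ((geoP g p.ω s w' v).2 -
          aff (geoF g p.ω n w) (geoP g p.ω s w' v).1)
        linarith
      · have := h3 h
        rw [abs_of_nonpos (by linarith)]
        linarith
  · -- tube
    intro n s hn hs w v
    exact geo_tube p hn hs w v
  · -- gap
    intro n s hn hs w w' hag x hx
    have h1 : 1 ≤ n := geol_one_le hag
    have hxx := abs_le.1 hx
    have hnsR : (n : ℝ) ≤ s := by exact_mod_cast hn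
    have hsSR : (s : ℝ) + 1 ≤ S := by exact_mod_cast hs
    have h2 := (geol_coef p n).2
    have h4 := hsucc n h1
    have hw := p.ω_pos (n - 1)
    have hw2 := hωsq (n - 1)
    have h6 : (4 * (S : ℝ) + 10) * (3 * p.ω n * p.A * (S + 3)) <
        p.Δ * p.ω (n - 1) / 2 := by
      have h7 : p.Δ ^ 2 * p.c₀ * p.ω (n - 1) ^ 2 ≤ p.Δ * p.ω (n - 1) :=
        mul_le_mul hdd hw2 (by positivity) hΔ.le
      have h8 : 0 < p.Δ * p.ω (n - 1) := by positivity
      linarith
    rcases geo_order p h1 (le_trans hn hs.le) hag with ⟨-, h⟩ | ⟨-, h⟩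
    · have := h x (by linarith [hxx.1]) (by linarith [hxx.2])
      have h8 := le_abs_self (aff (geoF g p.ω n w) x - aff (geoF g p.ω n w') x)
      linarith
    · have := h x (by linarith [hxx.1]) (by linarith [hxx.2])
      have h8 := neg_le_abs (aff (geoF g p.ω n w) x - aff (geoF g p.ω n w') x)
      linarith
  · -- own
    intro n hn s hs w v
    have h2 := geo_own p hs hn w v
    have hw := p.ω_pos s
    have hpos : 0 < p.c₀ * p.ω s ^ 2 / 2 := by positivity
    constructor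
    · intro h
      rcases lt_or_gt_of_ne (hg.h_ne v (w s)) with h3 | h3
      · have := h2.2 h3
        linarith
      · exact h3
    · intro h
      have := h2.1 h
      linarith
  · -- other
    intro n hn s hs w w' v hag
    obtain ⟨h1s, h2, h3⟩ := geo_other p hs hn hag v
    have hw := p.ω_pos (s - 1)
    have hpos : 0 < p.Δ * p.ω (s - 1) / 4 := by positivity
    have hne : geoY g p.ω s w ≠ geoY g p.ω s w' := by
      intro h0
      have hp3 : 0 < p.Δ * p.ω (s - 1) / 3 := by positivity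
      rcases geo_order p h1s (le_trans hs.le hn) hag with ⟨h, -⟩ | ⟨h, -⟩
      · rw [h0, sub_self] at h
        linarith
      · rw [h0, sub_self] at h
        linarith
    constructor
    · intro h
      rcases lt_or_gt_of_ne hne with h4 | h4
      · exact h4
      · have := h3 h4
        linarith
    · intro h
      have := h2 h
      linarith

end TSN
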