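import Pool.Agent.TSN.GeoPar

/-!
Project TSN, module GeoA: bounds for the planned lines.
(The theorems of `GeoPar` may be used; their proofs are another module.)

Write `F n w x = aff (geoF g p.ω n w) x`, `T = S + 3`, `x_n = n + Y²/100`, `Y = geoY g p.ω n w`.

PLAN.  `geo_step_eq` is a computation:
`F (n+1) w x = F n w x + ω n * a (w n) * (x - x_n) + ω n ^ 2 * b (w n)`.
`geo_all`: by induction on `n ≤ S`: `|F n w x| ≤ 2 T A (ω 0) - …`; simplest: prove together by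
induction on `n` that `|F n w x| ≤ A T ∑_{i<n} ω i` on `[-1, S+1]` and
`|(geoF n w).1| ≤ A ∑_{i<n} ω i`; then `∑ ≤ 2 ω 0 ≤ 2 c` and `100000 A T² c ≤ 1` give the bounds
`1/10`.  `root` is then defined (intermediate value theorem for
`y ↦ y - aff AB (n + y²/100)` on `[-1, 1]`, where `|aff AB (n + y²/100)| ≤ 1/10`), so that `geo_root`
holds (`Exists.choose_spec`), and `|x_n - n| ≤ 1/100`, so that `|x - x_n| ≤ S + 2`.
`geo_step`: from `geo_step_eq`: `ω A (S+2) + ω² A ≤ ω A T`.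
`geo_drift`: sum of `geo_step`, `ω_sum`.
`geoF_congr`: induction.
-/

namespace TSN

variable {V J E : Type}

theorem geoF_congr (g : Gad V J E) (ω : ℕ → ℝ) (n : ℕ) (w w' : ℕ → J) (h : Agree n w w') :
    geoF g ω n w = geoF g ω n w' := by
  induction n with
  | zero => rfl
  | succ n ih =>
    have h1 := ih fun i hi => h i (by omega)
    have h2 : w n = w' n := h n (by omega)
    simp only [geoF]
    rw [h1, h2]

theorem geo_step_eq (g : Gad V J E) (ω : ℕ → ℝ) (n : ℕ) (w : ℕ → J) (x : ℝ) :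
    aff (geoF g ω (n + 1) w) x = aff (geoF g ω n w) x
      + ω n * g.a (w n) * (x - ((n : ℝ) + geoY g ω n w ^ 2 / 100)) + ω n ^ 2 * g.b (w n) := by
  simp only [aff, geoF, geoY]
  ring

private theorem ga_root {AB : ℝ × ℝ} {n S : ℕ} (hn : n ≤ S)
    (hb : ∀ x : ℝ, -1 ≤ x → x ≤ S + 1 → |aff AB x| ≤ 1 / 10) :
    |root n AB| ≤ 1 / 10 ∧ root n AB = aff AB ((n : ℝ) + root n AB ^ 2 / 100) := by
  have hnS : (n : ℝ) ≤ S := by exact_mod_cast hn
  have hn0 : (0 : ℝ) ≤ n := Nat.cast_nonneg n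
  have hb' : ∀ y : ℝ, |y| ≤ 1 → |aff AB ((n : ℝ) + y ^ 2 / 100)| ≤ 1 / 10 := by
    intro y hy
    have h1 : y ^ 2 ≤ 1 := by
      rw [← sq_abs]
      nlinarith [abs_nonneg y]
    have h2 : 0 ≤ y ^ 2 := sq_nonneg y
    exact hb _ (by linarith) (by linarith)
  have hex : ∃ y : ℝ, |y| ≤ 1 ∧ y = aff AB ((n : ℝ) + y ^ 2 / 100) := by
    have hc : ContinuousOn (fun y : ℝ => y - aff AB ((n : ℝ) + y ^ 2 / 100)) (Set.Icc (-1) 1) := by
      apply Continuous.continuousOn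
      unfold aff
      fun_prop
    have h1 := abs_le.1 (hb' (-1) (by norm_num))
    have h2 := abs_le.1 (hb' 1 (by norm_num))
    have h3 : (0 : ℝ) ∈ Set.Icc ((-1 : ℝ) - aff AB ((n : ℝ) + (-1) ^ 2 / 100))
        (1 - aff AB ((n : ℝ) + 1 ^ 2 / 100)) := by
      constructor
      · linarith [h1.1]
      · linarith [h2.2]
    obtain ⟨y, hy, hy0⟩ := intermediate_value_Icc (by norm_num : (-1 : ℝ) ≤ 1) hc h3
    refine ⟨y, abs_le.2 ⟨hy.1, hy.2⟩, ?_⟩
    have h4 : y - aff AB ((n : ℝ) + y ^ 2 / 100) = 0 := hy0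
    linarith
  have hr : root n AB = hex.choose := by
    unfold root
    exact dif_pos hex
  obtain ⟨h1, h2⟩ := hex.choose_spec
  rw [← hr] at h1 h2
  refine ⟨?_, h2⟩
  have h3 := hb' _ h1
  rw [← h2] at h3
  exact h3

private theorem ga_num [Nonempty J] {g : Gad V J E} {S : ℕ} (p : GeoPar g S) :
    p.A * (S + 3) * (2 * p.c) ≤ 1 / 10 ∧ p.A * (2 * p.c) ≤ 1 / 10 ∧ ∀ n, p.ω n ≤ 1 := by
  have hA := p.one_le_A
  have hc := p.c_pos
  have h1 : p.Δ ^ 2 * p.c₀ ≤ 1 := by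
    have h2 : p.Δ ^ 2 ≤ 1 := by nlinarith [p.Δ_pos, p.Δ_le]
    nlinarith [p.c₀_pos, p.c₀_le, sq_nonneg p.Δ]
  have h2 := p.c_small
  have hT : (1 : ℝ) ≤ (S : ℝ) + 3 := by
    have : (0 : ℝ) ≤ S := Nat.cast_nonneg S
    linarith
  have hAc : 0 < p.A * p.c := by positivity
  have h3 : p.A * p.c * ((S : ℝ) + 3) ^ 2 * 100000 ≤ 1 := by nlinarith
  have h4 : p.A * p.c * ((S : ℝ) + 3) ≤ p.A * p.c * ((S : ℝ) + 3) ^ 2 := by
    apply mul_le_mul_of_nonneg_left _ hAc.le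
    nlinarith
  have h5 : p.A * p.c ≤ p.A * p.c * ((S : ℝ) + 3) := by nlinarith
  refine ⟨by nlinarith, by nlinarith, fun n => ?_⟩
  obtain ⟨h6, _, h7⟩ := p.ω_le n
  have : (1 : ℝ) / 100000 ≤ 1 := by norm_num
  linarith

private theorem ga_step [Nonempty J] {g : Gad V J E} {S : ℕ} (p : GeoPar g S) {n : ℕ} (hn : n ≤ S)
    (w : ℕ → J) (hY : |geoY g p.ω n w| ≤ 1 / 10) {x : ℝ} (h1 : -1 ≤ x) (h2 : x ≤ S + 1) :
    |aff (geoF g p.ω (n + 1) w) x - aff (geoF g p.ω n w) x| ≤ p.A * (S + 3) * p.ω n := by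
  rw [geo_step_eq]
  have hnS : (n : ℝ) ≤ S := by exact_mod_cast hn
  have hn0 : (0 : ℝ) ≤ n := Nat.cast_nonneg n
  have hω := p.ω_pos n
  have hω1 := (ga_num p).2.2 n
  have hA := p.one_le_A
  obtain ⟨ha, hb⟩ := p.ab_le (w n)
  have hy : geoY g p.ω n w ^ 2 ≤ 1 := by
    rw [← sq_abs]
    nlinarith [abs_nonneg (geoY g p.ω n w)]
  have hy0 : 0 ≤ geoY g p.ω n w ^ 2 := sq_nonneg _
  have hx : |x - ((n : ℝ) + geoY g p.ω n w ^ 2 / 100)| ≤ (S : ℝ) + 2 := by
    rw [abs_le]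
    constructor <;> linarith
  have e1 : |p.ω n * g.a (w n) * (x - ((n : ℝ) + geoY g p.ω n w ^ 2 / 100))| ≤
      p.ω n * p.A * (S + 2) := by
    rw [abs_mul, abs_mul, abs_of_pos hω]
    apply mul_le_mul (mul_le_mul_of_nonneg_left ha hω.le) hx (abs_nonneg _) (by positivity)
  have e2 : |p.ω n ^ 2 * g.b (w n)| ≤ p.ω n * p.A := by
    rw [abs_mul, abs_of_nonneg (by positivity)]
    apply mul_le_mul _ hb (abs_nonneg _) hω.le
    nlinarith
  have e3 : aff (geoF g p.ω n w) x + p.ω n * g.a (w n) * (x - ((n : ℝ) + geoY g p.ω n w ^ 2 / 100)) +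
      p.ω n ^ 2 * g.b (w n) - aff (geoF g p.ω n w) x =
      p.ω n * g.a (w n) * (x - ((n : ℝ) + geoY g p.ω n w ^ 2 / 100)) + p.ω n ^ 2 * g.b (w n) := by
    ring
  rw [e3]
  refine (abs_add_le _ _).trans ?_
  nlinarith

private theorem ga_all [Nonempty J] {g : Gad V J E} {S : ℕ} (p : GeoPar g S) (n : ℕ) (hn : n ≤ S)
    (w : ℕ → J) :
    |(geoF g p.ω n w).1| ≤ p.A * ∑ i ∈ Finset.range n, p.ω i ∧
      ∀ x : ℝ, -1 ≤ x → x ≤ S + 1 →
        |aff (geoF g p.ω n w) x| ≤ p.A * (S + 3) * ∑ i ∈ Finset.range n, p.ω i := by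
  have hS : ∀ n, ∑ i ∈ Finset.range n, p.ω i ≤ 2 * p.c := by
    intro n
    have h1 := p.ω_sum 0 n
    have h2 := p.ω_zero
    simp only [zero_add] at h1
    linarith
  have hA := p.one_le_A
  have hS0 : (0 : ℝ) ≤ S := Nat.cast_nonneg S
  induction n with
  | zero =>
    refine ⟨?_, fun x _ _ => ?_⟩
    · simp [geoF]
    · simp [geoF, aff]
  | succ n ih =>
    obtain ⟨h1, h2⟩ := ih (by omega)
    have hroot : |geoY g p.ω n w| ≤ 1 / 10 := by
      refine (ga_root (by omega : n ≤ S) fun x hx1 hx2 => ?_).1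
      refine (h2 x hx1 hx2).trans (le_trans ?_ (ga_num p).1)
      exact mul_le_mul_of_nonneg_left (hS n) (by positivity)
    constructor
    · rw [Finset.sum_range_succ, mul_add]
      have h3 : (geoF g p.ω (n + 1) w).1 = (geoF g p.ω n w).1 + p.ω n * g.a (w n) := rfl
      rw [h3]
      refine (abs_add_le _ _).trans (add_le_add h1 ?_)
      rw [abs_mul, abs_of_pos (p.ω_pos n), mul_comm]
      exact mul_le_mul_of_nonneg_right (p.ab_le _).1 (p.ω_pos n).le
    · intro x hx1 hx2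
      rw [Finset.sum_range_succ, mul_add]
      have h3 := ga_step p (by omega : n ≤ S) w hroot hx1 hx2
      have h4 := h2 x hx1 hx2
      have h5 : aff (geoF g p.ω (n + 1) w) x = aff (geoF g p.ω n w) x +
          (aff (geoF g p.ω (n + 1) w) x - aff (geoF g p.ω n w) x) := by ring
      rw [h5]
      exact (abs_add_le _ _).trans (add_le_add h4 h3)

theorem geo_bound [Nonempty J] {g : Gad V J E} {S : ℕ} (p : GeoPar g S) {n : ℕ} (hn : n ≤ S)
    (w : ℕ → J) {x : ℝ} (h1 : -1 ≤ x) (h2 : x ≤ S + 1) :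
    |aff (geoF g p.ω n w) x| ≤ 1 / 10 ∧ |(geoF g p.ω n w).1| ≤ 1 / 10 := by
  obtain ⟨h3, h4⟩ := ga_all p n hn w
  have hS : ∑ i ∈ Finset.range n, p.ω i ≤ 2 * p.c := by
    have h1 := p.ω_sum 0 n
    have h2 := p.ω_zero
    simp only [zero_add] at h1
    linarith
  have hA := p.one_le_A
  have hS0 : (0 : ℝ) ≤ S := Nat.cast_nonneg S
  obtain ⟨h5, h6, _⟩ := ga_num p
  constructor
  · exact (h4 x h1 h2).trans ((mul_le_mul_of_nonneg_left hS (by positivity)).trans h5)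
  · exact h3.trans ((mul_le_mul_of_nonneg_left hS (by positivity)).trans h6)

theorem geo_root [Nonempty J] {g : Gad V J E} {S : ℕ} (p : GeoPar g S) {n : ℕ} (hn : n ≤ S)
    (w : ℕ → J) : |geoY g p.ω n w| ≤ 1 / 10 ∧
      geoY g p.ω n w = aff (geoF g p.ω n w) ((n : ℝ) + geoY g p.ω n w ^ 2 / 100) :=
  ga_root hn fun _ h1 h2 => (geo_bound p hn w h1 h2).1

theorem geo_drift [Nonempty J] {g : Gad V J E} {S : ℕ} (p : GeoPar g S) {n n' : ℕ}
    (h : n ≤ n') (hn : n' ≤ S) (w : ℕ → J) {x : ℝ} (h1 : -1 ≤ x) (h2 : x ≤ S + 1) :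
    |aff (geoF g p.ω n' w) x - aff (geoF g p.ω n w) x| ≤ 2 * p.ω n * p.A * (S + 3) := by
  obtain ⟨k, rfl⟩ := Nat.exists_eq_add_of_le h
  have hA := p.one_le_A
  have hS0 : (0 : ℝ) ≤ S := Nat.cast_nonneg S
  have key : ∀ k, n + k ≤ S → |aff (geoF g p.ω (n + k) w) x - aff (geoF g p.ω n w) x| ≤
      p.A * (S + 3) * ∑ i ∈ Finset.range k, p.ω (n + i) := by
    intro k
    induction k with
    | zero =>
      intro _
      simp
    | succ k ih =>
      intro hk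
      have h3 := ih (by omega)
      have h4 := ga_step p (by omega : n + k ≤ S) w (geo_root p (by omega : n + k ≤ S) w).1 h1 h2
      rw [Finset.sum_range_succ, mul_add]
      have h5 : aff (geoF g p.ω (n + (k + 1)) w) x - aff (geoF g p.ω n w) x =
          (aff (geoF g p.ω (n + k) w) x - aff (geoF g p.ω n w) x) +
          (aff (geoF g p.ω (n + k + 1) w) x - aff (geoF g p.ω (n + k) w) x) := by
        rw [← Nat.add_assoc]
        ring
      rw [h5]
      exact (abs_add_le _ _).trans (add_le_add h3 h4)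
  refine (key k hn).trans ((mul_le_mul_of_nonneg_left (p.ω_sum n k) (by positivity)).trans ?_)
  apply le_of_eq
  ring

end TSN
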