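import Pool.Agent.TSN.GeoA

/-!
Project TSN, module GeoB: the planned lines of different words are far from each other after the
station where they separate.
(The theorems of `GeoPar`, `GeoA` may be used; their proofs are other modules.)

PLAN.  `geo_gap`: `F (k+1) w x - F (k+1) w' x = ω k (a (w k) - a (w' k)) (x - x_k)
+ ω k ^ 2 (b (w k) - b (w' k))` (`geo_step_eq`, `geoF_congr`), where `x_k ≤ k + 1/1000`, so
`x - x_k ≥ 0.74`.  Multiplied by the sign of `a (w k) - a (w' k)` it is at least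
`0.74 Δ ω k - 2 A ω k ^ 2`; the later drift (`geo_drift` for `n` over `k + 1`, twice) is at most
`4 ω (k+1) A (S+3) ≤ 4 c A (S+3) ω k ^ 2`, and `c_small`, `ω k ≤ c` make both corrections at most
`Δ ω k / 100`.  (Statement for `n > k`; `d = a (w k) - a (w' k)`.)

`geo_Y`: put `y = geoY s w`, `y' = geoY s w'`, `x, x'` the abscissas `s + y²/100`, `s + y'^2/100`.
`y - y' = F s w x - F s w' x' = (F s w x - F s w' x) + A' (x - x')` with `A'` the slope of
`F s w'`, `|A'| ≤ 1/10`, and `x - x' = (y - y')(y + y')/100`; so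
`(y - y') (1 - A' (y + y')/100) = F s w x - F s w' x`, the factor is between `1/2` and `3/2`.  The
right side has the sign of `F s w - F s w'` (the same at all abscissas in
`[s - 1/4, s + 1/4]`, by `geo_gap` with the first letter `k < s` where the words differ) and absolute
value at least `Δ ω k / 2 ≥ Δ ω (s-1) / 2`.
-/

namespace TSN

variable {V J E : Type}

private theorem gb_num [Nonempty J] {g : Gad V J E} {S : ℕ} (p : GeoPar g S) :
    p.A * p.c ≤ p.Δ / 100000 ∧ p.A * (S + 3) * p.c ≤ p.Δ / 100000 ∧ ∀ n, p.ω n ≤ 1 := by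
  have hA := p.one_le_A
  have hc := p.c_pos
  have hΔ := p.Δ_pos
  have h1 : p.Δ ^ 2 * p.c₀ ≤ p.Δ := by
    have h2 : p.Δ ^ 2 ≤ p.Δ := by nlinarith [p.Δ_pos, p.Δ_le]
    nlinarith [p.c₀_pos, p.c₀_le, sq_nonneg p.Δ]
  have h2 := p.c_small
  have hT : (1 : ℝ) ≤ (S : ℝ) + 3 := by
    have : (0 : ℝ) ≤ S := Nat.cast_nonneg S
    linarith
  have hAc : 0 < p.A * p.c := by positivity
  have h3 : p.A * p.c * ((S : ℝ) + 3) ^ 2 * 100000 ≤ p.Δ := by nlinarith
  have h4 : p.A * p.c * ((S : ℝ) + 3) ≤ p.A * p.c * ((S : ℝ) + 3) ^ 2 := by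
    apply mul_le_mul_of_nonneg_left _ hAc.le
    nlinarith
  have h5 : p.A * p.c ≤ p.A * p.c * ((S : ℝ) + 3) := by nlinarith
  refine ⟨by linarith, by nlinarith, fun n => ?_⟩
  obtain ⟨h6, _, h7⟩ := p.ω_le n
  have : (1 : ℝ) / 100000 ≤ 1 := by norm_num
  linarith

private theorem gb_step [Nonempty J] {g : Gad V J E} {S : ℕ} (p : GeoPar g S) {k n : ℕ}
    (hk : k < n) (hn : n ≤ S) {w w' : ℕ → J} (hag : Agree k w w') {x : ℝ}
    (h1 : (k : ℝ) + 3 / 4 ≤ x) (h2 : x ≤ S + 1) :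
    |(aff (geoF g p.ω n w) x - aff (geoF g p.ω n w') x) -
      p.ω k * (g.a (w k) - g.a (w' k)) * (x - ((k : ℝ) + geoY g p.ω k w ^ 2 / 100))| ≤
        p.Δ * p.ω k / 10000 := by
  obtain ⟨n1, n2, n3⟩ := gb_num p
  have hS0 : (0 : ℝ) ≤ S := Nat.cast_nonneg S
  have hk0 : (0 : ℝ) ≤ k := Nat.cast_nonneg k
  have hx : -1 ≤ x := by linarith
  have d1 := geo_drift p (by omega : k + 1 ≤ n) hn w hx h2
  have d2 := geo_drift p (by omega : k + 1 ≤ n) hn w' hx h2
  have e1 := geo_step_eq g p.ω k w x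
  have e2 := geo_step_eq g p.ω k w' x
  have e3 := geoF_congr g p.ω k w w' hag
  have e4 : geoY g p.ω k w' = geoY g p.ω k w := by
    unfold geoY
    rw [e3]
  rw [e4, ← e3] at e2
  have hω := p.ω_pos k
  have hω1 := n3 k
  have hωc := (p.ω_le k).1
  have hs := p.ω_succ k
  have hA := p.one_le_A
  have hc := p.c_pos
  have hΔ := p.Δ_pos
  obtain ⟨_, hb⟩ := p.ab_le (w k)
  obtain ⟨_, hb'⟩ := p.ab_le (w' k)
  have f1 : 2 * p.ω (k + 1) * p.A * (S + 3) ≤ 2 * (p.Δ / 100000) * p.ω k := by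
    have g1 : p.ω (k + 1) ≤ p.c * p.ω k := by
      have : p.c * p.ω k ^ 2 ≤ p.c * p.ω k := by
        apply mul_le_mul_of_nonneg_left _ hc.le
        nlinarith
      linarith
    have g2 : p.ω (k + 1) * (p.A * (S + 3)) ≤ p.c * p.ω k * (p.A * (S + 3)) :=
      mul_le_mul_of_nonneg_right g1 (by positivity)
    have g3 : p.A * (S + 3) * p.c * p.ω k ≤ p.Δ / 100000 * p.ω k :=
      mul_le_mul_of_nonneg_right n2 hω.le
    nlinarith
  have f2 : |p.ω k ^ 2 * (g.b (w k) - g.b (w' k))| ≤ 2 * (p.Δ / 100000) * p.ω k := by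
    have g1 : |g.b (w k) - g.b (w' k)| ≤ 2 * p.A := by
      refine (abs_sub _ _).trans ?_
      linarith
    rw [abs_mul, abs_of_nonneg (by positivity)]
    have g2 : p.ω k ^ 2 * |g.b (w k) - g.b (w' k)| ≤ p.ω k ^ 2 * (2 * p.A) :=
      mul_le_mul_of_nonneg_left g1 (by positivity)
    have g3 : p.ω k * p.A ≤ p.c * p.A := mul_le_mul_of_nonneg_right hωc (by linarith)
    have g4 : p.ω k * (p.ω k * p.A) ≤ p.ω k * (p.Δ / 100000) :=
      mul_le_mul_of_nonneg_left (by linarith) hω.le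
    nlinarith
  rw [abs_le] at d1 d2 f2 ⊢
  have hpos : 0 < p.Δ * p.ω k := mul_pos hΔ hω
  constructor
  · have q : (aff (geoF g p.ω n w) x - aff (geoF g p.ω n w') x) -
      p.ω k * (g.a (w k) - g.a (w' k)) * (x - ((k : ℝ) + geoY g p.ω k w ^ 2 / 100)) =
      (aff (geoF g p.ω n w) x - aff (geoF g p.ω (k + 1) w) x) -
      (aff (geoF g p.ω n w') x - aff (geoF g p.ω (k + 1) w') x) +
      p.ω k ^ 2 * (g.b (w k) - g.b (w' k)) := by
      rw [e1, e2]
      ring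
    rw [q]
    linarith [d1.1, d2.2, f2.1]
  · have q : (aff (geoF g p.ω n w) x - aff (geoF g p.ω n w') x) -
      p.ω k * (g.a (w k) - g.a (w' k)) * (x - ((k : ℝ) + geoY g p.ω k w ^ 2 / 100)) =
      (aff (geoF g p.ω n w) x - aff (geoF g p.ω (k + 1) w) x) -
      (aff (geoF g p.ω n w') x - aff (geoF g p.ω (k + 1) w') x) +
      p.ω k ^ 2 * (g.b (w k) - g.b (w' k)) := by
      rw [e1, e2]
      ring
    rw [q]
    linarith [d1.2, d2.1, f2.2]

theorem geo_gap [Nonempty J] {g : Gad V J E} {S : ℕ} (p : GeoPar g S) {k n : ℕ} (hk : k < n)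
    (hn : n ≤ S) {w w' : ℕ → J} (hag : Agree k w w') (hne : w k ≠ w' k) {x : ℝ}
    (h1 : (k : ℝ) + 3 / 4 ≤ x) (h2 : x ≤ S + 1) :
    (g.a (w' k) < g.a (w k) →
      p.Δ * p.ω k / 2 ≤ aff (geoF g p.ω n w) x - aff (geoF g p.ω n w') x) ∧
    (g.a (w k) < g.a (w' k) →
      p.Δ * p.ω k / 2 ≤ aff (geoF g p.ω n w') x - aff (geoF g p.ω n w) x) ∧
    g.a (w k) ≠ g.a (w' k) := by
  have hs := gb_step p hk hn hag h1 h2
  have hΔ := p.Δ_pos
  have hω := p.ω_pos k
  have hd := p.le_a _ _ hne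
  have hr := (geo_root p (by omega : k ≤ S) w).1
  have hy : geoY g p.ω k w ^ 2 ≤ 1 / 100 := by
    rw [← sq_abs]
    nlinarith [abs_nonneg (geoY g p.ω k w)]
  have hx : 74 / 100 ≤ x - ((k : ℝ) + geoY g p.ω k w ^ 2 / 100) := by linarith
  have hpos : 0 < p.Δ * p.ω k := mul_pos hΔ hω
  rw [abs_le] at hs
  refine ⟨fun h => ?_, fun h => ?_, fun h => ?_⟩
  · rw [abs_of_pos (by linarith)] at hd
    have m1 : p.ω k * p.Δ ≤ p.ω k * (g.a (w k) - g.a (w' k)) :=
      mul_le_mul_of_nonneg_left hd hω.le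
    have m2 : p.ω k * p.Δ * (74 / 100) ≤ p.ω k * (g.a (w k) - g.a (w' k)) *
        (x - ((k : ℝ) + geoY g p.ω k w ^ 2 / 100)) :=
      mul_le_mul m1 hx (by norm_num) (by nlinarith)
    nlinarith [hs.1]
  · rw [abs_of_neg (by linarith)] at hd
    have m1 : p.ω k * p.Δ ≤ p.ω k * (-(g.a (w k) - g.a (w' k))) :=
      mul_le_mul_of_nonneg_left hd hω.le
    have m2 : p.ω k * p.Δ * (74 / 100) ≤ p.ω k * (-(g.a (w k) - g.a (w' k))) *
        (x - ((k : ℝ) + geoY g p.ω k w ^ 2 / 100)) :=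
      mul_le_mul m1 hx (by norm_num) (by nlinarith)
    nlinarith [hs.2]
  · rw [h, sub_self, abs_zero] at hd
    linarith

private theorem gb_half [Nonempty J] {g : Gad V J E} {S : ℕ} (p : GeoPar g S) {n : ℕ}
    (hn : n ≤ S) {w w' : ℕ → J} {δ : ℝ} (hδ : 0 < δ)
    (h : ∀ x : ℝ, (n : ℝ) - 1 / 4 ≤ x → x ≤ S + 1 →
      δ / 2 ≤ aff (geoF g p.ω n w) x - aff (geoF g p.ω n w') x) :
    δ / 3 ≤ geoY g p.ω n w - geoY g p.ω n w' := by
  obtain ⟨r1, r2⟩ := geo_root p hn w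
  obtain ⟨r3, r4⟩ := geo_root p hn w'
  set y := geoY g p.ω n w with hy
  set y' := geoY g p.ω n w' with hy'
  have hnS : (n : ℝ) ≤ S := by exact_mod_cast hn
  have hn0 : (0 : ℝ) ≤ n := Nat.cast_nonneg n
  have hy2 : y ^ 2 ≤ 1 / 100 := by
    rw [← sq_abs]
    nlinarith [abs_nonneg y]
  have hy20 : 0 ≤ y ^ 2 := sq_nonneg y
  have hG := h ((n : ℝ) + y ^ 2 / 100) (by linarith) (by linarith)
  have hA := (geo_bound p hn w' (x := 0) (by norm_num) (by linarith)).2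
  set A' := (geoF g p.ω n w').1 with hA'
  have key : (y - y') * (1 - A' * (y + y') / 100) =
      aff (geoF g p.ω n w) ((n : ℝ) + y ^ 2 / 100) -
        aff (geoF g p.ω n w') ((n : ℝ) + y ^ 2 / 100) := by
    have e1 : aff (geoF g p.ω n w') ((n : ℝ) + y ^ 2 / 100) =
        y' + A' * (y - y') * (y + y') / 100 := by
      have e2 : aff (geoF g p.ω n w') ((n : ℝ) + y ^ 2 / 100) =
          aff (geoF g p.ω n w') ((n : ℝ) + y' ^ 2 / 100) + A' * (y - y') * (y + y') / 100 := by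
        simp only [aff]
        rw [← hA']
        ring
      rw [e2, ← r4]
    rw [e1, ← r2]
    ring
  rw [abs_le] at r1 r3 hA
  have hf : |A' * (y + y') / 100| ≤ 1 / 5000 := by
    rw [abs_div, abs_mul]
    have q1 : |A'| ≤ 1 / 10 := abs_le.2 hA
    have q2 : |y + y'| ≤ 1 / 5 := abs_le.2 ⟨by linarith [r1.1, r3.1], by linarith [r1.2, r3.2]⟩
    have q3 : |A'| * |y + y'| ≤ 1 / 10 * (1 / 5) :=
      mul_le_mul q1 q2 (abs_nonneg _) (by norm_num)
    rw [abs_of_pos (by norm_num : (0 : ℝ) < 100)]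
    linarith
  rw [abs_le] at hf
  rw [← key] at hG
  have hpos : 0 < y - y' := by
    by_contra hcon
    push Not at hcon
    nlinarith [hf.1, hf.2]
  nlinarith [hf.1, hf.2]

/-- words that do not agree below `n`: the planned lines are ordered, in the same way from the
station `n` on, as the tops at the station `n` -/
theorem geo_order [Nonempty J] {g : Gad V J E} {S : ℕ} (p : GeoPar g S) {n : ℕ}
    (h0 : 1 ≤ n) (hn : n ≤ S) {w w' : ℕ → J} (hag : ¬ Agree n w w') :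
    (p.Δ * p.ω (n - 1) / 3 ≤ geoY g p.ω n w - geoY g p.ω n w' ∧
      ∀ x : ℝ, (n : ℝ) - 1 / 4 ≤ x → x ≤ S + 1 →
        p.Δ * p.ω (n - 1) / 2 ≤ aff (geoF g p.ω n w) x - aff (geoF g p.ω n w') x) ∨
    (p.Δ * p.ω (n - 1) / 3 ≤ geoY g p.ω n w' - geoY g p.ω n w ∧
      ∀ x : ℝ, (n : ℝ) - 1 / 4 ≤ x → x ≤ S + 1 →
        p.Δ * p.ω (n - 1) / 2 ≤ aff (geoF g p.ω n w') x - aff (geoF g p.ω n w) x) := by
  classical
  have hex : ∃ k, k < n ∧ w k ≠ w' k := by
    unfold Agree at hag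
    push Not at hag
    exact hag
  obtain ⟨hk, hne⟩ := Nat.find_spec hex
  have hmin : Agree (Nat.find hex) w w' := by
    intro i hi
    have := Nat.find_min hex hi
    push Not at this
    exact this (by omega)
  generalize Nat.find hex = k at hk hne hmin
  have hΔ := p.Δ_pos
  have hω := p.ω_pos (n - 1)
  have hanti := p.ω_anti (by omega : k ≤ n - 1)
  have hmul : p.Δ * p.ω (n - 1) ≤ p.Δ * p.ω k := mul_le_mul_of_nonneg_left hanti hΔ.le
  have hkn : (k : ℝ) + 1 ≤ n := by exact_mod_cast hk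
  rcases lt_trichotomy (g.a (w k)) (g.a (w' k)) with hlt | heq | hgt
  · right
    have hx : ∀ x : ℝ, (n : ℝ) - 1 / 4 ≤ x → x ≤ S + 1 →
        p.Δ * p.ω (n - 1) / 2 ≤ aff (geoF g p.ω n w') x - aff (geoF g p.ω n w) x := by
      intro x h1 h2
      have := (geo_gap p hk hn hmin hne (by linarith : (k : ℝ) + 3 / 4 ≤ x) h2).2.1 hlt
      linarith
    exact ⟨gb_half p hn (mul_pos hΔ hω) hx, hx⟩
  · exfalso
    have hS0 : (n : ℝ) ≤ S := by exact_mod_cast hn
    exact (geo_gap p hk hn hmin hne (by linarith : (k : ℝ) + 3 / 4 ≤ n) (by linarith)).2.2 heq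
  · left
    have hx : ∀ x : ℝ, (n : ℝ) - 1 / 4 ≤ x → x ≤ S + 1 →
        p.Δ * p.ω (n - 1) / 2 ≤ aff (geoF g p.ω n w) x - aff (geoF g p.ω n w') x := by
      intro x h1 h2
      have := (geo_gap p hk hn hmin hne (by linarith : (k : ℝ) + 3 / 4 ≤ x) h2).1 hgt
      linarith
    exact ⟨gb_half p hn (mul_pos hΔ hω) hx, hx⟩

end TSN
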