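import Pool.Agent.TSN.GeoB

/-!
Project TSN, module GeoC: the position of the vertices with respect to the planned lines.
(The theorems of `GeoPar`, `GeoA`, `GeoB` may be used; their proofs are other modules.)

Write `P = geoP g p.ω s w v`, `F n w x = aff (geoF g p.ω n w) x`, `T = S + 3`.

PLAN.  `geo_P`: `geo_root`, `geo_bound`; `|s + Y²/100 - s| ≤ 1/1000`, `ω s A ≤ c A ≤ 1/1000`.
The tube: `P.2 - F n w P.1 = (F s w - F n w) P.1 + ω s ^ 2 ζ`, `geo_drift` (`n ≤ s`):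
`2 ω n A T + ω s ^ 2 A ≤ 3 ω n A T`.
`geo_own` (`s < n`): `P.2 - F (s+1) w P.1 = ω s ^ 2 * h v (w s)` exactly (`geo_step_eq`, the
definition of `geoP`), and `geo_drift` from `s + 1` to `n`:
`2 ω (s+1) A T ≤ 2 c A T ω s ^ 2 ≤ c₀ ω s ^ 2 / 4`.
`geo_other` (`s < n`, `¬ Agree s w w'`, which forces `1 ≤ s`), `P' = geoP g p.ω s w' v`:
`P'.2 - F n w P'.1 = (F s w' - F s w) P'.1 + ω s ^ 2 ζ - (F n w - F s w) P'.1`; the first term is at
least `Δ ω (s-1) / 2` in absolute value with the sign of `Y s w' - Y s w` (`geo_order`), the rest at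
most `3 ω s A T ≤ 3 A T c ω (s-1)² ≤ Δ ω (s-1) / 4`.
-/

namespace TSN

variable {V J E : Type}

private theorem gc_num [Nonempty J] {g : Gad V J E} {S : ℕ} (p : GeoPar g S) :
    300000 * (p.A * ((S : ℝ) + 3) * p.c) ≤ p.Δ * p.c₀ ∧ 300000 * (p.A * p.c) ≤ 1 ∧
      (∀ n, p.ω n ≤ 1) ∧ p.Δ * p.c₀ ≤ p.Δ ∧ p.Δ * p.c₀ ≤ p.c₀ := by
  have hA := p.one_le_A
  have hc := p.c_pos
  have hΔ := p.Δ_pos
  have hc0 := p.c₀_pos
  have h1 : p.Δ ^ 2 * p.c₀ ≤ p.Δ * p.c₀ := by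
    apply mul_le_mul_of_nonneg_right _ hc0.le
    nlinarith [p.Δ_le]
  have hd1 : p.Δ * p.c₀ ≤ p.Δ := by nlinarith [p.c₀_le]
  have hd2 : p.Δ * p.c₀ ≤ p.c₀ := by nlinarith [p.Δ_le]
  have h2 := p.c_small
  have hT : (3 : ℝ) ≤ (S : ℝ) + 3 := by
    have : (0 : ℝ) ≤ S := Nat.cast_nonneg S
    linarith
  have hAc : 0 < p.A * p.c := by positivity
  have h4 : p.A * p.c * (3 * ((S : ℝ) + 3)) ≤ p.A * p.c * ((S : ℝ) + 3) ^ 2 := by
    apply mul_le_mul_of_nonneg_left _ hAc.le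
    nlinarith
  have h5 : p.A * p.c * 1 ≤ p.A * p.c * ((S : ℝ) + 3) := by
    apply mul_le_mul_of_nonneg_left _ hAc.le
    linarith
  have h6 : 300000 * (p.A * ((S : ℝ) + 3) * p.c) ≤ p.Δ * p.c₀ := by nlinarith
  refine ⟨h6, ?_, fun n => ?_, hd1, hd2⟩
  · have := p.c₀_le
    nlinarith
  · obtain ⟨h6, _, h7⟩ := p.ω_le n
    have : (1 : ℝ) / 100000 ≤ 1 := by norm_num
    linarith

theorem geo_P [Nonempty J] {g : Gad V J E} {S : ℕ} (p : GeoPar g S) {s : ℕ} (hs : s < S)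
    (w : ℕ → J) (v : V) :
    |(geoP g p.ω s w v).1 - s| ≤ 1 / 100 ∧ |(geoP g p.ω s w v).2| ≤ 1 / 2 := by
  obtain ⟨hn1, hn2, hn3, -, -⟩ := gc_num p
  have hA := p.one_le_A
  have hω := p.ω_pos s
  have hω1 := hn3 s
  have hωc := (p.ω_le s).1
  obtain ⟨hY, _⟩ := geo_root p hs.le w
  obtain ⟨hz1, hz2⟩ := p.pos_le v
  have hY2 : geoY g p.ω s w ^ 2 ≤ 1 / 100 := by
    rw [← sq_abs]
    nlinarith [abs_nonneg (geoY g p.ω s w)]
  have hY0 : 0 ≤ geoY g p.ω s w ^ 2 := sq_nonneg _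
  have hωA : p.ω s * p.A ≤ 1 / 1000 := by
    have : p.ω s * p.A ≤ p.c * p.A := mul_le_mul_of_nonneg_right hωc (by linarith)
    nlinarith
  have e1 : |p.ω s * (g.pos v).1| ≤ 1 / 1000 := by
    rw [abs_mul, abs_of_pos hω]
    exact (mul_le_mul_of_nonneg_left hz1 hω.le).trans hωA
  have e2 : |p.ω s ^ 2 * (g.pos v).2| ≤ 1 / 1000 := by
    rw [abs_mul, abs_of_nonneg (by positivity)]
    have : p.ω s ^ 2 * |(g.pos v).2| ≤ p.ω s * p.A := by
      apply mul_le_mul _ hz2 (abs_nonneg _) hω.le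
      nlinarith
    exact this.trans hωA
  have hx : |(geoP g p.ω s w v).1 - s| ≤ 1 / 100 := by
    have h1 : (geoP g p.ω s w v).1 - s = geoY g p.ω s w ^ 2 / 100 + p.ω s * (g.pos v).1 := by
      simp only [geoP]
      ring
    rw [h1]
    refine (abs_add_le _ _).trans ?_
    rw [abs_of_nonneg (by positivity : 0 ≤ geoY g p.ω s w ^ 2 / 100)]
    linarith
  refine ⟨hx, ?_⟩
  have hxx := abs_le.1 hx
  have hs0 : (0 : ℝ) ≤ s := Nat.cast_nonneg s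
  have hsS : (s : ℝ) + 1 ≤ S := by exact_mod_cast hs
  have hb := (geo_bound p hs.le w (x := (geoP g p.ω s w v).1) (by linarith [hxx.1])
    (by linarith [hxx.2])).1
  have h2 : (geoP g p.ω s w v).2 = aff (geoF g p.ω s w) (geoP g p.ω s w v).1 +
      p.ω s ^ 2 * (g.pos v).2 := rfl
  rw [h2]
  refine (abs_add_le _ _).trans ?_
  linarith

private theorem gc_x [Nonempty J] {g : Gad V J E} {S : ℕ} (p : GeoPar g S) {s : ℕ} (hs : s < S)
    (w : ℕ → J) (v : V) :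
    -1 ≤ (geoP g p.ω s w v).1 ∧ (geoP g p.ω s w v).1 ≤ S + 1 ∧
      (s : ℝ) - 1 / 4 ≤ (geoP g p.ω s w v).1 := by
  have hxx := abs_le.1 (geo_P p hs w v).1
  have hs0 : (0 : ℝ) ≤ s := Nat.cast_nonneg s
  have hsS : (s : ℝ) + 1 ≤ S := by exact_mod_cast hs
  refine ⟨by linarith [hxx.1], by linarith [hxx.2], by linarith [hxx.1]⟩

/-- the small term -/
private theorem gc_z [Nonempty J] {g : Gad V J E} {S : ℕ} (p : GeoPar g S) {n s : ℕ} (hn : n ≤ s)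
    (v : V) : |p.ω s ^ 2 * (g.pos v).2| ≤ p.ω n * p.A * (S + 3) := by
  obtain ⟨-, -, hn3, -, -⟩ := gc_num p
  have hA := p.one_le_A
  have hω := p.ω_pos s
  have hω1 := hn3 s
  have hωn := p.ω_anti hn
  obtain ⟨_, hz2⟩ := p.pos_le v
  have hS0 : (0 : ℝ) ≤ S := Nat.cast_nonneg S
  rw [abs_mul, abs_of_nonneg (by positivity)]
  have h1 : p.ω s ^ 2 * |(g.pos v).2| ≤ p.ω n * p.A := by
    apply mul_le_mul _ hz2 (abs_nonneg _) (by linarith)
    nlinarith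
  refine h1.trans ?_
  have h2 : 0 < p.ω n * p.A := mul_pos (p.ω_pos n) (by linarith)
  nlinarith

theorem geo_tube [Nonempty J] {g : Gad V J E} {S : ℕ} (p : GeoPar g S) {n s : ℕ} (hn : n ≤ s)
    (hs : s < S) (w : ℕ → J) (v : V) :
    |(geoP g p.ω s w v).2 - aff (geoF g p.ω n w) (geoP g p.ω s w v).1| ≤
      3 * p.ω n * p.A * (S + 3) := by
  obtain ⟨h1, h2, _⟩ := gc_x p hs w v
  have h3 := geo_drift p hn hs.le w h1 h2
  have h4 := gc_z p hn v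
  have h5 : (geoP g p.ω s w v).2 - aff (geoF g p.ω n w) (geoP g p.ω s w v).1 =
      (aff (geoF g p.ω s w) (geoP g p.ω s w v).1 - aff (geoF g p.ω n w) (geoP g p.ω s w v).1) +
      p.ω s ^ 2 * (g.pos v).2 := by
    have : (geoP g p.ω s w v).2 = aff (geoF g p.ω s w) (geoP g p.ω s w v).1 +
      p.ω s ^ 2 * (g.pos v).2 := rfl
    rw [this]
    ring
  rw [h5]
  refine (abs_add_le _ _).trans ?_
  linarith

theorem geo_own [Nonempty J] {g : Gad V J E} {S : ℕ} (p : GeoPar g S) {n s : ℕ} (hs : s < n)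
    (hn : n ≤ S) (w : ℕ → J) (v : V) :
    (0 < g.h v (w s) → p.c₀ * p.ω s ^ 2 / 2 ≤
      (geoP g p.ω s w v).2 - aff (geoF g p.ω n w) (geoP g p.ω s w v).1) ∧
    (g.h v (w s) < 0 → (geoP g p.ω s w v).2 - aff (geoF g p.ω n w) (geoP g p.ω s w v).1 ≤
      -(p.c₀ * p.ω s ^ 2 / 2)) := by
  obtain ⟨hn1, hn2, hn3, hn4, hn5⟩ := gc_num p
  obtain ⟨h1, h2, _⟩ := gc_x p (by omega : s < S) w v
  have h3 := geo_drift p (by omega : s + 1 ≤ n) hn w h1 h2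
  have hω2 : 0 < p.ω s ^ 2 := pow_pos (p.ω_pos s) 2
  have hA := p.one_le_A
  have hS0 : (0 : ℝ) ≤ S := Nat.cast_nonneg S
  have h4 : 2 * p.ω (s + 1) * p.A * (S + 3) ≤ p.c₀ * p.ω s ^ 2 / 2 := by
    have e1 := p.ω_succ s
    have hAT : 0 < p.A * ((S : ℝ) + 3) := by positivity
    have e2 : p.ω (s + 1) * (p.A * ((S : ℝ) + 3)) ≤ p.c * p.ω s ^ 2 * (p.A * ((S : ℝ) + 3)) :=
      mul_le_mul_of_nonneg_right e1 hAT.le
    have e3 : (300000 * (p.A * ((S : ℝ) + 3) * p.c)) * p.ω s ^ 2 ≤ p.c₀ * p.ω s ^ 2 :=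
      mul_le_mul_of_nonneg_right (hn1.trans hn5) hω2.le
    have e4 : 0 < p.c₀ * p.ω s ^ 2 := mul_pos p.c₀_pos hω2
    nlinarith [e2, e3, e4]
  have h5 : (geoP g p.ω s w v).2 - aff (geoF g p.ω (s + 1) w) (geoP g p.ω s w v).1 =
      p.ω s ^ 2 * g.h v (w s) := by
    rw [geo_step_eq]
    simp only [geoP, Gad.h]
    ring
  have h6 : (geoP g p.ω s w v).2 - aff (geoF g p.ω n w) (geoP g p.ω s w v).1 =
      p.ω s ^ 2 * g.h v (w s) -
      (aff (geoF g p.ω n w) (geoP g p.ω s w v).1 -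
        aff (geoF g p.ω (s + 1) w) (geoP g p.ω s w v).1) := by
    rw [← h5]
    ring
  have h7 := abs_le.1 (h3.trans h4)
  have hc := p.le_h v (w s)
  rw [h6]
  constructor
  · intro hpos
    rw [abs_of_pos hpos] at hc
    have : p.ω s ^ 2 * p.c₀ ≤ p.ω s ^ 2 * g.h v (w s) := mul_le_mul_of_nonneg_left hc hω2.le
    linarith [h7.2]
  · intro hneg
    rw [abs_of_neg hneg] at hc
    have : p.ω s ^ 2 * p.c₀ ≤ p.ω s ^ 2 * (-g.h v (w s)) := mul_le_mul_of_nonneg_left hc hω2.le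
    linarith [h7.1]

theorem geo_other [Nonempty J] {g : Gad V J E} {S : ℕ} (p : GeoPar g S) {n s : ℕ} (hs : s < n)
    (hn : n ≤ S) {w w' : ℕ → J} (hag : ¬ Agree s w w') (v : V) :
    1 ≤ s ∧
    (geoY g p.ω s w < geoY g p.ω s w' → p.Δ * p.ω (s - 1) / 4 ≤
      (geoP g p.ω s w' v).2 - aff (geoF g p.ω n w) (geoP g p.ω s w' v).1) ∧
    (geoY g p.ω s w' < geoY g p.ω s w →
      (geoP g p.ω s w' v).2 - aff (geoF g p.ω n w) (geoP g p.ω s w' v).1 ≤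
        -(p.Δ * p.ω (s - 1) / 4)) := by
  have hs1 : 1 ≤ s := by
    by_contra hcon
    apply hag
    intro i hi
    omega
  obtain ⟨hn1, hn2, hn3, hn4, hn5⟩ := gc_num p
  obtain ⟨h1, h2, h2'⟩ := gc_x p (by omega : s < S) w' v
  have h3 := geo_drift p (by omega : s ≤ n) hn w h1 h2
  have h4 := gc_z p (le_refl s) v
  have hA := p.one_le_A
  have hΔ := p.Δ_pos
  have hS0 : (0 : ℝ) ≤ S := Nat.cast_nonneg S
  have hω0 := p.ω_pos (s - 1)
  have h5 : 3 * p.ω s * p.A * (S + 3) ≤ p.Δ * p.ω (s - 1) / 4 := by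
    have e1 := p.ω_succ (s - 1)
    rw [Nat.sub_add_cancel hs1] at e1
    have e0 : p.ω (s - 1) ^ 2 ≤ p.ω (s - 1) := by nlinarith [hn3 (s - 1)]
    have hAT : 0 < p.A * ((S : ℝ) + 3) := by positivity
    have e1' : p.ω s ≤ p.c * p.ω (s - 1) := e1.trans (mul_le_mul_of_nonneg_left e0 p.c_pos.le)
    have e2 : p.ω s * (p.A * ((S : ℝ) + 3)) ≤ p.c * p.ω (s - 1) * (p.A * ((S : ℝ) + 3)) :=
      mul_le_mul_of_nonneg_right e1' hAT.le
    have e3 : (300000 * (p.A * ((S : ℝ) + 3) * p.c)) * p.ω (s - 1) ≤ p.Δ * p.ω (s - 1) :=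
      mul_le_mul_of_nonneg_right (hn1.trans hn4) hω0.le
    nlinarith
  have h6 : (geoP g p.ω s w' v).2 - aff (geoF g p.ω n w) (geoP g p.ω s w' v).1 =
      (aff (geoF g p.ω s w') (geoP g p.ω s w' v).1 - aff (geoF g p.ω s w) (geoP g p.ω s w' v).1) +
      p.ω s ^ 2 * (g.pos v).2 -
      (aff (geoF g p.ω n w) (geoP g p.ω s w' v).1 -
        aff (geoF g p.ω s w) (geoP g p.ω s w' v).1) := by
    have : (geoP g p.ω s w' v).2 = aff (geoF g p.ω s w') (geoP g p.ω s w' v).1 +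
      p.ω s ^ 2 * (g.pos v).2 := rfl
    rw [this]
    ring
  have h3' := abs_le.1 h3
  have h4' := abs_le.1 h4
  have hΔω : 0 < p.Δ * p.ω (s - 1) := mul_pos hΔ hω0
  refine ⟨hs1, fun hlt => ?_, fun hlt => ?_⟩
  · rcases geo_order p hs1 (by omega : s ≤ S) hag with ⟨ha, _⟩ | ⟨_, hb⟩
    · exfalso
      linarith
    · have hb' := hb _ h2' h2
      rw [h6]
      linarith [h3'.2, h4'.1]
  · rcases geo_order p hs1 (by omega : s ≤ S) hag with ⟨_, hb⟩ | ⟨ha, _⟩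
    · have hb' := hb _ h2' h2
      rw [h6]
      linarith [h3'.1, h4'.2]
    · exfalso
      linarith

end TSN
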