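import Pool.Agent.TSN.Defs

/-!
Project TSN: the geometric construction.  Definitions.
-/

namespace TSN

variable {V J E : Type}

open Classical in
/-- the ordinate of the point where the line `y = A x + B` meets the arc `x = s + y^2/100`,
`|y| ≤ 1` -/
noncomputable def root (s : ℕ) (AB : ℝ × ℝ) : ℝ :=
  if h : ∃ y : ℝ, |y| ≤ 1 ∧ y = aff AB ((s : ℝ) + y ^ 2 / 100) then h.choose else 0

/-- the planned lines -/
noncomputable def geoF (g : Gad V J E) (ω : ℕ → ℝ) : ℕ → (ℕ → J) → ℝ × ℝ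
  | 0, _ => (0, 0)
  | n + 1, w =>
      ((geoF g ω n w).1 + ω n * g.a (w n),
        (geoF g ω n w).2 - ω n * g.a (w n) * ((n : ℝ) + root n (geoF g ω n w) ^ 2 / 100)
          + ω n ^ 2 * g.b (w n))

/-- the ordinate of the top of the copy -/
noncomputable def geoY (g : Gad V J E) (ω : ℕ → ℝ) (n : ℕ) (w : ℕ → J) : ℝ :=
  root n (geoF g ω n w)

/-- the vertices of the copies -/
noncomputable def geoP (g : Gad V J E) (ω : ℕ → ℝ) (n : ℕ) (w : ℕ → J) (v : V) : ℝ × ℝ :=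
  ((n : ℝ) + geoY g ω n w ^ 2 / 100 + ω n * (g.pos v).1,
    aff (geoF g ω n w) ((n : ℝ) + geoY g ω n w ^ 2 / 100 + ω n * (g.pos v).1)
      + ω n ^ 2 * (g.pos v).2)

/-- parameters: bounds of the gadget and a rapidly decreasing sequence of scales -/
structure GeoPar [Nonempty J] (g : Gad V J E) (S : ℕ) where
  A : ℝ
  Δ : ℝ
  c₀ : ℝ
  c : ℝ
  ω : ℕ → ℝ
  one_le_A : 1 ≤ A
  pos_le : ∀ v, |(g.pos v).1| ≤ A ∧ |(g.pos v).2| ≤ A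
  ab_le : ∀ j, |g.a j| ≤ A ∧ |g.b j| ≤ A
  Δ_pos : 0 < Δ
  Δ_le : Δ ≤ 1
  le_a : ∀ j j', j ≠ j' → Δ ≤ |g.a j - g.a j'|
  c₀_pos : 0 < c₀
  c₀_le : c₀ ≤ 1
  le_h : ∀ v j, c₀ ≤ |g.h v j|
  c_pos : 0 < c
  c_small : 100000 * A * ((S : ℝ) + 3) ^ 2 * c ≤ Δ ^ 2 * c₀
  ω_pos : ∀ n, 0 < ω n
  ω_zero : ω 0 ≤ c
  ω_succ : ∀ n, ω (n + 1) ≤ c * ω n ^ 2

end TSN
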