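import Pool.Agent.TSN.GeoDefs

/-!
Project TSN, module GeoPar: the parameters exist (finite maxima and minima, and a sequence defined
by recursion); elementary consequences.
-/

namespace TSN

variable {V J E : Type}

private theorem par_min {K : Type} (s : Finset K) (f : K → ℝ) (hf : ∀ k, 0 < f k) :
    ∃ δ : ℝ, 0 < δ ∧ δ ≤ 1 ∧ ∀ k ∈ s, δ ≤ f k := by
  classical
  induction s using Finset.induction_on with
  | empty => exact ⟨1, one_pos, le_rfl, fun k hk => absurd hk (Finset.notMem_empty k)⟩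
  | insert k s _ ih =>
    obtain ⟨δ, h0, h1, h2⟩ := ih
    refine ⟨min δ (f k), lt_min h0 (hf k), (min_le_left _ _).trans h1, ?_⟩
    intro k' hk'
    rcases Finset.mem_insert.1 hk' with rfl | hk'
    · exact min_le_right _ _
    · exact (min_le_left _ _).trans (h2 k' hk')

theorem exists_par [Fintype V] [Fintype J] [Fintype E] [Nonempty J] (g : Gad V J E) {κ : ℕ}
    (hg : g.Good κ) (S : ℕ) : Nonempty (GeoPar g S) := by
  classical
  obtain ⟨Δ, hΔ0, hΔ1, hΔ⟩ := par_min (Finset.univ : Finset (J × J))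
    (fun q => if q.1 = q.2 then 1 else |g.a q.1 - g.a q.2|) (by
      intro q
      split_ifs with h
      · exact one_pos
      · exact abs_pos.2 (sub_ne_zero.2 fun h' => h (hg.a_inj h')))
  obtain ⟨c₀, hc0, hc1, hc⟩ := par_min (Finset.univ : Finset (V × J))
    (fun q => |g.h q.1 q.2|) (fun q => abs_pos.2 (hg.h_ne q.1 q.2))
  set A : ℝ := 1 + ∑ v, |(g.pos v).1| + ∑ v, |(g.pos v).2| + ∑ j, |g.a j| + ∑ j, |g.b j| with hA
  have s1 : 0 ≤ ∑ v, |(g.pos v).1| := Finset.sum_nonneg fun v _ => abs_nonneg _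
  have s2 : 0 ≤ ∑ v, |(g.pos v).2| := Finset.sum_nonneg fun v _ => abs_nonneg _
  have s3 : 0 ≤ ∑ j, |g.a j| := Finset.sum_nonneg fun v _ => abs_nonneg _
  have s4 : 0 ≤ ∑ j, |g.b j| := Finset.sum_nonneg fun v _ => abs_nonneg _
  have hA1 : 1 ≤ A := by
    rw [hA]
    linarith
  have hS : (0 : ℝ) < (S : ℝ) + 3 := by positivity
  set c : ℝ := Δ ^ 2 * c₀ / (100000 * A * ((S : ℝ) + 3) ^ 2) with hcdef
  have hA0 : 0 < A := by linarith
  have hden : 0 < 100000 * A * ((S : ℝ) + 3) ^ 2 := by positivity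
  have hcpos : 0 < c := by positivity
  refine ⟨{ A := A, Δ := Δ, c₀ := c₀, c := c
            ω := fun n => Nat.rec c (fun _ x => c * x ^ 2) n
            one_le_A := hA1
            pos_le := ?_
            ab_le := ?_
            Δ_pos := hΔ0
            Δ_le := hΔ1
            le_a := ?_
            c₀_pos := hc0
            c₀_le := hc1
            le_h := fun v j => hc (v, j) (Finset.mem_univ _)
            c_pos := hcpos
            c_small := ?_
            ω_pos := ?_
            ω_zero := le_rfl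
            ω_succ := fun n => le_rfl }⟩
  · intro v
    have h1 := Finset.single_le_sum (f := fun v => |(g.pos v).1|) (fun v _ => abs_nonneg _)
      (Finset.mem_univ v)
    have h2 := Finset.single_le_sum (f := fun v => |(g.pos v).2|) (fun v _ => abs_nonneg _)
      (Finset.mem_univ v)
    constructor <;> rw [hA] <;> linarith
  · intro j
    have h1 := Finset.single_le_sum (f := fun j => |g.a j|) (fun v _ => abs_nonneg _)
      (Finset.mem_univ j)
    have h2 := Finset.single_le_sum (f := fun j => |g.b j|) (fun v _ => abs_nonneg _)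
      (Finset.mem_univ j)
    constructor <;> rw [hA] <;> linarith
  · intro j j' hjj'
    have h1 := hΔ (j, j') (Finset.mem_univ _)
    simp only [if_neg hjj'] at h1
    exact h1
  · rw [hcdef, mul_div_cancel₀ _ hden.ne']
  · intro n
    induction n with
    | zero => exact hcpos
    | succ n ih =>
      show 0 < c * _ ^ 2
      exact mul_pos hcpos (pow_pos ih 2)

private theorem par_c [Nonempty J] {g : Gad V J E} {S : ℕ} (p : GeoPar g S) :
    p.c ≤ 1 / 100000 := by
  have h1 := p.c_small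
  have h2 : p.Δ ^ 2 * p.c₀ ≤ 1 := by
    have h3 : p.Δ ^ 2 ≤ 1 := pow_le_one₀ p.Δ_pos.le p.Δ_le
    calc p.Δ ^ 2 * p.c₀ ≤ 1 * 1 := mul_le_mul h3 p.c₀_le p.c₀_pos.le zero_le_one
      _ = 1 := one_mul 1
  have h4 : (1 : ℝ) ≤ ((S : ℝ) + 3) ^ 2 := by
    have : (0 : ℝ) ≤ S := Nat.cast_nonneg S
    nlinarith
  have h5 : 1 * 1 ≤ p.A * ((S : ℝ) + 3) ^ 2 :=
    mul_le_mul p.one_le_A h4 zero_le_one (zero_le_one.trans p.one_le_A)
  have h6 := mul_le_mul_of_nonneg_right h5 (mul_nonneg (by norm_num : (0 : ℝ) ≤ 100000) p.c_pos.le)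
  linarith

private theorem par_ω [Nonempty J] {g : Gad V J E} {S : ℕ} (p : GeoPar g S) (n : ℕ) :
    p.ω n ≤ p.c := by
  induction n with
  | zero => exact p.ω_zero
  | succ n ih =>
    have h1 := p.ω_succ n
    have h2 := p.ω_pos n
    have h3 := par_c p
    have h4 : p.ω n ^ 2 ≤ 1 := by
      apply pow_le_one₀ h2.le
      linarith
    calc p.ω (n + 1) ≤ p.c * p.ω n ^ 2 := h1
      _ ≤ p.c * 1 := mul_le_mul_of_nonneg_left h4 p.c_pos.le
      _ = p.c := mul_one _

theorem GeoPar.ω_le [Nonempty J] {g : Gad V J E} {S : ℕ} (p : GeoPar g S) (n : ℕ) :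
    p.ω n ≤ p.c ∧ p.ω (n + 1) ≤ p.ω n / 2 ∧ p.c ≤ 1 / 100000 := by
  refine ⟨par_ω p n, ?_, par_c p⟩
  have h1 := p.ω_succ n
  have h2 := p.ω_pos n
  have h3 := par_c p
  have h4 := par_ω p n
  have h5 : p.c * p.ω n ≤ 1 / 2 := by
    have h6 : p.c * p.ω n ≤ 1 * (1 / 2) :=
      mul_le_mul (by linarith) (by linarith) h2.le zero_le_one
    linarith
  have h6 := mul_le_mul_of_nonneg_right h5 h2.le
  calc p.ω (n + 1) ≤ p.c * p.ω n ^ 2 := h1
    _ = p.c * p.ω n * p.ω n := by ring
    _ ≤ 1 / 2 * p.ω n := h6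
    _ = p.ω n / 2 := by ring

theorem GeoPar.ω_anti [Nonempty J] {g : Gad V J E} {S : ℕ} (p : GeoPar g S) {m n : ℕ}
    (h : m ≤ n) : p.ω n ≤ p.ω m := by
  induction n, h using Nat.le_induction with
  | base => exact le_rfl
  | succ n _ ih =>
    have h1 := (p.ω_le n).2.1
    have h2 := p.ω_pos n
    linarith

theorem GeoPar.ω_sum [Nonempty J] {g : Gad V J E} {S : ℕ} (p : GeoPar g S) (n k : ℕ) :
    ∑ i ∈ Finset.range k, p.ω (n + i) ≤ 2 * p.ω n := by
  have h : ∑ i ∈ Finset.range k, p.ω (n + i) + 2 * p.ω (n + k) ≤ 2 * p.ω n := by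
    induction k with
    | zero => simp
    | succ k ih =>
      rw [Finset.sum_range_succ]
      have h1 := (p.ω_le (n + k)).2.1
      rw [← add_assoc]
      linarith
  have h2 := p.ω_pos (n + k)
  linarith

end TSN
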