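import Pool.Agent.TSN.Stat

/-!
Project TSN, module Hits: a line hitting two copies of one station is steep, three are
impossible.  A hit copy has `|val (R t)| ≤ (|a| + |b|) η` (`hits_bd`), so two hit copies give
`|a (y + y') / 100 + b| ≤ (|a| + |b|) |y - y'| / 500` (`hits_pair`).
-/

namespace TSN

variable {V : Type}

/-- the value at the top of a hit copy is small. -/
private theorem hits_bd {a b c η : ℝ} {R : V → ℝ × ℝ} {t : V}
    (hn : ∀ v, |(R v).1 - (R t).1| ≤ η ∧ |(R v).2 - (R t).2| ≤ η)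
    (h : Hit a b c R t) : |val a b c (R t)| ≤ (|a| + |b|) * η := by
  obtain ⟨v, hv⟩ := h
  unfold Sep at hv
  have h1 : |val a b c (R t)| ≤ |val a b c (R v) - val a b c (R t)| := by
    rcases lt_or_ge 0 (val a b c (R t)) with h0 | h0
    · have h2 : val a b c (R v) < 0 := by
        by_contra hc
        push Not at hc
        nlinarith
      rw [abs_of_pos h0, abs_of_neg (by linarith)]
      linarith
    · have h2 : 0 < val a b c (R v) := by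
        by_contra hc
        push Not at hc
        nlinarith
      rw [abs_of_nonpos h0, abs_of_pos (by linarith)]
      linarith
  have h3 : val a b c (R v) - val a b c (R t) =
      a * ((R v).1 - (R t).1) + b * ((R v).2 - (R t).2) := by
    unfold val
    ring
  rw [h3] at h1
  have h4 := abs_add_le (a * ((R v).1 - (R t).1)) (b * ((R v).2 - (R t).2))
  rw [abs_mul, abs_mul] at h4
  have h5 := mul_le_mul_of_nonneg_left (hn v).1 (abs_nonneg a)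
  have h6 := mul_le_mul_of_nonneg_left (hn v).2 (abs_nonneg b)
  linarith

/-- two hit copies. -/
private theorem hits_pair {a b c x₀ y y' η : ℝ} {R R' : V → ℝ × ℝ} {t : V}
    (hR : R t = (x₀ + y ^ 2 / 100, y)) (hR' : R' t = (x₀ + y' ^ 2 / 100, y'))
    (hn : ∀ v, |(R v).1 - (R t).1| ≤ η ∧ |(R v).2 - (R t).2| ≤ η)
    (hn' : ∀ v, |(R' v).1 - (R' t).1| ≤ η ∧ |(R' v).2 - (R' t).2| ≤ η)
    (hne : y ≠ y') (hgap : 1000 * η ≤ (y - y') ^ 2)
    (h : Hit a b c R t) (h' : Hit a b c R' t) :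
    |a * (y + y') / 100 + b| ≤ (|a| + |b|) / 500 * |y - y'| := by
  have h1 := hits_bd hn h
  have h2 := hits_bd hn' h'
  have h3 : val a b c (R t) - val a b c (R' t) = (y - y') * (a * (y + y') / 100 + b) := by
    rw [hR, hR']
    unfold val
    ring
  have h4 : |y - y'| * |a * (y + y') / 100 + b| ≤ 2 * ((|a| + |b|) * η) := by
    rw [← abs_mul, ← h3]
    have := abs_sub (val a b c (R t)) (val a b c (R' t))
    linarith
  have hpos : 0 < |y - y'| := abs_pos.mpr (sub_ne_zero.mpr hne)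
  have hab : 0 ≤ |a| + |b| := by positivity
  have h5 : |y - y'| * |a * (y + y') / 100 + b| ≤ |y - y'| * ((|a| + |b|) / 500 * |y - y'|) := by
    have h6 := mul_le_mul_of_nonneg_left hgap hab
    rw [← sq_abs (y - y')] at h6
    nlinarith
  exact le_of_mul_le_mul_left h5 hpos

theorem hits_steep {a b c x₀ y y' η : ℝ} {R R' : V → ℝ × ℝ} {t : V}
    (hR : R t = (x₀ + y ^ 2 / 100, y)) (hR' : R' t = (x₀ + y' ^ 2 / 100, y'))
    (hy : |y| ≤ 1 / 2) (hy' : |y'| ≤ 1 / 2)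
    (hn : ∀ v, |(R v).1 - (R t).1| ≤ η ∧ |(R v).2 - (R t).2| ≤ η)
    (hn' : ∀ v, |(R' v).1 - (R' t).1| ≤ η ∧ |(R' v).2 - (R' t).2| ≤ η)
    (hne : y ≠ y') (hgap : 1000 * η ≤ (y - y') ^ 2)
    (h : Hit a b c R t) (h' : Hit a b c R' t) : |b| ≤ |a| / 50 := by
  have h1 := hits_pair hR hR' hn hn' hne hgap h h'
  have ha := abs_nonneg a
  have hb := abs_nonneg b
  have h2 : |y - y'| ≤ 1 := by
    have := abs_sub y y'
    linarith
  have h3 : |y + y'| ≤ 1 := by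
    have := abs_add_le y y'
    linarith
  have h4 : |b| ≤ |a * (y + y') / 100 + b| + |a| * |y + y'| / 100 := by
    have h5 : b = (a * (y + y') / 100 + b) - a * (y + y') / 100 := by ring
    have h6 := abs_sub (a * (y + y') / 100 + b) (a * (y + y') / 100)
    rw [← h5] at h6
    have h7 : |a * (y + y') / 100| = |a| * |y + y'| / 100 := by
      rw [abs_div, abs_mul]
      norm_num
    rw [h7] at h6
    exact h6
  have h8 := mul_le_mul_of_nonneg_left h3 ha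
  have h9 := mul_le_mul_of_nonneg_left h2 (by positivity : 0 ≤ (|a| + |b|) / 500)
  linarith

theorem hits_three {a b c x₀ y₁ y₂ y₃ η : ℝ} (hab : a ≠ 0 ∨ b ≠ 0)
    {R₁ R₂ R₃ : V → ℝ × ℝ} {t : V}
    (hR₁ : R₁ t = (x₀ + y₁ ^ 2 / 100, y₁)) (hR₂ : R₂ t = (x₀ + y₂ ^ 2 / 100, y₂))
    (hR₃ : R₃ t = (x₀ + y₃ ^ 2 / 100, y₃))
    (hy₁ : |y₁| ≤ 1 / 2) (hy₂ : |y₂| ≤ 1 / 2) (hy₃ : |y₃| ≤ 1 / 2)
    (hn₁ : ∀ v, |(R₁ v).1 - (R₁ t).1| ≤ η ∧ |(R₁ v).2 - (R₁ t).2| ≤ η)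
    (hn₂ : ∀ v, |(R₂ v).1 - (R₂ t).1| ≤ η ∧ |(R₂ v).2 - (R₂ t).2| ≤ η)
    (hn₃ : ∀ v, |(R₃ v).1 - (R₃ t).1| ≤ η ∧ |(R₃ v).2 - (R₃ t).2| ≤ η)
    (hne₁ : y₁ ≠ y₂) (hne₂ : y₂ ≠ y₃) (hne₃ : y₁ ≠ y₃)
    (hgap₁ : 1000 * η ≤ (y₁ - y₂) ^ 2) (hgap₂ : 1000 * η ≤ (y₂ - y₃) ^ 2)
    (hgap₃ : 1000 * η ≤ (y₁ - y₃) ^ 2)
    (h₁ : Hit a b c R₁ t) (h₂ : Hit a b c R₂ t) (h₃ : Hit a b c R₃ t) : False := by
  have h12 := hits_pair hR₁ hR₂ hn₁ hn₂ hne₁ hgap₁ h₁ h₂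
  have h23 := hits_pair hR₂ hR₃ hn₂ hn₃ hne₂ hgap₂ h₂ h₃
  have h13 := hits_pair hR₁ hR₃ hn₁ hn₃ hne₃ hgap₃ h₁ h₃
  have hs := hits_steep hR₁ hR₂ hy₁ hy₂ hn₁ hn₂ hne₁ hgap₁ h₁ h₂
  have key : ∀ u v w : ℝ, |a * (u + v) / 100 + b| ≤ (|a| + |b|) / 500 * |u - v| →
      |a * (w + v) / 100 + b| ≤ (|a| + |b|) / 500 * |w - v| →
      |a| / 100 * |u - w| ≤ (|a| + |b|) / 500 * (|u - v| + |w - v|) := by
    intro u v w hu hw
    have h5 : a / 100 * (u - w) = (a * (u + v) / 100 + b) - (a * (w + v) / 100 + b) := by ring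
    have h6 := abs_sub (a * (u + v) / 100 + b) (a * (w + v) / 100 + b)
    rw [← h5, abs_mul, abs_div] at h6
    norm_num at h6
    linarith
  have p12 : 0 < |y₁ - y₂| := abs_pos.mpr (sub_ne_zero.mpr hne₁)
  have p23 : 0 < |y₂ - y₃| := abs_pos.mpr (sub_ne_zero.mpr hne₂)
  have p13 : 0 < |y₁ - y₃| := abs_pos.mpr (sub_ne_zero.mpr hne₃)
  have k1 := key y₁ y₂ y₃ h12 (by rw [add_comm y₃, abs_sub_comm y₃]; exact h23)
  have k2 := key y₁ y₃ y₂ h13 h23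
  have k3 := key y₂ y₁ y₃ (by rw [add_comm y₂, abs_sub_comm y₂]; exact h12)
    (by rw [add_comm y₃, abs_sub_comm y₃]; exact h13)
  rw [abs_sub_comm y₃ y₂] at k1
  rw [abs_sub_comm y₂ y₁, abs_sub_comm y₃ y₁] at k3
  have ha := abs_nonneg a
  have hsum : |a| / 100 * (|y₁ - y₂| + |y₂ - y₃| + |y₁ - y₃|) ≤
      (|a| + |b|) / 250 * (|y₁ - y₂| + |y₂ - y₃| + |y₁ - y₃|) := by linarith
  have h7 := le_of_mul_le_mul_right hsum (by positivity)
  have ha0 : |a| = 0 := by linarith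
  have hb0 : |b| = 0 := by
    have := abs_nonneg b
    linarith
  rcases hab with h | h
  · exact h (abs_eq_zero.mp ha0)
  · exact h (abs_eq_zero.mp hb0)

end TSN
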