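import Pool.Agent.TSN.Defs

/-!
Project TSN, module Intf: the interface with the definition of `treeStab`, upper bounds.
-/

namespace TSN

private theorem intf_val_comb {a b c α β : ℝ} (h : α + β = 1) (P Q : ℝ × ℝ) :
    val a b c (α • P + β • Q) = α * val a b c P + β * val a b c Q := by
  unfold val
  simp only [Prod.fst_add, Prod.snd_add, Prod.smul_fst, Prod.smul_snd, smul_eq_mul]
  linear_combination c * h

private theorem intf_mem_line {a b c : ℝ} {X : ℝ × ℝ} : X ∈ line a b c ↔ val a b c X = 0 := by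
  unfold line val
  simp only [Set.mem_ofPred_eq]
  constructor
  · intro h; linarith
  · intro h; linarith

theorem stabs_iff {a b c : ℝ} {P Q : ℝ × ℝ} (hPQ : P ≠ Q) :
    Stabs (line a b c) P Q ↔ Sep a b c P Q := by
  constructor
  · rintro ⟨X, ⟨α, β, hα, hβ, hαβ, hX⟩, hL⟩
    have hXm : X ∈ line a b c ∩ segment ℝ P Q := by rw [hL]; rfl
    have hX0 : val a b c X = 0 := intf_mem_line.1 hXm.1
    rw [← hX, intf_val_comb hαβ] at hX0
    unfold Sep
    by_contra hcon
    push Not at hcon
    have hP : val a b c P = 0 := by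
      have h1 : α * val a b c P ^ 2 = -(β * (val a b c P * val a b c Q)) := by
        linear_combination val a b c P * hX0
      have h2 : α * val a b c P ^ 2 ≤ 0 := by
        rw [h1]
        exact neg_nonpos.2 (mul_nonneg hβ.le hcon)
      have h3 : val a b c P ^ 2 ≤ 0 := by
        by_contra h4
        push Not at h4
        have := mul_pos hα h4
        linarith
      exact pow_eq_zero_iff (two_ne_zero) |>.1 (le_antisymm h3 (sq_nonneg _))
    have hQ : val a b c Q = 0 := by
      rw [hP, mul_zero, zero_add] at hX0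
      exact (mul_eq_zero.1 hX0).resolve_left hβ.ne'
    have h1 : P ∈ line a b c ∩ segment ℝ P Q := ⟨intf_mem_line.2 hP, left_mem_segment ℝ P Q⟩
    have h2 : Q ∈ line a b c ∩ segment ℝ P Q := ⟨intf_mem_line.2 hQ, right_mem_segment ℝ P Q⟩
    rw [hL] at h1 h2
    exact hPQ (h1.trans h2.symm)
  · intro h
    unfold Sep at h
    set v := val a b c P with hv
    set w := val a b c Q with hw
    have hd : w - v ≠ 0 := by
      intro h0
      have : w = v := by linarith
      rw [this] at h
      nlinarith [mul_self_nonneg v]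
    have hα : 0 < w / (w - v) := by
      rcases lt_or_gt_of_ne (show w ≠ 0 by rintro h0; rw [h0] at h; simp at h) with h1 | h1
      · have h2 : 0 < v := by
          by_contra h3; push Not at h3
          nlinarith [mul_nonneg_of_nonpos_of_nonpos h3 h1.le]
        exact div_pos_of_neg_of_neg h1 (by linarith)
      · have h2 : v < 0 := by
          by_contra h3; push Not at h3
          nlinarith [mul_nonneg h3 h1.le]
        exact div_pos h1 (by linarith)
    have hβ : 0 < -v / (w - v) := by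
      rcases lt_or_gt_of_ne (show w ≠ 0 by rintro h0; rw [h0] at h; simp at h) with h1 | h1
      · have h2 : 0 < v := by
          by_contra h3; push Not at h3
          nlinarith [mul_nonneg_of_nonpos_of_nonpos h3 h1.le]
        exact div_pos_of_neg_of_neg (by linarith) (by linarith)
      · have h2 : v < 0 := by
          by_contra h3; push Not at h3
          nlinarith [mul_nonneg h3 h1.le]
        exact div_pos (by linarith) (by linarith)
    have hs : w / (w - v) + -v / (w - v) = 1 := by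
      rw [← add_div]
      rw [div_eq_one_iff_eq hd]
      ring
    refine ⟨(w / (w - v)) • P + (-v / (w - v)) • Q, ⟨_, _, hα, hβ, hs, rfl⟩, ?_⟩
    ext Z
    simp only [Set.mem_inter_iff, Set.mem_singleton_iff]
    constructor
    · rintro ⟨hZ, α, β, hα', hβ', hαβ, rfl⟩
      have h0 := intf_mem_line.1 hZ
      rw [intf_val_comb hαβ, ← hv, ← hw] at h0
      have h1 : α = w / (w - v) := by
        rw [eq_div_iff hd]
        have : β = 1 - α := by linarith
        rw [this] at h0
        linarith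
      have h2 : β = -v / (w - v) := by linarith
      rw [h1, h2]
    · rintro rfl
      refine ⟨intf_mem_line.2 ?_, ⟨_, _, hα.le, hβ.le, hs, rfl⟩⟩
      rw [intf_val_comb hs, ← hv, ← hw]
      field_simp
      ring

private theorem intf_gap (F : Finset (ℝ × ℝ)) (f : ℝ × ℝ → ℝ) :
    ∃ ε : ℝ, 0 < ε ∧ ∀ X ∈ F, f X ≠ 0 → ε ≤ |f X| := by
  classical
  induction F using Finset.induction_on with
  | empty => exact ⟨1, one_pos, fun X hX => absurd hX (Finset.notMem_empty X)⟩
  | insert Y F hY ih =>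
    obtain ⟨ε, hε, h⟩ := ih
    by_cases h0 : f Y = 0
    · refine ⟨ε, hε, fun X hX hX0 => ?_⟩
      rcases Finset.mem_insert.1 hX with rfl | hX'
      · exact absurd h0 hX0
      · exact h X hX' hX0
    · refine ⟨min ε |f Y|, lt_min hε (abs_pos.2 h0), fun X hX hX0 => ?_⟩
      rcases Finset.mem_insert.1 hX with rfl | hX'
      · exact min_le_right _ _
      · exact (min_le_left _ _).trans (h X hX' hX0)

theorem exists_shift (F : Finset (ℝ × ℝ)) (a b c : ℝ) :
    ∃ c' : ℝ, (∀ X ∈ F, val a b c' X ≠ 0) ∧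
      (∀ X ∈ F, 0 < val a b c X → 0 < val a b c' X) ∧
      (∀ X ∈ F, val a b c X < 0 → val a b c' X < 0) := by
  obtain ⟨ε, hε, h⟩ := intf_gap F (val a b c)
  have hv : ∀ X, val a b (c - ε / 2) X = val a b c X + ε / 2 := by
    intro X; unfold val; ring
  have h2 : ∀ X ∈ F, 0 < val a b c X → 0 < val a b (c - ε / 2) X := by
    intro X _ h1; rw [hv]; linarith
  have h3 : ∀ X ∈ F, val a b c X < 0 → val a b (c - ε / 2) X < 0 := by
    intro X hX h1
    have h4 := h X hX h1.ne
    rw [abs_of_neg h1] at h4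
    rw [hv]; linarith
  refine ⟨c - ε / 2, fun X hX => ?_, h2, h3⟩
  rcases lt_trichotomy (val a b c X) 0 with h1 | h1 | h1
  · exact (h3 X hX h1).ne
  · rw [hv, h1]; linarith [hε.ne']
  · exact (h2 X hX h1).ne'

private theorem intf_sep_shift {a b c c' : ℝ} {F : Finset (ℝ × ℝ)} {P Q : ℝ × ℝ}
    (h2 : ∀ X ∈ F, 0 < val a b c X → 0 < val a b c' X)
    (h3 : ∀ X ∈ F, val a b c X < 0 → val a b c' X < 0) (hP : P ∈ F) (hQ : Q ∈ F)
    (h : Sep a b c P Q) : Sep a b c' P Q := by
  unfold Sep at *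
  rcases mul_neg_iff.1 h with ⟨h4, h5⟩ | ⟨h4, h5⟩
  · exact mul_neg_of_pos_of_neg (h2 P hP h4) (h3 Q hQ h5)
  · exact mul_neg_of_neg_of_pos (h3 P hP h4) (h2 Q hQ h5)

open Classical in
theorem treeStab_le {ι K : Type} [Fintype ι] [Fintype K] [Nonempty ι] (p : ι → ℝ × ℝ)
    (src tgt : K → ι) (hconn : ∀ i j, Conn src tgt i j) (S F : Finset (ℝ × ℝ))
    (hS : ∀ X, X ∈ S ↔ ∃ i, p i = X) (n : ℕ)
    (h : ∀ a b c : ℝ, (a ≠ 0 ∨ b ≠ 0) → (∀ i, val a b c (p i) ≠ 0) →
      (∀ X ∈ F, val a b c X ≠ 0) →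
      (Finset.univ.filter fun k => Sep a b c (p (src k)) (p (tgt k))).card ≤ n) :
    treeStab S ≤ n := by
  let m : ι → S := fun i => ⟨p i, (hS _).2 ⟨i, rfl⟩⟩
  have hm : ∀ X : S, ∃ i, m i = X := by
    intro X
    obtain ⟨i, hi⟩ := (hS X.1).1 X.2
    exact ⟨i, Subtype.ext hi⟩
  let g : K → Sym2 S := fun k => s(m (src k), m (tgt k))
  let G : SimpleGraph S :=
    { Adj := fun P Q => P ≠ Q ∧ ∃ k, g k = s(P, Q)
      symm := ⟨fun P Q hPQ => ⟨hPQ.1.symm, by
        obtain ⟨k, hk⟩ := hPQ.2
        exact ⟨k, by rw [hk, Sym2.eq_swap]⟩⟩⟩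
      loopless := ⟨fun P hP => hP.1 rfl⟩ }
  have hstep : ∀ x y, Adj src tgt x y → G.Reachable (m x) (m y) := by
    rintro x y ⟨k, hk⟩
    by_cases hxy : m x = m y
    · rw [hxy]
    · refine SimpleGraph.Adj.reachable ?_
      refine ⟨hxy, k, ?_⟩
      rcases hk with ⟨h1, h2⟩ | ⟨h1, h2⟩
      · change s(m (src k), m (tgt k)) = _
        rw [h1, h2]
      · change s(m (src k), m (tgt k)) = _
        rw [h1, h2, Sym2.eq_swap]
  have hreach : ∀ x y, Conn src tgt x y → G.Reachable (m x) (m y) := by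
    intro x y hxy
    induction hxy with
    | refl => exact SimpleGraph.Reachable.refl _
    | tail _ h2 ih => exact ih.trans (hstep _ _ h2)
  have hG : G.Connected := by
    have : Nonempty S := ⟨m (Classical.arbitrary ι)⟩
    refine SimpleGraph.Connected.mk ?_
    intro P Q
    obtain ⟨i, rfl⟩ := hm P
    obtain ⟨j, rfl⟩ := hm Q
    exact hreach i j (hconn i j)
  obtain ⟨T, hTG, hT⟩ := hG.exists_isTree_le
  refine Nat.sInf_le ⟨T, hT, ?_⟩
  rintro L ⟨a, b, c, hab, rfl⟩
  obtain ⟨c', h1, h2, h3⟩ := exists_shift (S ∪ F) a b c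
  have hcard := h a b c' hab (fun i => h1 _ (Finset.mem_union_left _ (m i).2))
    (fun X hX => h1 X (Finset.mem_union_right _ hX))
  refine le_trans ?_ hcard
  refine le_trans ?_ (Finset.card_image_le (f := g))
  rw [← Set.ncard_coe_finset]
  refine Set.ncard_le_ncard ?_ (Finset.finite_toSet _)
  rintro e ⟨heT, P, Q, rfl, hst⟩
  have hadj : G.Adj P Q := hTG ((SimpleGraph.mem_edgeSet T).1 heT)
  obtain ⟨hne, k, hk⟩ := hadj
  have hne' : (P : ℝ × ℝ) ≠ (Q : ℝ × ℝ) := fun h0 => hne (Subtype.ext h0)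
  have hsep := intf_sep_shift h2 h3 (Finset.mem_union_left _ P.2) (Finset.mem_union_left _ Q.2)
    ((stabs_iff hne').1 hst)
  rw [Finset.coe_image]
  refine ⟨k, ?_, hk⟩
  rw [Finset.mem_coe, Finset.mem_filter]
  refine ⟨Finset.mem_univ _, ?_⟩
  have hk' : s(m (src k), m (tgt k)) = s(P, Q) := hk
  rw [Sym2.eq_iff] at hk'
  rcases hk' with ⟨e1, e2⟩ | ⟨e1, e2⟩
  · have f1 : p (src k) = P := congrArg Subtype.val e1
    have f2 : p (tgt k) = Q := congrArg Subtype.val e2
    rw [f1, f2]
    exact hsep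
  · have f1 : p (src k) = Q := congrArg Subtype.val e1
    have f2 : p (tgt k) = P := congrArg Subtype.val e2
    rw [f1, f2]
    exact hsep.symm

end TSN
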