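import Pool.Agent.TSN.Intf

/-!
Project TSN, module IntfL: the interface with the definition of `treeStab`, lower bounds.
(`stabs_iff` of `Intf.lean` may be used; its proof is another module.)

PLAN.
`exists_tree`: the set `{k | ∃ G, G.IsTree ∧ StabLe G k}` is not empty: the complete graph on the
non-empty type `S` is connected, so it has a spanning tree, and `k =` number of its edges works
(`Set.ncard_le_ncard`); `Nat.sInf_mem`.

`exists_graph`: `p : ι ≃ S` (injective, image `S`); transport the tree `G` of `exists_tree` to the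
graph `T = G.comap` on `ι` (`T.Adj i j ↔ G.Adj ⟨p i, _⟩ ⟨p j, _⟩`), connected.  For a line, the map
`Sym2.map` sends the separated edges of `T` injectively into the edges of `G` stabbed by the
line (`stabs_iff`; the two ends are different because `p` is injective).
-/

namespace TSN

theorem exists_tree (S : Finset (ℝ × ℝ)) (hS : S.Nonempty) :
    ∃ G : SimpleGraph S, G.IsTree ∧ StabLe G (treeStab S) := by
  have hne : Nonempty S := hS.to_subtype
  have hset : {k | ∃ G : SimpleGraph S, G.IsTree ∧ StabLe G k}.Nonempty := by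
    obtain ⟨T, _, hT⟩ := (SimpleGraph.connected_top (V := S)).exists_isTree_le
    refine ⟨T.edgeSet.ncard, T, hT, fun L _ => ?_⟩
    exact Set.ncard_le_ncard (fun e he => he.1) (Set.toFinite _)
  exact Nat.sInf_mem hset

theorem exists_graph {ι : Type} [Fintype ι] [Nonempty ι] (p : ι → ℝ × ℝ)
    (hp : Function.Injective p) (S : Finset (ℝ × ℝ)) (hS : ∀ X, X ∈ S ↔ ∃ i, p i = X) :
    ∃ T : SimpleGraph ι, T.Connected ∧ ∀ a b c : ℝ, (a ≠ 0 ∨ b ≠ 0) →
      {e ∈ T.edgeSet | SepE a b c p e}.ncard ≤ treeStab S := by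
  obtain ⟨i₀⟩ := ‹Nonempty ι›
  obtain ⟨G, hG, hst⟩ := exists_tree S ⟨p i₀, (hS _).2 ⟨i₀, rfl⟩⟩
  have hbij : Function.Bijective (fun i : ι => (⟨p i, (hS _).2 ⟨i, rfl⟩⟩ : S)) := by
    constructor
    · intro i j hij
      exact hp (congrArg Subtype.val hij)
    · rintro ⟨X, hX⟩
      obtain ⟨i, hi⟩ := (hS X).1 hX
      exact ⟨i, Subtype.ext hi⟩
  set f : ι ≃ S := Equiv.ofBijective _ hbij with hf
  have hfv : ∀ i, ((f i : S) : ℝ × ℝ) = p i := fun i => rfl
  refine ⟨G.comap f, (SimpleGraph.Iso.comap f G).connected_iff.2 hG.connected, fun a b c habc => ?_⟩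
  refine le_trans (Set.ncard_le_ncard_of_injOn (Sym2.map f) ?_
    ((Sym2.map.injective f.injective).injOn) (Set.toFinite _)) (hst _ ⟨a, b, c, habc, rfl⟩)
  rintro e ⟨he, i, j, rfl, hsep⟩
  have hadj : G.Adj (f i) (f j) := he
  have hne : p i ≠ p j := by
    intro h
    exact hadj.ne (Subtype.ext h)
  exact ⟨hadj, f i, f j, rfl, (stabs_iff (by rw [hfv, hfv]; exact hne)).2
    (by rw [hfv, hfv]; exact hsep)⟩

end TSN
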