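import Pool.Agent.TSN.LbWords

/-!
Project TSN, module LbCost: an edge inside a station is separated by many planned lines.
(`card_words` may be used; its proof is another module.)

PLAN.  `e = s(x, y)`, both in the station `s`, `u = ext x.2.1`, `u' = ext y.2.1`, terminals
`z, z'`.  For the line of the word `w` (`a = -A`, `b = 1`, `c = B` with `(A, B) = C.F S (ext w)`),
`val P = P.2 - aff (C.F S (ext w)) P.1`, never zero on vertices (`margin` with `n = S`).
Case `Agree s u u'`: then `π l z ≠ π l z'`.  For the words `w` with `Agree s (ext w) u` and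
`w s ∈ {j | h z j * h z' j < 0}` the ends are on different sides (`own`, `P_congr`, `h`-signs; the
values are not zero; `Gad.Good.h_ne`).  `card_words` and `hier`.
Case `¬ Agree s u u'`: `Y s u ≠ Y s u'` (`Y_gap`), say `Y s u' < Y s u` (otherwise exchange `x, y`).
For the words `w` with `Agree s (ext w) u` the point of `y` is not above the line (`other`, with
`P_congr`/`Y_congr`), so it is below, and the point of `x` is above if `0 < h z (w s)` (`own`).  The
number of `j` with `0 < h z j` is at least `m^D - (2/m) m^D` by `low` (`h ≠ 0`), so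
`m * cost ≥ (m - 2) m^D M^(S-s-1) ≥ 2 (m - 2) m^(D-l) M^(S-s-1)` as `m^D ≥ m m^(D-l) ≥ 2 m^(D-l)`.
Here `M = card J`.
-/

namespace TSN

private theorem lcl_val (AB : ℝ × ℝ) (P : ℝ × ℝ) :
    val (-AB.1) 1 AB.2 P = P.2 - aff AB P.1 := by
  unfold val aff
  ring

private theorem lcl_ne {V J E : Type} [Nonempty J]
    {g : Gad V J E} {S : ℕ} (C : Conf g S) {s : ℕ} (hs : s < S) (w w' : ℕ → J) (v : V) :
    (C.P s w' v).2 - aff (C.F S w) (C.P s w' v).1 ≠ 0 := by
  intro h
  have h1 := C.margin S le_rfl s hs w w' v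
  rw [h, abs_zero] at h1
  have h2 := C.δ_nonneg S
  have h3 : 0 ≤ (4 * (S : ℝ) + 9) * C.δ S := by positivity
  linarith

open Classical in
/-- different copies -/
private theorem lcl_diff {V J E Z : Type} [Fintype V] [Fintype J] [Fintype E] [Fintype Z]
    [Nonempty J]
    {g : Gad V J E} {κ : ℕ} (hg : g.Good κ) {emb : Z → V} {m D : ℕ} (hm : 4 ≤ m)
    {π : ℕ → Z → List (Fin m)} (hl : g.Low emb m D π) {S : ℕ} (C : Conf g S)
    {s l : ℕ} (hs : s < S) (h1 : 1 ≤ l) (hlD : l ≤ D) (x y : Fin s → J) (z z' : Z)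
    (hY : C.Y s (ext y) < C.Y s (ext x)) :
    2 * (m - 2) * m ^ (D - l) * Fintype.card J ^ (S - s - 1) ≤
      m * (Finset.univ.filter fun w : Fin S → J =>
        C.SepW emb w s(⟨⟨s, hs⟩, (x, z)⟩, ⟨⟨s, hs⟩, (y, z')⟩)).card := by
  set A : Finset J := Finset.univ.filter fun j => 0 < g.h (emb z) j with hA
  have hcount := card_words hs (ext x) A
  have hsub : (Finset.univ.filter fun w : Fin S → J => Agree s (ext w) (ext x) ∧ ext w s ∈ A) ⊆
      (Finset.univ.filter fun w : Fin S → J =>
        C.SepW emb w s(⟨⟨s, hs⟩, (x, z)⟩, ⟨⟨s, hs⟩, (y, z')⟩)) := by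
    intro w hw
    simp only [Finset.mem_filter, Finset.mem_univ, true_and] at hw ⊢
    obtain ⟨hw1, hw2⟩ := hw
    have hj : 0 < g.h (emb z) (ext w s) := by simpa [hA] using hw2
    refine ⟨_, _, rfl, ?_⟩
    unfold Sep
    rw [lcl_val, lcl_val]
    show ((C.P s (ext x) (emb z)).2 - aff (C.F S (ext w)) (C.P s (ext x) (emb z)).1) *
      ((C.P s (ext y) (emb z')).2 - aff (C.F S (ext w)) (C.P s (ext y) (emb z')).1) < 0
    have e1 : C.P s (ext x) = C.P s (ext w) := (C.P_congr s _ _ hw1).symm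
    have p1 : 0 < (C.P s (ext x) (emb z)).2 - aff (C.F S (ext w)) (C.P s (ext x) (emb z)).1 := by
      rw [e1]
      exact (C.own S le_rfl s hs (ext w) (emb z)).2 hj
    have hag : ¬ Agree s (ext w) (ext y) := by
      intro h
      have h3 : C.Y s (ext x) = C.Y s (ext w) := (C.Y_congr s _ _ hw1).symm
      have h4 : C.Y s (ext w) = C.Y s (ext y) := C.Y_congr s _ _ h
      rw [h3, h4] at hY
      exact lt_irrefl _ hY
    have p2 : ¬ 0 < (C.P s (ext y) (emb z')).2 -
        aff (C.F S (ext w)) (C.P s (ext y) (emb z')).1 := by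
      rw [C.other S le_rfl s hs (ext w) (ext y) (emb z') hag, C.Y_congr s _ _ hw1]
      exact not_lt.2 hY.le
    have p3 := lcl_ne C hs (ext w) (ext y) (emb z')
    have p4 : (C.P s (ext y) (emb z')).2 -
        aff (C.F S (ext w)) (C.P s (ext y) (emb z')).1 < 0 :=
      lt_of_le_of_ne (not_lt.1 p2) p3
    exact mul_neg_of_pos_of_neg p1 p4
  have hle := Finset.card_le_card hsub
  rw [hcount] at hle
  -- the number of positive letters
  have hsplit : A.card + (Finset.univ.filter fun j => g.h (emb z) j < 0).card = m ^ D := by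
    rw [← hl.card_J, ← Finset.card_univ, hA, ← Finset.card_union_of_disjoint]
    · congr 1
      ext j
      simp only [Finset.mem_union, Finset.mem_filter, Finset.mem_univ, true_and, iff_true]
      rcases lt_trichotomy (g.h (emb z) j) 0 with h | h | h
      · exact Or.inr h
      · exact absurd h (hg.h_ne _ _)
      · exact Or.inl h
    · rw [Finset.disjoint_left]
      intro j hj hj'
      simp only [Finset.mem_filter, Finset.mem_univ, true_and] at hj hj'
      linarith
  have hlow := hl.low z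
  have hA2 : (m - 2) * m ^ D ≤ m * A.card := by
    obtain ⟨k, rfl⟩ : ∃ k, m = k + 2 := ⟨m - 2, by omega⟩
    have h5 : (k + 2) * A.card + (k + 2) *
        (Finset.univ.filter fun j => g.h (emb z) j < 0).card = (k + 2) * (k + 2) ^ D := by
      rw [← mul_add, hsplit]
    have h6 : k + 2 - 2 = k := by omega
    rw [h6]
    have h7 : (k + 2) * (k + 2) ^ D = k * (k + 2) ^ D + 2 * (k + 2) ^ D := by ring
    omega
  have hpow : 2 * m ^ (D - l) ≤ m ^ D := by
    have h8 : m ^ D = m ^ l * m ^ (D - l) := by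
      rw [← pow_add]
      congr 1
      omega
    rw [h8]
    apply Nat.mul_le_mul_right
    calc 2 ≤ m := by omega
      _ = m ^ 1 := (pow_one m).symm
      _ ≤ m ^ l := Nat.pow_le_pow_right (by omega) h1
  calc 2 * (m - 2) * m ^ (D - l) * Fintype.card J ^ (S - s - 1)
      = (m - 2) * (2 * m ^ (D - l)) * Fintype.card J ^ (S - s - 1) := by ring
    _ ≤ (m - 2) * m ^ D * Fintype.card J ^ (S - s - 1) := by
        apply Nat.mul_le_mul_right
        exact Nat.mul_le_mul_left _ hpow
    _ ≤ m * A.card * Fintype.card J ^ (S - s - 1) := Nat.mul_le_mul_right _ hA2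
    _ = m * (A.card * Fintype.card J ^ (S - s - 1)) := by ring
    _ ≤ _ := Nat.mul_le_mul_left _ hle

open Classical in
/-- the same copy -/
private theorem lcl_same {V J E Z : Type} [Fintype V] [Fintype J] [Fintype E] [Fintype Z]
    [Nonempty J]
    {g : Gad V J E} {emb : Z → V} {m D : ℕ}
    {π : ℕ → Z → List (Fin m)} (hl : g.Low emb m D π) {S : ℕ} (C : Conf g S)
    {s l : ℕ} (hs : s < S) (h1 : 1 ≤ l) (hlD : l ≤ D) (x : Fin s → J) (z z' : Z)
    (hne : π l z ≠ π l z') :
    2 * (m - 2) * m ^ (D - l) * Fintype.card J ^ (S - s - 1) ≤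
      m * (Finset.univ.filter fun w : Fin S → J =>
        C.SepW emb w s(⟨⟨s, hs⟩, (x, z)⟩, ⟨⟨s, hs⟩, (x, z')⟩)).card := by
  set A : Finset J := Finset.univ.filter fun j => g.h (emb z) j * g.h (emb z') j < 0 with hA
  have hcount := card_words hs (ext x) A
  have hsub : (Finset.univ.filter fun w : Fin S → J => Agree s (ext w) (ext x) ∧ ext w s ∈ A) ⊆
      (Finset.univ.filter fun w : Fin S → J =>
        C.SepW emb w s(⟨⟨s, hs⟩, (x, z)⟩, ⟨⟨s, hs⟩, (x, z')⟩)) := by
    intro w hw
    simp only [Finset.mem_filter, Finset.mem_univ, true_and] at hw ⊢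
    obtain ⟨hw1, hw2⟩ := hw
    have hj : g.h (emb z) (ext w s) * g.h (emb z') (ext w s) < 0 := by simpa [hA] using hw2
    refine ⟨_, _, rfl, ?_⟩
    unfold Sep
    rw [lcl_val, lcl_val]
    show ((C.P s (ext x) (emb z)).2 - aff (C.F S (ext w)) (C.P s (ext x) (emb z)).1) *
      ((C.P s (ext x) (emb z')).2 - aff (C.F S (ext w)) (C.P s (ext x) (emb z')).1) < 0
    have e1 : C.P s (ext x) = C.P s (ext w) := (C.P_congr s _ _ hw1).symm
    rw [e1]
    have o1 := C.own S le_rfl s hs (ext w) (emb z)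
    have o2 := C.own S le_rfl s hs (ext w) (emb z')
    have n1 := lcl_ne C hs (ext w) (ext w) (emb z)
    have n2 := lcl_ne C hs (ext w) (ext w) (emb z')
    rcases mul_neg_iff.1 hj with ⟨a1, a2⟩ | ⟨a1, a2⟩
    · have b1 := o1.2 a1
      have b2 : ¬ 0 < (C.P s (ext w) (emb z')).2 -
          aff (C.F S (ext w)) (C.P s (ext w) (emb z')).1 := by
        rw [o2]
        exact not_lt.2 a2.le
      exact mul_neg_of_pos_of_neg b1 (lt_of_le_of_ne (not_lt.1 b2) n2)
    · have b1 := o2.2 a2
      have b2 : ¬ 0 < (C.P s (ext w) (emb z)).2 -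
          aff (C.F S (ext w)) (C.P s (ext w) (emb z)).1 := by
        rw [o1]
        exact not_lt.2 a1.le
      exact mul_neg_of_neg_of_pos (lt_of_le_of_ne (not_lt.1 b2) n1) b1
  have hle := Finset.card_le_card hsub
  rw [hcount] at hle
  have hh := hl.hier l h1 hlD z z' hne
  calc 2 * (m - 2) * m ^ (D - l) * Fintype.card J ^ (S - s - 1)
      ≤ m * A.card * Fintype.card J ^ (S - s - 1) := Nat.mul_le_mul_right _ hh
    _ = m * (A.card * Fintype.card J ^ (S - s - 1)) := by ring
    _ ≤ _ := Nat.mul_le_mul_left _ hle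

open Classical in
theorem cost_ge {V J E Z : Type} [Fintype V] [Fintype J] [Fintype E] [Fintype Z] [Nonempty J]
    {g : Gad V J E} {κ : ℕ} (hg : g.Good κ) {emb : Z → V} {m D : ℕ} (hm : 4 ≤ m)
    {π : ℕ → Z → List (Fin m)} (hl : g.Low emb m D π) {S : ℕ} (C : Conf g S)
    {s l : ℕ} (hs : s < S) (h1 : 1 ≤ l) (hlD : l ≤ D) (e : Sym2 (TIdx Z J S))
    (he : DiffE π s l e) :
    2 * (m - 2) * m ^ (D - l) * Fintype.card J ^ (S - s - 1) ≤
      m * (Finset.univ.filter fun w : Fin S → J => C.SepW emb w e).card := by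
  obtain ⟨⟨⟨sx, hsx⟩, x, z⟩, ⟨⟨sy, hsy⟩, y, z'⟩, rfl, hx, hy, hne⟩ := he
  simp only at hx hy hne
  subst hx
  subst hy
  by_cases hxy : x = y
  · subst hxy
    have hne' : π l z ≠ π l z' := fun h => hne ⟨fun _ _ => rfl, h⟩
    exact lcl_same hl C hs h1 hlD x z z' hne'
  · have hag : ¬ Agree sy (ext x) (ext y) := by rwa [agree_ext]
    have hYne := (C.Y_gap sy hs _ _ hag).1
    rcases lt_or_gt_of_ne hYne with h | h
    · have := lcl_diff hg hm hl C hs h1 hlD y x z' z h
      rw [Sym2.eq_swap] at this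
      exact this
    · exact lcl_diff hg hm hl C hs h1 hlD x y z z' h

end TSN
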