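import Pool.Agent.TSN.LbDefs

/-!
Project TSN, module LbSum: the summation over the levels and over the stations, an abstract
inequality.  Mathlib only.

`Ed` = the edges, `W` = the planned lines, `R w e` = the line separates the edge, `Df s l e` = the
edge is inside the station `s` and not collapsed at the level `l`, `M = m^D`.

PLAN.  Let `cost e = #{w | R w e}`.  Double counting: `∑ e, cost e = ∑ w #{e | R w e} ≤ K M^S`.
For fixed `s` put `c_l = 2 (m-2) m^(D-l) M^(S-s-1)` for `1 ≤ l ≤ D`, `c_(D+1) = 0` (decreasing).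
For an edge `e` which satisfies `Df s l e` for some `l ∈ [1, D]`, let `l₀` be the smallest such `l`;
then `m cost e ≥ c_(l₀) ≥ ∑ {l ∈ [1,D] : Df s l e} (c_l - c_(l+1))` (telescoping sum over
`l ≥ l₀`).  Summing over the edges of the station `s` (`hst`: an edge is in at most one station):
`m ∑_{e in station s} cost e ≥ ∑_l (c_l - c_(l+1)) #{e | Df s l e}
  ≥ ∑_l (c_l - c_(l+1)) (M^s m^l - 2 K) = M^s ∑_l (c_l - c_(l+1)) m^l - 2 K c_1`, and
`∑_l (c_l - c_(l+1)) m^l ≥ 2 D (m-2) (m-1) m^(D-1) M^(S-s-1)` (for `l < D` the term is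
`2 (m-2)(m-1) m^(D-1) M^(S-s-1)`, for `l = D` it is `2 (m-2) m^D M^(S-s-1)`).
Sum over `s = 1, …, S-1` and divide by `m M^S`:
`K ≥ (S-1) 2 D (m-2)(m-1)/m² - 4 K (m-2)/m² ∑_{s ≥ 1} M^(-s)`, and
`4 (m-2)/m² ≤ 1/2`, `∑_{s ≥ 1} M^(-s) = 1/(M-1) ≤ 2/M ≤ 2/m` (`D ≥ 1`).
-/

namespace TSN

private theorem ls_tele1 (c : ℕ → ℝ) (a n : ℕ) :
    ∑ l ∈ Finset.Ico a (a + n), (c l - c (l + 1)) = c a - c (a + n) := by
  induction n with
  | zero => simp
  | succ n ih =>
    rw [← Nat.add_assoc, Finset.sum_Ico_succ_top (by omega), ih]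
    ring

private theorem ls_tele (c : ℕ → ℝ) (D : ℕ) (hc : ∀ l, c (l + 1) ≤ c l) (h0 : ∀ l, 0 ≤ c l)
    (P : ℕ → Prop) [DecidablePred P] (C : ℝ) (hC : 0 ≤ C)
    (h : ∀ l, 1 ≤ l → l ≤ D → P l → c l ≤ C) :
    ∑ l ∈ (Finset.Icc 1 D).filter P, (c l - c (l + 1)) ≤ C := by
  rcases ((Finset.Icc 1 D).filter P).eq_empty_or_nonempty with he | hne
  · rw [he]; simpa using hC
  · obtain ⟨a, ha, hmin⟩ := Finset.exists_min_image _ (fun l => l) hne
    rw [Finset.mem_filter, Finset.mem_Icc] at ha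
    have hsub : (Finset.Icc 1 D).filter P ⊆ Finset.Ico a (a + (D + 1 - a)) := by
      intro l hl
      have h1 := hmin l hl
      rw [Finset.mem_filter, Finset.mem_Icc] at hl
      rw [Finset.mem_Ico]
      omega
    calc ∑ l ∈ (Finset.Icc 1 D).filter P, (c l - c (l + 1))
        ≤ ∑ l ∈ Finset.Ico a (a + (D + 1 - a)), (c l - c (l + 1)) :=
          Finset.sum_le_sum_of_subset_of_nonneg hsub
            (fun l _ _ => sub_nonneg.2 (hc l))
      _ = c a - c (a + (D + 1 - a)) := ls_tele1 c a _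
      _ ≤ c a := by linarith [h0 (a + (D + 1 - a))]
      _ ≤ C := h a ha.1.1 ha.1.2 ha.2

/-- the weights `c s l` -/
private noncomputable def lsC (q : ℝ) (D S s l : ℕ) : ℝ :=
  if l ≤ D then 2 * (q - 2) * q ^ (D - l) * (q ^ D) ^ (S - s - 1) else 0

private theorem lsC_nonneg {q : ℝ} (hq : 4 ≤ q) (D S s l : ℕ) : 0 ≤ lsC q D S s l := by
  unfold lsC
  split_ifs
  · have h1 : 0 ≤ q ^ (D - l) := by positivity
    have h2 : 0 ≤ (q ^ D) ^ (S - s - 1) := by positivity
    have h3 : 0 ≤ 2 * (q - 2) := by linarith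
    exact mul_nonneg (mul_nonneg h3 h1) h2
  · exact le_refl _

private theorem lsC_anti {q : ℝ} (hq : 4 ≤ q) (D S s l : ℕ) :
    lsC q D S s (l + 1) ≤ lsC q D S s l := by
  by_cases h : l + 1 ≤ D
  · unfold lsC
    rw [if_pos h, if_pos (by omega)]
    have h2 : 0 ≤ (q ^ D) ^ (S - s - 1) := by positivity
    have h3 : 0 ≤ 2 * (q - 2) := by linarith
    have h4 : q ^ (D - (l + 1)) ≤ q ^ (D - l) :=
      pow_le_pow_right₀ (by linarith) (by omega)
    exact mul_le_mul_of_nonneg_right (mul_le_mul_of_nonneg_left h4 h3) h2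
  · have : lsC q D S s (l + 1) = 0 := by
      unfold lsC
      rw [if_neg h]
    rw [this]
    exact lsC_nonneg hq D S s l

private theorem lsC_sum {q : ℝ} {D : ℕ} (hD : 1 ≤ D) (S s : ℕ) :
    ∑ l ∈ Finset.Icc 1 D, (lsC q D S s l - lsC q D S s (l + 1)) =
      2 * (q - 2) * q ^ (D - 1) * (q ^ D) ^ (S - s - 1) := by
  have h1 : Finset.Icc 1 D = Finset.Ico 1 (1 + D) := by
    ext l; simp only [Finset.mem_Icc, Finset.mem_Ico]; omega
  rw [h1, ls_tele1]
  have h2 : lsC q D S s (1 + D) = 0 := by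
    unfold lsC; rw [if_neg (by omega)]
  rw [h2, sub_zero]
  unfold lsC
  rw [if_pos hD]

private theorem lsC_term {q : ℝ} (hq : 4 ≤ q) {D l : ℕ} (hl : 1 ≤ l) (hlD : l ≤ D) (S s : ℕ) :
    2 * (q - 2) * (q - 1) * q ^ (D - 1) * (q ^ D) ^ (S - s - 1) ≤
      (lsC q D S s l - lsC q D S s (l + 1)) * q ^ l := by
  have h2 : 0 ≤ (q ^ D) ^ (S - s - 1) := by positivity
  have h3 : 0 ≤ 2 * (q - 2) := by linarith
  by_cases h : l + 1 ≤ D
  · unfold lsC
    rw [if_pos h, if_pos hlD]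
    have e1 : q ^ (D - l) = q * q ^ (D - (l + 1)) := by
      rw [← pow_succ']; congr 1; omega
    have e2 : q ^ (D - 1) = q ^ (D - (l + 1)) * q ^ l := by
      rw [← pow_add]; congr 1; omega
    rw [e1, e2]
    apply le_of_eq
    ring
  · have hl' : l = D := by omega
    subst hl'
    have h4 : lsC q l S s (l + 1) = 0 := by
      unfold lsC; rw [if_neg (by omega)]
    rw [h4, sub_zero]
    unfold lsC
    rw [if_pos (le_refl l), Nat.sub_self, pow_zero, mul_one]
    have e1 : q ^ l = q * q ^ (l - 1) := by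
      rw [← pow_succ']; congr 1; omega
    have h5 : 0 ≤ q ^ (l - 1) := by positivity
    have h6 : 0 ≤ 2 * (q - 2) * q ^ (l - 1) * (q ^ l) ^ (S - s - 1) :=
      mul_nonneg (mul_nonneg h3 h5) h2
    calc 2 * (q - 2) * (q - 1) * q ^ (l - 1) * (q ^ l) ^ (S - s - 1)
        = (q - 1) * (2 * (q - 2) * q ^ (l - 1) * (q ^ l) ^ (S - s - 1)) := by ring
      _ ≤ q * (2 * (q - 2) * q ^ (l - 1) * (q ^ l) ^ (S - s - 1)) :=
          mul_le_mul_of_nonneg_right (by linarith) h6
      _ = 2 * (q - 2) * (q ^ l) ^ (S - s - 1) * (q * q ^ (l - 1)) := by ring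
      _ = 2 * (q - 2) * (q ^ l) ^ (S - s - 1) * q ^ l := by rw [← e1]

open Classical in
private theorem ls_edge {Ed : Type} (Df : ℕ → ℕ → Ed → Prop) {q : ℝ} (hq : 4 ≤ q) {D S : ℕ}
    (e : Ed) (C : ℝ) (hC : 0 ≤ C)
    (hst : ∀ s s' l l', Df s l e → Df s' l' e → s = s')
    (hcost : ∀ s l, s < S → 1 ≤ l → l ≤ D → Df s l e → lsC q D S s l ≤ C) :
    ∑ s ∈ Finset.Ico 1 S, ∑ l ∈ (Finset.Icc 1 D).filter (fun l => Df s l e),
      (lsC q D S s l - lsC q D S s (l + 1)) ≤ C := by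
  by_cases hex : ∃ s l, Df s l e
  · obtain ⟨s₀, l₀, h₀⟩ := hex
    have hz : ∀ s, s ≠ s₀ → (Finset.Icc 1 D).filter (fun l => Df s l e) = ∅ := by
      intro s hs
      rw [Finset.filter_eq_empty_iff]
      intro l _ hl
      exact hs (hst s s₀ l l₀ hl h₀)
    by_cases hs₀ : s₀ ∈ Finset.Ico 1 S
    · rw [Finset.sum_eq_single_of_mem s₀ hs₀ (fun s _ hs => by rw [hz s hs]; simp)]
      exact ls_tele (lsC q D S s₀) D (lsC_anti hq D S s₀) (lsC_nonneg hq D S s₀) _ C hC
        (fun l h1 h2 h3 => hcost s₀ l (Finset.mem_Ico.1 hs₀).2 h1 h2 h3)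
    · rw [Finset.sum_eq_zero]
      · exact hC
      · intro s hs
        rw [hz s (fun h => hs₀ (h ▸ hs))]
        simp
  · rw [Finset.sum_eq_zero]
    · exact hC
    · intro s _
      rw [Finset.filter_eq_empty_iff.2 (fun l _ hl => hex ⟨s, l, hl⟩)]
      simp

private theorem ls_geom {M : ℝ} (hM : 4 ≤ M) (S : ℕ) (hS : 1 ≤ S) :
    ∑ s ∈ Finset.Ico 1 S, M ^ (S - s - 1) ≤ M ^ (S - 1) * (2 / M) := by
  have h : ∀ n : ℕ, ∑ s ∈ Finset.Ico 1 (n + 1), M ^ (n + 1 - s - 1) ≤ M ^ n * (2 / M) - 2 / M +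
      (if n = 0 then 0 else 0) := by
    intro n
    induction n with
    | zero => simp
    | succ n ih =>
      rw [Finset.sum_Ico_succ_top (by omega)]
      have e1 : ∑ s ∈ Finset.Ico 1 (n + 1), M ^ (n + 1 + 1 - s - 1) =
          M * ∑ s ∈ Finset.Ico 1 (n + 1), M ^ (n + 1 - s - 1) := by
        rw [Finset.mul_sum]
        apply Finset.sum_congr rfl
        intro s hs
        rw [Finset.mem_Ico] at hs
        rw [← pow_succ']
        congr 1
        omega
      rw [e1]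
      have e2 : n + 1 + 1 - (n + 1) - 1 = 0 := by omega
      rw [e2, pow_zero]
      have hM0 : 0 < M := by linarith
      have e3 : M * (2 / M) = 2 := by field_simp
      have h5 : 2 / M ≤ 1 / 2 := by
        rw [div_le_div_iff₀ hM0 (by norm_num)]; linarith
      have h6 := mul_le_mul_of_nonneg_left ih hM0.le
      have e4 : M * (M ^ n * (2 / M) - 2 / M + (if n = 0 then 0 else 0)) =
          M ^ (n + 1) * (2 / M) - 2 := by
        have : (if n = 0 then (0 : ℝ) else 0) = 0 := by split_ifs <;> rfl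
        rw [this, pow_succ]
        linear_combination (-1 : ℝ) * e3
      rw [e4] at h6
      have : (if n + 1 = 0 then (0 : ℝ) else 0) = 0 := by split_ifs <;> rfl
      rw [this]
      linarith
  obtain ⟨n, rfl⟩ : ∃ n, S = n + 1 := ⟨S - 1, by omega⟩
  have h1 := h n
  have : (if n = 0 then (0 : ℝ) else 0) = 0 := by split_ifs <;> rfl
  rw [this] at h1
  have h2 : 0 ≤ 2 / M := by positivity
  have e : n + 1 - 1 = n := by omega
  rw [e]
  linarith

open Classical in
theorem sum_bound {Ed W : Type} [Fintype Ed] [Fintype W] (R : W → Ed → Prop)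
    (Df : ℕ → ℕ → Ed → Prop) {m D S K : ℕ} (hm : 4 ≤ m) (hD : 1 ≤ D) (hS : 1 ≤ S)
    (hW : Fintype.card W = (m ^ D) ^ S)
    (hK : ∀ w, (Finset.univ.filter fun e => R w e).card ≤ K)
    (hst : ∀ s s' l l' e, Df s l e → Df s' l' e → s = s')
    (hcost : ∀ s l e, s < S → 1 ≤ l → l ≤ D → Df s l e →
      2 * (m - 2) * m ^ (D - l) * (m ^ D) ^ (S - s - 1) ≤
        m * (Finset.univ.filter fun w => R w e).card)
    (hmany : ∀ s l, 1 ≤ s → s < S → 1 ≤ l → l ≤ D →
      (m ^ D) ^ s * m ^ l ≤ (Finset.univ.filter fun e => Df s l e).card + 2 * K) :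
    ((S : ℝ) - 1) * (2 * D * ((m : ℝ) - 2) * ((m : ℝ) - 1) / (m : ℝ) ^ 2) ≤
      K * (1 + 1 / (m : ℝ)) := by
  set q : ℝ := (m : ℝ) with hqdef
  have hq : (4 : ℝ) ≤ q := by rw [hqdef]; exact_mod_cast hm
  have hq0 : 0 < q := by linarith
  have hM : (4 : ℝ) ≤ q ^ D := by
    calc (4 : ℝ) ≤ q := hq
      _ = q ^ 1 := (pow_one q).symm
      _ ≤ q ^ D := pow_le_pow_right₀ (by linarith) hD
  have hM0 : 0 < q ^ D := by linarith
  -- double counting
  have hdc : ∑ e : Ed, ((Finset.univ.filter fun w => R w e).card : ℝ) ≤ (q ^ D) ^ S * K := by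
    have e1 : ∑ e : Ed, (Finset.univ.filter fun w => R w e).card =
        ∑ w : W, (Finset.univ.filter fun e => R w e).card := by
      simp_rw [Finset.card_filter]
      exact Finset.sum_comm
    have e2 : ∑ w : W, (Finset.univ.filter fun e => R w e).card ≤ ∑ _w : W, K :=
      Finset.sum_le_sum (fun w _ => hK w)
    rw [Finset.sum_const, Finset.card_univ, hW, smul_eq_mul] at e2
    have e3 : ∑ e : Ed, (Finset.univ.filter fun w => R w e).card ≤ (m ^ D) ^ S * K := by
      rw [e1]; exact e2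
    have e4 : ((∑ e : Ed, (Finset.univ.filter fun w => R w e).card : ℕ) : ℝ) ≤
        (((m ^ D) ^ S * K : ℕ) : ℝ) := by exact_mod_cast e3
    push_cast at e4
    exact e4
  -- the edge inequality
  have hedge : ∀ e : Ed, ∑ s ∈ Finset.Ico 1 S, ∑ l ∈ (Finset.Icc 1 D).filter (fun l => Df s l e),
      (lsC q D S s l - lsC q D S s (l + 1)) ≤
        q * ((Finset.univ.filter fun w => R w e).card : ℝ) := by
    intro e
    apply ls_edge Df hq e _ (by positivity) (fun s s' l l' h h' => hst s s' l l' e h h')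
    intro s l hs hl hlD hdf
    have h1 := hcost s l e hs hl hlD hdf
    have h2 : ((2 * (m - 2) * m ^ (D - l) * (m ^ D) ^ (S - s - 1) : ℕ) : ℝ) ≤
        ((m * (Finset.univ.filter fun w => R w e).card : ℕ) : ℝ) := by exact_mod_cast h1
    rw [Nat.cast_mul, Nat.cast_mul, Nat.cast_mul, Nat.cast_sub (by omega), Nat.cast_mul] at h2
    push_cast at h2
    unfold lsC
    rw [if_pos hlD]
    exact h2
  -- sum over the edges
  have hsum : ∑ e : Ed, ∑ s ∈ Finset.Ico 1 S,
      ∑ l ∈ (Finset.Icc 1 D).filter (fun l => Df s l e),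
        (lsC q D S s l - lsC q D S s (l + 1)) ≤ q * ((q ^ D) ^ S * K) := by
    calc _ ≤ ∑ e : Ed, q * ((Finset.univ.filter fun w => R w e).card : ℝ) :=
          Finset.sum_le_sum (fun e _ => hedge e)
      _ = q * ∑ e : Ed, ((Finset.univ.filter fun w => R w e).card : ℝ) := by
          rw [Finset.mul_sum]
      _ ≤ q * ((q ^ D) ^ S * K) := mul_le_mul_of_nonneg_left hdc hq0.le
  -- exchange
  have hexch : ∑ e : Ed, ∑ s ∈ Finset.Ico 1 S,
      ∑ l ∈ (Finset.Icc 1 D).filter (fun l => Df s l e),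
        (lsC q D S s l - lsC q D S s (l + 1)) =
      ∑ s ∈ Finset.Ico 1 S, ∑ l ∈ Finset.Icc 1 D,
        (lsC q D S s l - lsC q D S s (l + 1)) *
          ((Finset.univ.filter fun e => Df s l e).card : ℝ) := by
    rw [Finset.sum_comm]
    apply Finset.sum_congr rfl
    intro s _
    simp_rw [Finset.sum_filter]
    rw [Finset.sum_comm]
    apply Finset.sum_congr rfl
    intro l _
    rw [← Finset.sum_filter, Finset.sum_const, nsmul_eq_mul, mul_comm]
  rw [hexch] at hsum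
  -- lower bound
  have hlow : ∀ s ∈ Finset.Ico 1 S,
      (q ^ D) ^ s * (D * (2 * (q - 2) * (q - 1) * q ^ (D - 1) * (q ^ D) ^ (S - s - 1))) -
        2 * K * (2 * (q - 2) * q ^ (D - 1) * (q ^ D) ^ (S - s - 1)) ≤
      ∑ l ∈ Finset.Icc 1 D, (lsC q D S s l - lsC q D S s (l + 1)) *
          ((Finset.univ.filter fun e => Df s l e).card : ℝ) := by
    intro s hs
    rw [Finset.mem_Ico] at hs
    have h1 : ∀ l ∈ Finset.Icc 1 D,
        (lsC q D S s l - lsC q D S s (l + 1)) * ((q ^ D) ^ s * q ^ l - 2 * K) ≤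
        (lsC q D S s l - lsC q D S s (l + 1)) *
          ((Finset.univ.filter fun e => Df s l e).card : ℝ) := by
      intro l hl
      rw [Finset.mem_Icc] at hl
      apply mul_le_mul_of_nonneg_left _ (sub_nonneg.2 (lsC_anti hq D S s l))
      have h2 := hmany s l hs.1 hs.2 hl.1 hl.2
      have h3 : (((m ^ D) ^ s * m ^ l : ℕ) : ℝ) ≤
          (((Finset.univ.filter fun e => Df s l e).card + 2 * K : ℕ) : ℝ) := by exact_mod_cast h2
      push_cast at h3
      linarith
    refine le_trans ?_ (Finset.sum_le_sum h1)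
    have h4 : ∑ l ∈ Finset.Icc 1 D,
        (lsC q D S s l - lsC q D S s (l + 1)) * ((q ^ D) ^ s * q ^ l - 2 * K) =
        (q ^ D) ^ s * ∑ l ∈ Finset.Icc 1 D,
          (lsC q D S s l - lsC q D S s (l + 1)) * q ^ l -
        2 * K * ∑ l ∈ Finset.Icc 1 D, (lsC q D S s l - lsC q D S s (l + 1)) := by
      rw [Finset.mul_sum, Finset.mul_sum, ← Finset.sum_sub_distrib]
      apply Finset.sum_congr rfl
      intro l _
      ring
    rw [h4, lsC_sum hD]
    apply sub_le_sub_right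
    apply mul_le_mul_of_nonneg_left _ (by positivity)
    have h5 : ∑ _l ∈ Finset.Icc 1 D,
        (2 * (q - 2) * (q - 1) * q ^ (D - 1) * (q ^ D) ^ (S - s - 1)) ≤
        ∑ l ∈ Finset.Icc 1 D, (lsC q D S s l - lsC q D S s (l + 1)) * q ^ l :=
      Finset.sum_le_sum (fun l hl => by
        rw [Finset.mem_Icc] at hl
        exact lsC_term hq hl.1 hl.2 S s)
    rw [Finset.sum_const, nsmul_eq_mul, Nat.card_Icc, Nat.add_sub_cancel] at h5
    exact h5
  have hall := le_trans (Finset.sum_le_sum hlow) hsum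
  rw [Finset.sum_sub_distrib] at hall
  -- first sum
  have hf : ∑ s ∈ Finset.Ico 1 S,
      (q ^ D) ^ s * (D * (2 * (q - 2) * (q - 1) * q ^ (D - 1) * (q ^ D) ^ (S - s - 1))) =
      ((S : ℝ) - 1) * (D * (2 * (q - 2) * (q - 1) * q ^ (D - 1) * (q ^ D) ^ (S - 1))) := by
    have h1 : ∀ s ∈ Finset.Ico 1 S,
        (q ^ D) ^ s * (D * (2 * (q - 2) * (q - 1) * q ^ (D - 1) * (q ^ D) ^ (S - s - 1))) =
        (D * (2 * (q - 2) * (q - 1) * q ^ (D - 1) * (q ^ D) ^ (S - 1))) := by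
      intro s hs
      rw [Finset.mem_Ico] at hs
      have e : (q ^ D) ^ (S - 1) = (q ^ D) ^ s * (q ^ D) ^ (S - s - 1) := by
        rw [← pow_add]; congr 1; omega
      rw [e]; ring
    rw [Finset.sum_congr rfl h1, Finset.sum_const, nsmul_eq_mul, Nat.card_Ico,
      Nat.cast_sub hS, Nat.cast_one]
  have hg : ∑ s ∈ Finset.Ico 1 S,
      2 * K * (2 * (q - 2) * q ^ (D - 1) * (q ^ D) ^ (S - s - 1)) ≤
      2 * K * (2 * (q - 2) * q ^ (D - 1)) * ((q ^ D) ^ (S - 1) * (2 / q ^ D)) := by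
    have e : ∑ s ∈ Finset.Ico 1 S,
        2 * K * (2 * (q - 2) * q ^ (D - 1) * (q ^ D) ^ (S - s - 1)) =
        2 * K * (2 * (q - 2) * q ^ (D - 1)) * ∑ s ∈ Finset.Ico 1 S, (q ^ D) ^ (S - s - 1) := by
      rw [Finset.mul_sum]
      apply Finset.sum_congr rfl
      intro s _
      ring
    rw [e]
    apply mul_le_mul_of_nonneg_left (ls_geom hM S hS)
    have h3 : 0 ≤ 2 * (q - 2) := by linarith
    positivity
  rw [hf] at hall
  -- divide
  have hfin : ((S : ℝ) - 1) * (D * (2 * (q - 2) * (q - 1) * q ^ (D - 1) * (q ^ D) ^ (S - 1))) ≤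
      q * ((q ^ D) ^ S * K) +
        2 * K * (2 * (q - 2) * q ^ (D - 1)) * ((q ^ D) ^ (S - 1) * (2 / q ^ D)) := by
    linarith
  have e1 : q ^ D = q * q ^ (D - 1) := by
    rw [← pow_succ']; congr 1; omega
  have e2 : (q ^ D) ^ S = q ^ D * (q ^ D) ^ (S - 1) := by
    rw [← pow_succ']; congr 1; omega
  set A : ℝ := q ^ (D - 1) with hA
  set B : ℝ := (q ^ D) ^ (S - 1) with hB
  have hA0 : 0 < A := by rw [hA]; positivity
  have hB0 : 0 < B := by rw [hB]; positivity
  have hA1 : 1 ≤ A := by rw [hA]; exact one_le_pow₀ (by linarith)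
  rw [e2, e1] at hfin
  have hAB : 0 < A * B := mul_pos hA0 hB0
  have hK0 : (0 : ℝ) ≤ K := Nat.cast_nonneg K
  -- the last term
  have hlast : 2 * K * (2 * (q - 2) * A) * (B * (2 / (q * A))) ≤ (K / q) * (q * q * (A * B)) := by
    have h1 : 2 / (q * A) ≤ 2 / q := by
      apply div_le_div_of_nonneg_left (by norm_num) hq0
      nlinarith
    have h2 : 4 * (q - 2) * 2 ≤ q * q := by nlinarith [sq_nonneg (q - 4)]
    have h3 : 0 ≤ 2 * K * (2 * (q - 2) * A) := by
      have h3 : 0 ≤ 2 * (q - 2) := by linarith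
      positivity
    calc 2 * K * (2 * (q - 2) * A) * (B * (2 / (q * A)))
        ≤ 2 * K * (2 * (q - 2) * A) * (B * (2 / q)) := by
          apply mul_le_mul_of_nonneg_left _ h3
          exact mul_le_mul_of_nonneg_left h1 hB0.le
      _ = (K / q) * ((4 * (q - 2) * 2) * (A * B)) := by
          field_simp
          ring
      _ ≤ (K / q) * (q * q * (A * B)) := by
          apply mul_le_mul_of_nonneg_left _ (by positivity)
          exact mul_le_mul_of_nonneg_right h2 hAB.le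
  have hfin2 : ((S : ℝ) - 1) * (2 * D * (q - 2) * (q - 1)) * (A * B) ≤
      (K * (1 + 1 / q) * q ^ 2) * (A * B) := by
    have e3 : ((S : ℝ) - 1) * (D * (2 * (q - 2) * (q - 1) * A * B)) =
        ((S : ℝ) - 1) * (2 * D * (q - 2) * (q - 1)) * (A * B) := by ring
    have e4 : q * (q * A * B * K) + (K / q) * (q * q * (A * B)) =
        (K * (1 + 1 / q) * q ^ 2) * (A * B) := by
      field_simp
    linarith
  have hfin3 := le_of_mul_le_mul_right hfin2 hAB
  have hq2 : 0 < q ^ 2 := by positivity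
  rw [← mul_div_assoc, div_le_iff₀ hq2]
  exact hfin3

end TSN
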