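import Pool.Agent.TSN.LbSt
import Pool.Agent.TSN.LbCost
import Pool.Agent.TSN.LbSum
import Pool.Agent.TSN.IntfL

/-!
Project TSN, module Lb: the lower bound for the tree stabbing number of the terminals.
(The theorems of the imported files may be used; their proofs are other modules.)

PLAN.  `tpt_inj`: different stations: abscissas (`P_x`).  Same station, different words: choose a
full word extending the word of `x`; or: `other`/`own` with `n = S`: the planned line of an
extension `w` of `u` (`w s = j` arbitrary): if the points of `x` and `y` coincide then for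
`Y s u ≠ Y s u'` say `Y s u' < Y s u`; `other` (with `w = ext u`) says that the `y` point is not
above the line `F S (ext u)`-extension; choose the letter `w s` with `0 < g.h (emb z) (w s)` — it
exists because by `low` at most half of the letters are negative — then the `x` point is above.
Contradiction.  Same copy, `z ≠ z'`: `Low.inj` gives `j`, and the line of a word with `w s = j`
separates them (`own`).  (Use words `fun i => if i = s then j else ext u i`, which agree with
`ext u` below `s`.)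

`lb`: `exists_graph` gives the connected graph `T` on `TIdx Z J S` with all lines at most
`K = treeStab S'`.  Apply `sum_bound` with `Ed = T.edgeSet` (or `↥T.edgeSet`),
`W = Fin S → J`, `R w e = C.SepW emb w e`, `Df s l e = DiffE π s l e`; `hK` from the lines
`a = -A`, `b = 1`; `hcost` = `cost_ge`, `hmany` = `station_edges` (convert `Set.ncard` to the
cardinality of the filter on the subtype).
-/

namespace TSN

private theorem lbl_ne {V J E : Type} [Nonempty J]
    {g : Gad V J E} {S : ℕ} (C : Conf g S) {s : ℕ} (hs : s < S) (w w' : ℕ → J) (v : V) :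
    (C.P s w' v).2 - aff (C.F S w) (C.P s w' v).1 ≠ 0 := by
  intro h
  have h1 := C.margin S le_rfl s hs w w' v
  rw [h, abs_zero] at h1
  have h2 := C.δ_nonneg S
  have h3 : 0 ≤ (4 * (S : ℝ) + 9) * C.δ S := by positivity
  linarith

private theorem lbl_pos {V J E Z : Type} [Fintype J] [Fintype Z]
    {g : Gad V J E} {emb : Z → V} {m D : ℕ} (hm : 4 ≤ m)
    {π : ℕ → Z → List (Fin m)} (hl : g.Low emb m D π) (hne : ∀ v j, g.h v j ≠ 0) (z : Z) :
    ∃ j, 0 < g.h (emb z) j := by
  classical
  by_contra hcon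
  push Not at hcon
  have h1 : (Finset.univ.filter fun j => g.h (emb z) j < 0) = Finset.univ := by
    apply Finset.filter_true_of_mem
    intro j _
    exact lt_of_le_of_ne (hcon j) (hne _ _)
  have h2 := hl.low z
  have h3 : (Finset.univ.filter fun j => g.h (emb z) j < 0).card = m ^ D := by
    rw [h1, Finset.card_univ, hl.card_J]
  have h4 : m * m ^ D ≤ 2 * m ^ D := by
    rw [← h3]
    convert h2 using 2
  have h5 : 0 < m ^ D := by positivity
  nlinarith

private theorem lbl_diff {V J E Z : Type} [Fintype V] [Fintype J] [Fintype E] [Fintype Z]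
    [Nonempty J]
    {g : Gad V J E} {κ : ℕ} (hg : g.Good κ) {emb : Z → V} {m D : ℕ} (hm : 4 ≤ m)
    {π : ℕ → Z → List (Fin m)} (hl : g.Low emb m D π) {S : ℕ} (C : Conf g S)
    {s : ℕ} (hs : s < S) (u u' : ℕ → J) (z z' : Z) (hY : C.Y s u' < C.Y s u) :
    C.P s u (emb z) ≠ C.P s u' (emb z') := by
  intro heq
  obtain ⟨j, hj⟩ := lbl_pos hm hl hg.h_ne z
  set w : ℕ → J := fun i => if i = s then j else u i with hw
  have hag : Agree s w u := by
    intro i hi
    simp [hw, hi.ne]
  have hws : w s = j := by simp [hw]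
  have p1 : 0 < (C.P s u (emb z)).2 - aff (C.F S w) (C.P s u (emb z)).1 := by
    rw [← C.P_congr s _ _ hag]
    exact (C.own S le_rfl s hs w (emb z)).2 (by rw [hws]; exact hj)
  have hag' : ¬ Agree s w u' := by
    intro h
    have h4 : C.Y s w = C.Y s u' := C.Y_congr s _ _ h
    have h5 : C.Y s w = C.Y s u := C.Y_congr s _ _ hag
    rw [← h4, ← h5] at hY
    exact lt_irrefl _ hY
  have p2 : ¬ 0 < (C.P s u' (emb z')).2 - aff (C.F S w) (C.P s u' (emb z')).1 := by
    rw [C.other S le_rfl s hs w u' (emb z') hag', C.Y_congr s _ _ hag]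
    exact not_lt.2 hY.le
  rw [heq] at p1
  exact p2 p1

private theorem lbl_same {V J E Z : Type} [Fintype V] [Fintype J] [Fintype E] [Fintype Z]
    [Nonempty J]
    {g : Gad V J E} {emb : Z → V} {m D : ℕ}
    {π : ℕ → Z → List (Fin m)} (hl : g.Low emb m D π) {S : ℕ} (C : Conf g S)
    {s : ℕ} (hs : s < S) (u : ℕ → J) (z z' : Z) (hz : z ≠ z') :
    C.P s u (emb z) ≠ C.P s u (emb z') := by
  intro heq
  obtain ⟨j, hj⟩ := hl.inj z z' hz
  set w : ℕ → J := fun i => if i = s then j else u i with hw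
  have hag : Agree s w u := by
    intro i hi
    simp [hw, hi.ne]
  have hws : w s = j := by simp [hw]
  have o1 := C.own S le_rfl s hs w (emb z)
  have o2 := C.own S le_rfl s hs w (emb z')
  rw [hws, C.P_congr s _ _ hag] at o1 o2
  rw [heq] at o1
  rcases mul_neg_iff.1 hj with ⟨a1, a2⟩ | ⟨a1, a2⟩
  · have := o2.1 (o1.2 a1)
    linarith
  · have := o1.1 (o2.2 a2)
    linarith

theorem tpt_inj {V J E Z : Type} [Fintype V] [Fintype J] [Fintype E] [Fintype Z] [Nonempty J]
    {g : Gad V J E} {κ : ℕ} (hg : g.Good κ) {emb : Z → V} {m D : ℕ} (hm : 4 ≤ m)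
    {π : ℕ → Z → List (Fin m)} (hl : g.Low emb m D π) {S : ℕ} (C : Conf g S) :
    Function.Injective (C.tpt emb) := by
  rintro ⟨⟨s, hs⟩, x, z⟩ ⟨⟨s', hs'⟩, y, z'⟩ heq
  have heq' : C.P s (ext x) (emb z) = C.P s' (ext y) (emb z') := heq
  have hss : s = s' := by
    have h1 := abs_le.1 (C.P_x s hs (ext x) (emb z))
    have h2 := abs_le.1 (C.P_x s' hs' (ext y) (emb z'))
    rw [heq'] at h1
    have h3 : (s : ℝ) < s' + 1 := by linarith [h1.1, h1.2, h2.1, h2.2]
    have h4 : (s' : ℝ) < s + 1 := by linarith [h1.1, h1.2, h2.1, h2.2]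
    have h5 : s < s' + 1 := by exact_mod_cast h3
    have h6 : s' < s + 1 := by exact_mod_cast h4
    omega
  subst hss
  by_cases hxy : x = y
  · subst hxy
    by_cases hz : z = z'
    · rw [hz]
    · exact absurd heq' (lbl_same hl C hs (ext x) z z' hz)
  · exfalso
    have hag : ¬ Agree s (ext x) (ext y) := by rwa [agree_ext]
    rcases lt_or_gt_of_ne (C.Y_gap s hs _ _ hag).1 with h | h
    · exact lbl_diff hg hm hl C hs (ext y) (ext x) z' z h heq'.symm
    · exact lbl_diff hg hm hl C hs (ext x) (ext y) z z' h heq'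

open Classical in
private theorem lbl_card {ι : Type} [Fintype ι] (T : SimpleGraph ι) (p : Sym2 ι → Prop) :
    (Finset.univ.filter fun e : T.edgeSet => p e).card = {e ∈ T.edgeSet | p e}.ncard := by
  have h : {e ∈ T.edgeSet | p e} =
      (((Finset.univ.filter fun e : T.edgeSet => p e).map (Function.Embedding.subtype _) :
        Finset (Sym2 ι)) : Set (Sym2 ι)) := by
    ext e
    simp only [Set.mem_setOf_eq, Finset.coe_map, Finset.coe_filter, Finset.mem_univ, true_and,
      Set.mem_image, Function.Embedding.coe_subtype]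
    constructor
    · rintro ⟨h1, h2⟩
      exact ⟨⟨e, h1⟩, h2, rfl⟩
    · rintro ⟨⟨e', h1⟩, h2, rfl⟩
      exact ⟨h1, h2⟩
  rw [h, Set.ncard_coe_finset, Finset.card_map]

theorem lb {V J E Z : Type} [Fintype V] [Fintype J] [Fintype E] [Fintype Z] [Nonempty J]
    [Nonempty Z] {g : Gad V J E} {κ : ℕ} (hg : g.Good κ) {emb : Z → V} {m D : ℕ} (hm : 4 ≤ m)
    (hD : 1 ≤ D) {π : ℕ → Z → List (Fin m)} (hl : g.Low emb m D π) {S : ℕ} (hS : 1 ≤ S)
    (C : Conf g S) (S' : Finset (ℝ × ℝ)) (hS' : ∀ X, X ∈ S' ↔ ∃ i, C.tpt emb i = X) :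
    ((S : ℝ) - 1) * (2 * D * ((m : ℝ) - 2) * ((m : ℝ) - 1) / (m : ℝ) ^ 2) ≤
      (treeStab S' : ℝ) * (1 + 1 / (m : ℝ)) := by
  classical
  haveI : Nonempty (TIdx Z J S) :=
    ⟨⟨⟨0, hS⟩, fun _ => Classical.arbitrary J, Classical.arbitrary Z⟩⟩
  obtain ⟨T, hT, hK⟩ := exists_graph (C.tpt emb) (tpt_inj hg hm hl C) S' hS'
  refine sum_bound (Ed := T.edgeSet) (W := Fin S → J)
    (fun w e => C.SepW emb w (e : Sym2 (TIdx Z J S)))
    (fun s l e => DiffE π s l (e : Sym2 (TIdx Z J S))) hm hD hS ?_ ?_ ?_ ?_ ?_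
  · rw [Fintype.card_fun, hl.card_J, Fintype.card_fin]
  · intro w
    rw [lbl_card T (fun e => C.SepW emb w e)]
    exact hK _ _ _ (Or.inr one_ne_zero)
  · rintro s s' l l' ⟨e, he⟩ ⟨x, y, h1, h2, h3, -⟩ ⟨x', y', h1', h2', h3', -⟩
    simp only at h1 h1'
    rw [h1] at h1'
    rcases Sym2.eq_iff.1 h1' with ⟨rfl, rfl⟩ | ⟨rfl, rfl⟩
    · exact h2.symm.trans h2'
    · exact h2.symm.trans h3'
  · rintro s l ⟨e, he⟩ hs h1 hlD hdiff
    have := cost_ge hg hm hl C hs h1 hlD e hdiff
    rw [hl.card_J] at this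
    exact this
  · intro s l h1 hs h1l hlD
    have := station_edges hl C T hT (treeStab S') hK h1 hs hlD
    rw [hl.card_J] at this
    rw [lbl_card T (fun e => DiffE π s l e)]
    exact this

end TSN
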