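import Pool.Agent.TSN.Defs

/-!
Project TSN: definitions for the lower bound.
-/

namespace TSN

open Classical in
/-- the properties of the gadget used for the lower bound: `Z` indexes the terminals, `π l` are
nested partitions of the terminals (into `m ^ l` classes), terminals of different classes of the
level `l` are separated by many lines -/
structure Gad.Low {V J E Z : Type} [Fintype J] [Fintype Z] (g : Gad V J E) (emb : Z → V)
    (m D : ℕ) (π : ℕ → Z → List (Fin m)) : Prop where
  card_J : Fintype.card J = m ^ D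
  inj : ∀ z z', z ≠ z' → ∃ j, g.h (emb z) j * g.h (emb z') j < 0
  card_π : ∀ l ≤ D, (Finset.univ.image (π l)).card = m ^ l
  low : ∀ z, m * (Finset.univ.filter fun j => g.h (emb z) j < 0).card ≤ 2 * m ^ D
  hier : ∀ l, 1 ≤ l → l ≤ D → ∀ z z', π l z ≠ π l z' →
    2 * (m - 2) * m ^ (D - l) ≤
      m * (Finset.univ.filter fun j => g.h (emb z) j * g.h (emb z') j < 0).card

/-- indices of the terminals -/
abbrev TIdx (Z J : Type) (S : ℕ) : Type := Σ s : Fin S, (Fin s.val → J) × Z

/-- the terminals -/
noncomputable def Conf.tpt {V J E Z : Type} [Nonempty J] {g : Gad V J E} {S : ℕ} (C : Conf g S)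
    (emb : Z → V) : TIdx Z J S → ℝ × ℝ :=
  fun x => C.P x.1 (ext x.2.1) (emb x.2.2)

/-- the planned line of the full word `w` separates the edge `e` -/
def Conf.SepW {V J E Z : Type} [Nonempty J] {g : Gad V J E} {S : ℕ} (C : Conf g S)
    (emb : Z → V) (w : Fin S → J) (e : Sym2 (TIdx Z J S)) : Prop :=
  SepE (-(C.F S (ext w)).1) 1 (C.F S (ext w)).2 (C.tpt emb) e

/-- both ends of the edge are in the station `s`, and they are in different copies or in different
classes of the level `l` -/
def DiffE {Z J : Type} [Nonempty J] {S m : ℕ} (π : ℕ → Z → List (Fin m)) (s l : ℕ)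
    (e : Sym2 (TIdx Z J S)) : Prop :=
  ∃ x y, e = s(x, y) ∧ x.1.val = s ∧ y.1.val = s ∧
    ¬ (Agree s (ext x.2.1) (ext y.2.1) ∧ π l x.2.2 = π l y.2.2)

end TSN
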