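import Pool.Agent.TSN.LbDefs

/-!
Project TSN, module LbGraph: a connected graph has many edges that are not collapsed by a map:
the image graph is connected, and each of its edges is the image of an edge.
-/

namespace TSN

open Classical in
/-- the image of the graph `T` under the map `f` -/
private noncomputable def lbImg {ι Q : Type} [Fintype ι] (T : SimpleGraph ι) (f : ι → Q) :
    SimpleGraph {q : Q // q ∈ Finset.univ.image f} where
  Adj q q' := q ≠ q' ∧ ∃ x y, T.Adj x y ∧ f x = q.1 ∧ f y = q'.1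
  symm := ⟨fun q q' h => ⟨h.1.symm, by
    obtain ⟨x, y, h1, h2, h3⟩ := h.2
    exact ⟨y, x, h1.symm, h3, h2⟩⟩⟩
  loopless := ⟨fun q h => h.1 rfl⟩

open Classical in
private theorem lbImg_reach {ι Q : Type} [Fintype ι] (T : SimpleGraph ι) (f : ι → Q) {x y : ι}
    (p : T.Walk x y) : (lbImg T f).Reachable
      ⟨f x, Finset.mem_image_of_mem f (Finset.mem_univ x)⟩
      ⟨f y, Finset.mem_image_of_mem f (Finset.mem_univ y)⟩ := by
  induction p with
  | nil => exact SimpleGraph.Reachable.refl _
  | @cons u v w h p ih =>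
    by_cases hf : f u = f v
    · simp only [hf]
      exact ih
    · refine SimpleGraph.Reachable.trans (SimpleGraph.Adj.reachable ?_) ih
      exact ⟨fun he => hf (congrArg Subtype.val he), u, v, h, rfl, rfl⟩

open Classical in
theorem card_cross_ge {ι Q : Type} [Fintype ι] (T : SimpleGraph ι) (hT : T.Connected)
    (f : ι → Q) :
    (Finset.univ.image f).card ≤
      {e ∈ T.edgeSet | ∃ x y, e = s(x, y) ∧ f x ≠ f y}.ncard + 1 := by
  have hc : (lbImg T f).Connected := by
    obtain ⟨x₀⟩ := hT.nonempty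
    have : Nonempty {q : Q // q ∈ Finset.univ.image f} :=
      ⟨⟨f x₀, Finset.mem_image_of_mem f (Finset.mem_univ x₀)⟩⟩
    refine SimpleGraph.Connected.mk ?_
    rintro ⟨q, hq⟩ ⟨q', hq'⟩
    obtain ⟨x, -, rfl⟩ := Finset.mem_image.1 hq
    obtain ⟨y, -, rfl⟩ := Finset.mem_image.1 hq'
    obtain ⟨p⟩ := hT.preconnected x y
    exact lbImg_reach T f p
  have h1 := hc.card_vert_le_card_edgeSet_add_one
  have h2 : Nat.card {q : Q // q ∈ Finset.univ.image f} = (Finset.univ.image f).card := by
    rw [Nat.card_eq_fintype_card, Fintype.card_coe]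
  rw [h2] at h1
  refine h1.trans (Nat.add_le_add_right ?_ 1)
  set A : Set (Sym2 ι) := {e ∈ T.edgeSet | ∃ x y, e = s(x, y) ∧ f x ≠ f y} with hA
  have h3 : Nat.card (lbImg T f).edgeSet = ((Sym2.map Subtype.val) '' (lbImg T f).edgeSet).ncard := by
    rw [Set.ncard_image_of_injective _ (Sym2.map.injective Subtype.val_injective)]
    rfl
  rw [h3]
  have h4 : (Sym2.map Subtype.val) '' (lbImg T f).edgeSet ⊆ (Sym2.map f) '' A := by
    rintro _ ⟨e, he, rfl⟩
    induction e using Sym2.ind with
    | _ q q' =>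
      rw [SimpleGraph.mem_edgeSet] at he
      obtain ⟨hne, x, y, hxy, hx, hy⟩ := he
      refine ⟨s(x, y), ⟨hxy, x, y, rfl, ?_⟩, ?_⟩
      · intro h
        apply hne
        ext
        rw [← hx, ← hy, h]
      · rw [Sym2.map_mk, Sym2.map_mk, hx, hy]
  exact (Set.ncard_le_ncard h4 (Set.toFinite _)).trans (Set.ncard_image_le (Set.toFinite _))

end TSN
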