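import Pool.Agent.TSN.LbGraph

/-!
Project TSN, module LbSt: a connected graph with small stabbing number has many edges inside
the station `s` that are not collapsed at the level `l`.
(`card_cross_ge` may be used; its proof is another module.)

PLAN.  Let `f : TIdx Z J S → Option ((Fin s → J) × List (Fin m))`, `f x = some (x.2.1, π l x.2.2)`
(after the cast; or `some (fun i => ext x.2.1 i, π l x.2.2)`) if `x.1 = s`, `none` otherwise.  Its
image has `card J ^ s * m ^ l + 1` elements (all pairs with second component in the image of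
`π l`, `card_π`; `none` because the station `0` exists, `1 ≤ s`, and `Z` is not empty).  So by
`card_cross_ge` at least `card J ^ s * m ^ l` edges of `T` are not collapsed.  Such an edge has both
ends in the station `s`, and then it satisfies `DiffE π s l`, or exactly one end in the station
`s`; in the second case it is separated by the vertical line `x = s - 1/2` (`a = 1`, `b = 0`,
`c = s - 1/2`) or `x = s + 1/2` (`P_x`), so there are at most `2 K` of these.
`Set.ncard_union_le` etc.; `T.edgeSet` is finite.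
-/

namespace TSN

private theorem lbst_sep {V J E Z : Type} [Nonempty J] {g : Gad V J E} {emb : Z → V} {S : ℕ}
    (C : Conf g S) (x y : TIdx Z J S) {c : ℝ} (h1 : (x.1.val : ℝ) + 1 / 4 < c)
    (h2 : c < (y.1.val : ℝ) - 1 / 4) : Sep 1 0 c (C.tpt emb x) (C.tpt emb y) := by
  have hx := abs_le.1 (C.P_x x.1.val x.1.2 (ext x.2.1) (emb x.2.2))
  have hy := abs_le.1 (C.P_x y.1.val y.1.2 (ext y.2.1) (emb y.2.2))
  unfold Sep val Conf.tpt
  apply mul_neg_of_neg_of_pos
  · linarith [hx.2]
  · linarith [hy.1]

theorem station_edges {V J E Z : Type} [Fintype V] [Fintype J] [Fintype E] [Fintype Z]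
    [Nonempty J] [Nonempty Z]
    {g : Gad V J E} {emb : Z → V} {m D : ℕ} {π : ℕ → Z → List (Fin m)}
    (hl : g.Low emb m D π) {S : ℕ} (C : Conf g S) (T : SimpleGraph (TIdx Z J S))
    (hT : T.Connected) (K : ℕ)
    (hK : ∀ a b c : ℝ, (a ≠ 0 ∨ b ≠ 0) → {e ∈ T.edgeSet | SepE a b c (C.tpt emb) e}.ncard ≤ K)
    {s l : ℕ} (h1 : 1 ≤ s) (hs : s < S) (hlD : l ≤ D) :
    Fintype.card J ^ s * m ^ l ≤ {e ∈ T.edgeSet | DiffE π s l e}.ncard + 2 * K := by
  classical
  set f : TIdx Z J S → Option ((Fin s → J) × List (Fin m)) := fun x =>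
    if x.1.val = s then some (fun i : Fin s => ext x.2.1 i, π l x.2.2) else none with hf
  have hfpos : ∀ x : TIdx Z J S, x.1.val = s →
      f x = some (fun i : Fin s => ext x.2.1 i, π l x.2.2) := fun x hx => if_pos hx
  have hfneg : ∀ x : TIdx Z J S, x.1.val ≠ s → f x = none := fun x hx => if_neg hx
  -- the image of `f`
  have himg : Finset.insertNone ((Finset.univ : Finset (Fin s → J)) ×ˢ (Finset.univ.image (π l))) ⊆
      Finset.univ.image f := by
    intro o ho
    obtain ⟨z₀⟩ := ‹Nonempty Z›
    cases o with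
    | none =>
      refine Finset.mem_image.2 ⟨⟨⟨0, by omega⟩, (fun i => i.elim0, z₀)⟩, Finset.mem_univ _, ?_⟩
      apply hfneg
      show (0 : ℕ) ≠ s
      omega
    | some q =>
      obtain ⟨u, q⟩ := q
      rw [Finset.some_mem_insertNone, Finset.mem_product, Finset.mem_image] at ho
      obtain ⟨_, z, _, hz⟩ := ho
      refine Finset.mem_image.2 ⟨⟨⟨s, hs⟩, (u, z)⟩, Finset.mem_univ _, ?_⟩
      rw [hfpos _ rfl]
      have h3 : (fun i : Fin s => ext (J := J) (s := s) u i) = u := by
        funext i
        exact ext_lt u i.2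
      have h4 : π l z = q := hz
      show some ((fun i : Fin s => ext (J := J) (s := s) u i), π l z) = some (u, q)
      rw [h3, h4]
  have hcard : Fintype.card J ^ s * m ^ l + 1 ≤ (Finset.univ.image f).card := by
    refine le_trans (le_of_eq ?_) (Finset.card_le_card himg)
    rw [Finset.card_insertNone, Finset.card_product, hl.card_π l hlD, Finset.card_univ,
      Fintype.card_fun, Fintype.card_fin]
  have hcross : (Finset.univ.image f).card ≤
      {e ∈ T.edgeSet | ∃ x y, e = s(x, y) ∧ f x ≠ f y}.ncard + 1 := by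
    refine le_trans (le_of_eq ?_) (card_cross_ge T hT f)
    congr
    exact Subsingleton.elim _ _
  have hsub : {e ∈ T.edgeSet | ∃ x y, e = s(x, y) ∧ f x ≠ f y} ⊆
      ({e ∈ T.edgeSet | DiffE π s l e} ∪
        {e ∈ T.edgeSet | SepE 1 0 ((s : ℝ) - 1 / 2) (C.tpt emb) e}) ∪
        {e ∈ T.edgeSet | SepE 1 0 ((s : ℝ) + 1 / 2) (C.tpt emb) e} := by
    rintro e ⟨he, x, y, rfl, hxy⟩
    have hone : ∀ x y : TIdx Z J S, x.1.val = s → y.1.val ≠ s →
        (Sep 1 0 ((s : ℝ) - 1 / 2) (C.tpt emb y) (C.tpt emb x)) ∨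
        (Sep 1 0 ((s : ℝ) + 1 / 2) (C.tpt emb x) (C.tpt emb y)) := by
      intro x y hx hy
      have hxr : (x.1.val : ℝ) = s := by exact_mod_cast hx
      rcases lt_or_gt_of_ne hy with h | h
      · left
        have hyr : (y.1.val : ℝ) + 1 ≤ s := by exact_mod_cast h
        exact lbst_sep C y x (by linarith) (by linarith)
      · right
        have hyr : (s : ℝ) + 1 ≤ y.1.val := by exact_mod_cast h
        exact lbst_sep C x y (by linarith) (by linarith)
    by_cases hx : x.1.val = s
    · by_cases hy : y.1.val = s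
      · left; left
        refine ⟨he, x, y, rfl, hx, hy, ?_⟩
        rintro ⟨h3, h4⟩
        apply hxy
        rw [hfpos x hx, hfpos y hy, h4]
        have h5 : (fun i : Fin s => ext x.2.1 i) = (fun i : Fin s => ext y.2.1 i) := by
          funext i
          exact h3 i i.2
        rw [h5]
      · rcases hone x y hx hy with h | h
        · left; right
          exact ⟨he, x, y, rfl, h.symm⟩
        · right
          exact ⟨he, x, y, rfl, h⟩
    · by_cases hy : y.1.val = s
      · rcases hone y x hy hx with h | h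
        · left; right
          exact ⟨he, x, y, rfl, h⟩
        · right
          exact ⟨he, x, y, rfl, h.symm⟩
      · exact absurd (by rw [hfneg x hx, hfneg y hy]) hxy
  have h3 := Set.ncard_le_ncard hsub (Set.toFinite _)
  have h4 := Set.ncard_union_le ({e ∈ T.edgeSet | DiffE π s l e} ∪
        {e ∈ T.edgeSet | SepE 1 0 ((s : ℝ) - 1 / 2) (C.tpt emb) e})
        {e ∈ T.edgeSet | SepE 1 0 ((s : ℝ) + 1 / 2) (C.tpt emb) e}
  have h5 := Set.ncard_union_le {e ∈ T.edgeSet | DiffE π s l e}
        {e ∈ T.edgeSet | SepE 1 0 ((s : ℝ) - 1 / 2) (C.tpt emb) e}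
  have h6 := hK 1 0 ((s : ℝ) - 1 / 2) (Or.inl one_ne_zero)
  have h7 := hK 1 0 ((s : ℝ) + 1 / 2) (Or.inl one_ne_zero)
  omega

end TSN
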