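import Pool.Agent.TSN.LbDefs

/-!
Project TSN, module LbWords: counting words with a given beginning.  The set is a
`Fintype.piFinset`; the product of the cardinalities is split at `s`.
-/

namespace TSN

open Classical in
theorem card_words {J : Type} [Fintype J] [Nonempty J] {S s : ℕ} (hs : s < S) (u : ℕ → J)
    (A : Finset J) :
    (Finset.univ.filter fun w : Fin S → J => Agree s (ext w) u ∧ ext w s ∈ A).card =
      A.card * Fintype.card J ^ (S - s - 1) := by
  have h1 : (Finset.univ.filter fun w : Fin S → J => Agree s (ext w) u ∧ ext w s ∈ A) =
      Fintype.piFinset (fun i : Fin S => if i.val < s then {u i.val} else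
        if i.val = s then A else Finset.univ) := by
    ext w
    simp only [Finset.mem_filter, Finset.mem_univ, true_and, Fintype.mem_piFinset]
    constructor
    · rintro ⟨hw, hA⟩ i
      by_cases hi : i.val < s
      · simp only [hi, if_true, Finset.mem_singleton]
        have := hw i.val hi
        rwa [ext_lt w i.2] at this
      · by_cases hi2 : i.val = s
        · simp only [hi2, if_true, if_false, lt_irrefl]
          rw [ext_lt w hs] at hA
          have : (⟨s, hs⟩ : Fin S) = i := Fin.ext hi2.symm
          rwa [this] at hA
        · simp [hi, hi2]
    · intro h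
      refine ⟨fun i hi => ?_, ?_⟩
      · have h2 := h ⟨i, hi.trans hs⟩
        simp only [hi, if_true, Finset.mem_singleton] at h2
        rw [ext_lt w (hi.trans hs)]
        exact h2
      · have h2 := h ⟨s, hs⟩
        simp only [lt_irrefl, if_true, if_false] at h2
        rw [ext_lt w hs]
        exact h2
  rw [h1, Fintype.card_piFinset]
  have h3 : ∀ i : Fin S, (if i.val < s then {u i.val} else if i.val = s then A else Finset.univ :
      Finset J).card = (fun k : ℕ => if k < s then 1 else if k = s then A.card
        else Fintype.card J) i.val := by
    intro i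
    by_cases hi : i.val < s
    · simp [hi]
    · by_cases hi2 : i.val = s
      · simp [hi2]
      · simp [hi, hi2]
  rw [Finset.prod_congr rfl fun i _ => h3 i, Fin.prod_univ_eq_prod_range
    (fun k : ℕ => if k < s then 1 else if k = s then A.card else Fintype.card J) S]
  obtain ⟨r, hr⟩ : ∃ r, S = s + 1 + r := ⟨S - s - 1, by omega⟩
  have hr2 : S - s - 1 = r := by omega
  rw [hr2, hr, Finset.prod_range_add, Finset.prod_range_succ]
  have h4 : (∏ x ∈ Finset.range s, (if x < s then 1 else if x = s then A.card
      else Fintype.card J)) = 1 := by
    refine Finset.prod_eq_one fun x hx => ?_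
    simp [Finset.mem_range.mp hx]
  have h5 : (∏ x ∈ Finset.range r, (if s + 1 + x < s then 1 else if s + 1 + x = s then A.card
      else Fintype.card J)) = Fintype.card J ^ r := by
    rw [Finset.prod_congr rfl (g := fun _ => Fintype.card J), Finset.prod_const, Finset.card_range]
    intro x _
    rw [if_neg (by omega), if_neg (by omega)]
  rw [h4, h5]
  simp

end TSN
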