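import Pool.Agent.TSN.Net

/-!
Project TSN, module NetConn: the network is connected (inside the copies, along the stack of
a station, along the base points).
-/

namespace TSN

variable {V J E : Type}

theorem net_conn [Fintype V] [Fintype J] [Fintype E] [Nonempty J] {g : Gad V J E} {κ : ℕ}
    (hg : g.Good κ) {S : ℕ} (C : Conf g S) (i j : Idx V J S) : Conn C.esrc C.etgt i j := by
  have hcopy : ∀ (s : Fin S) (u : Fin s.val → J) (v v' : V),
      Conn C.esrc C.etgt (.inl ⟨s, u, v⟩) (.inl ⟨s, u, v'⟩) := by
    intro s u v v'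
    have h := hg.conn v v'
    induction h with
    | refl => exact Relation.ReflTransGen.refl
    | tail _ h2 ih =>
      refine Conn.trans ih ?_
      obtain ⟨k, ⟨h3, h4⟩ | ⟨h3, h4⟩⟩ := h2
      · subst h3 h4
        exact Conn.edge (src := C.esrc) (tgt := C.etgt) (.inl ⟨s, u, k⟩)
      · subst h3 h4
        exact (Conn.edge (src := C.esrc) (tgt := C.etgt) (.inl ⟨s, u, k⟩)).symm
  have hstat : ∀ (s : Fin S) (n : ℕ) (i : Fin (Fintype.card (Fin s.val → J))),
      Fintype.card (Fin s.val → J) - i.val = n + 1 →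
      Conn C.esrc C.etgt (.inl ⟨s, C.ord s i, g.bt⟩) (.inr s) := by
    intro s n
    induction n with
    | zero =>
      intro i hi
      have he := Conn.edge (src := C.esrc) (tgt := C.etgt) (.inr (.inl ⟨s, i⟩))
      have hn : ¬ (i.val + 1 < Fintype.card (Fin s.val → J)) := by omega
      have h2 : C.etgt (.inr (.inl ⟨s, i⟩)) = .inr s := by
        simp only [Conf.etgt, dif_neg hn]
      rw [h2] at he
      exact he
    | succ n ih =>
      intro i hi
      have he := Conn.edge (src := C.esrc) (tgt := C.etgt) (.inr (.inl ⟨s, i⟩))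
      have hn : i.val + 1 < Fintype.card (Fin s.val → J) := by omega
      have h2 : C.etgt (.inr (.inl ⟨s, i⟩)) = .inl ⟨s, C.ord s ⟨i.val + 1, hn⟩, g.t⟩ := by
        simp only [Conf.etgt, dif_pos hn]
      rw [h2] at he
      refine Conn.trans he (Conn.trans (hcopy s _ g.t g.bt) (ih ⟨i.val + 1, hn⟩ ?_))
      show Fintype.card (Fin s.val → J) - (i.val + 1) = n + 1
      omega
  have hall : ∀ (s : Fin S) (u : Fin s.val → J) (v : V),
      Conn C.esrc C.etgt (.inl ⟨s, u, v⟩) (.inr s) := by
    intro s u v
    refine Conn.trans (hcopy s u v g.bt) ?_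
    have h1 := hstat s (Fintype.card (Fin s.val → J) - ((C.ord s).symm u).val - 1)
      ((C.ord s).symm u) (by have := ((C.ord s).symm u).2; omega)
    rw [Equiv.apply_symm_apply] at h1
    exact h1
  have hbase : ∀ (n : ℕ) (hn : n < S), Conn C.esrc C.etgt (.inr ⟨n, hn⟩)
      (.inr ⟨0, by omega⟩) := by
    intro n
    induction n with
    | zero => intro hn; exact Relation.ReflTransGen.refl
    | succ n ih =>
      intro hn
      have he := Conn.edge (src := C.esrc) (tgt := C.etgt) (.inr (.inr ⟨n, by omega⟩))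
      exact Conn.trans he.symm (ih (by omega))
  have hS : 0 < S := by
    rcases i with x | s
    · exact lt_of_le_of_lt (Nat.zero_le _) x.1.2
    · exact lt_of_le_of_lt (Nat.zero_le _) s.2
  have hz : ∀ x : Idx V J S, Conn C.esrc C.etgt x (.inr ⟨0, hS⟩) := by
    intro x
    rcases x with ⟨s, u, v⟩ | s
    · exact Conn.trans (hall s u v) (hbase s.val s.2)
    · exact hbase s.val s.2
  exact Conn.trans (hz i) (hz j).symm

end TSN
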