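import Pool.Agent.TSN.Net

/-!
Project TSN, module NetSum: the number of separated edges of the network is the sum over the
stations, plus at most 1 for the base edges.
-/

namespace TSN

variable {V J E : Type}

private theorem netsum_nxt [Fintype J] [Nonempty J] {g : Gad V J E} {S : ℕ} (C : Conf g S)
    (s : Fin S) (i : Fin (Fintype.card (Fin s.val → J))) :
    C.pt (C.etgt (.inr (.inl ⟨s, i⟩))) = nxt ((s : ℕ) : ℝ) (C.Q s) g.t i := by
  unfold nxt
  by_cases h : i.val + 1 < Fintype.card (Fin s.val → J)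
  · have h1 : C.etgt (.inr (.inl ⟨s, i⟩)) = .inl ⟨s, C.ord s ⟨i.val + 1, h⟩, g.t⟩ := dif_pos h
    rw [h1, dif_pos h]
    rfl
  · have h1 : C.etgt (.inr (.inl ⟨s, i⟩)) = .inr s := dif_neg h
    rw [h1, dif_neg h]
    rfl

open Classical in
theorem net_sum [Fintype V] [Fintype J] [Fintype E] [Nonempty J] {g : Gad V J E}
    {S : ℕ} (C : Conf g S) (a b c : ℝ) :
    (Finset.univ.filter fun k => Sep a b c (C.pt (C.esrc k)) (C.pt (C.etgt k))).card ≤
      (∑ s : Fin S, cnt g a b c ((s : ℕ) : ℝ) (C.Q s)) + 1 := by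
  rw [Finset.card_filter, Fintype.sum_sum_type, Fintype.sum_sum_type, Fintype.sum_sigma,
    Fintype.sum_sigma, ← add_assoc, ← Finset.sum_add_distrib]
  refine Nat.add_le_add (Finset.sum_le_sum fun s _ => ?_) ?_
  · unfold cnt
    refine Nat.add_le_add ?_ ?_
    · rw [Finset.card_filter]
      refine le_of_eq ?_
      exact (Equiv.sum_comp (Equiv.prodCongr (C.ord s) (Equiv.refl E))
        fun x : (Fin s.val → J) × E =>
          if Sep a b c (C.P s (ext x.1) (g.src x.2)) (C.P s (ext x.1) (g.tgt x.2)) then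
            1 else 0).symm
    · rw [Finset.card_filter]
      refine le_of_eq (Finset.sum_congr rfl fun i _ => ?_)
      rw [netsum_nxt]
      rfl
  · rw [← Finset.card_filter]
    exact lin_changes S a b c

end TSN
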