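import Pool.Agent.TSN.Stat

/-!
Project TSN, module Plan: a line that behaves in a station like a planned line separates at most
`κ` edges there: only edges of the copy `i₀` can be separated, and these are the edges which cross
the line `j` of the gadget.
-/

namespace TSN

variable {V J E : Type}

private theorem plan_not_sep_pos {a b c σ : ℝ} {P R : ℝ × ℝ} (h1 : 0 < val a b c P * σ)
    (h2 : 0 < val a b c R * σ) : ¬ Sep a b c P R := by
  intro h
  unfold Sep at h
  nlinarith [mul_pos h1 h2, sq_nonneg σ]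

private theorem plan_not_sep_neg {a b c σ : ℝ} {P R : ℝ × ℝ} (h1 : val a b c P * σ < 0)
    (h2 : val a b c R * σ < 0) : ¬ Sep a b c P R := by
  intro h
  unfold Sep at h
  nlinarith [mul_pos_of_neg_of_neg h1 h2, sq_nonneg σ]

theorem cnt_planned [Fintype V] [Fintype J] [Fintype E] (g : Gad V J E) {κ : ℕ}
    (hg : g.Good κ) {a b c x₀ σ : ℝ} {N : ℕ} (Q : Fin N → V → ℝ × ℝ) (i₀ : Fin N) (j : J)
    (habove : ∀ i, i < i₀ → ∀ v, 0 < val a b c (Q i v) * σ)
    (hbelow : ∀ i, i₀ < i → ∀ v, val a b c (Q i v) * σ < 0)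
    (hne : ∀ v, val a b c (Q i₀ v) ≠ 0)
    (hown : ∀ v, 0 < val a b c (Q i₀ v) * σ ↔ 0 < g.h v j)
    (hb : val a b c (x₀ + 1 / 25, -2) * σ < 0) :
    cnt g a b c x₀ Q ≤ κ := by
  classical
  have hσ : σ ≠ 0 := by
    rintro rfl
    rw [mul_zero] at hb
    exact lt_irrefl _ hb
  have hneg : ∀ v, g.h v j < 0 → val a b c (Q i₀ v) * σ < 0 := by
    intro v hv
    have h1 : ¬ 0 < val a b c (Q i₀ v) * σ := by
      rw [hown]
      exact not_lt.2 hv.le
    exact lt_of_le_of_ne (not_lt.1 h1) (mul_ne_zero (hne v) hσ)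
  have h2 : (Finset.univ.filter fun i : Fin N =>
      Sep a b c (Q i g.bt) (nxt x₀ Q g.t i)).card = 0 := by
    rw [Finset.card_eq_zero, Finset.filter_eq_empty_iff]
    intro i _
    rcases lt_trichotomy i i₀ with hi | hi | hi
    · have hlt : i.val + 1 < N := by
        have := i₀.isLt
        have h3 : i.val < i₀.val := hi
        omega
      have hn : nxt x₀ Q g.t i = Q ⟨i.val + 1, hlt⟩ g.t := by
        unfold nxt
        rw [dif_pos hlt]
      refine plan_not_sep_pos (σ := σ) (habove i hi g.bt) ?_
      rw [hn]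
      rcases lt_or_eq_of_le (show (⟨i.val + 1, hlt⟩ : Fin N) ≤ i₀ from hi) with h4 | h4
      · exact habove _ h4 g.t
      · rw [h4]
        exact (hown g.t).2 (hg.h_t j)
    · subst hi
      refine plan_not_sep_neg (σ := σ) (hneg g.bt (hg.h_bt j)) ?_
      unfold nxt
      split_ifs with hlt
      · exact hbelow _ (Fin.lt_def.2 (Nat.lt_succ_self _)) g.t
      · exact hb
    · refine plan_not_sep_neg (σ := σ) (hbelow i hi g.bt) ?_
      unfold nxt
      split_ifs with hlt
      · refine hbelow _ (Fin.lt_def.2 ?_) g.t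
        have h3 : i₀.val < i.val := hi
        show i₀.val < i.val + 1
        omega
      · exact hb
  have h1 : (Finset.univ.filter fun ie : Fin N × E =>
      Sep a b c (Q ie.1 (g.src ie.2)) (Q ie.1 (g.tgt ie.2))).card ≤ κ := by
    refine le_trans ?_ (hg.cross j)
    refine Finset.card_le_card_of_injOn Prod.snd ?_ ?_
    · rintro ⟨i, e⟩ hie
      simp only [Finset.coe_filter, Finset.mem_univ, true_and, Set.mem_ofPred_eq] at hie ⊢
      rcases lt_trichotomy i i₀ with hi | hi | hi
      · exact absurd hie (plan_not_sep_pos (σ := σ) (habove i hi _) (habove i hi _))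
      · subst hi
        rcases lt_or_gt_of_ne (hg.h_ne (g.src e) j) with h3 | h3
        · rcases lt_or_gt_of_ne (hg.h_ne (g.tgt e) j) with h4 | h4
          · exact absurd hie (plan_not_sep_neg (σ := σ) (hneg _ h3) (hneg _ h4))
          · exact mul_neg_of_neg_of_pos h3 h4
        · rcases lt_or_gt_of_ne (hg.h_ne (g.tgt e) j) with h4 | h4
          · exact mul_neg_of_pos_of_neg h3 h4
          · exact absurd hie (plan_not_sep_pos (σ := σ) ((hown _).2 h3) ((hown _).2 h4))
      · exact absurd hie (plan_not_sep_neg (σ := σ) (hbelow i hi _) (hbelow i hi _))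
    · rintro ⟨i, e⟩ hie ⟨i', e'⟩ hie' hee
      simp only [Finset.coe_filter, Finset.mem_univ, true_and, Set.mem_ofPred_eq] at hie hie'
      have hall : ∀ k : Fin N, ∀ f : E, Sep a b c (Q k (g.src f)) (Q k (g.tgt f)) → k = i₀ := by
        intro k f hkf
        rcases lt_trichotomy k i₀ with hk | hk | hk
        · exact absurd hkf (plan_not_sep_pos (σ := σ) (habove k hk _) (habove k hk _))
        · exact hk
        · exact absurd hkf (plan_not_sep_neg (σ := σ) (hbelow k hk _) (hbelow k hk _))
      have e1 := hall i e hie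
      have e2 := hall i' e' hie'
      simp only at hee
      rw [e1, e2, hee]
  unfold cnt
  have h3 := Nat.add_le_add h1 h2.le
  rw [add_zero] at h3
  convert h3 using 3

end TSN
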