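import Pool.Agent.TSN.Net
import Pool.Agent.TSN.Plan

/-!
Project TSN, module NetD: stations where the line follows a planned line.
-/

namespace TSN

variable {V J E : Type}

theorem planned [Fintype V] [Fintype J] [Fintype E] [Nonempty J] {g : Gad V J E} {κ : ℕ}
    (hg : g.Good κ) {S : ℕ} (C : Conf g S) {a b c : ℝ} (hb : b ≠ 0)
    (hv : ∀ i, val a b c (C.pt i) ≠ 0) {n : ℕ} (hn : n ≤ S) (w : ℕ → J)
    (hsgn : ∀ s < n, ∀ w' v, (0 < val a b c (C.P s w' v) * b ↔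
        0 < (C.P s w' v).2 - aff (C.F n w) (C.P s w' v).1))
    (hbase : ∀ s < n, val a b c ((s : ℝ) + 1 / 25, -2) * b < 0)
    (s : Fin S) (hs : s.val < n) :
    cnt g a b c ((s : ℕ) : ℝ) (C.Q s) ≤ κ := by
  obtain ⟨i₀, hi₀⟩ : ∃ i₀, C.ord s i₀ = fun i : Fin s.val => w i :=
    ⟨(C.ord s).symm (fun i : Fin s.val => w i), (C.ord s).apply_symm_apply _⟩
  have hag : Agree s.val (ext (C.ord s i₀)) w := by
    intro i hi
    rw [ext_lt _ hi, hi₀]
  have hY : C.Y s.val (ext (C.ord s i₀)) = C.Y s.val w := C.Y_congr _ _ _ hag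
  have hP : C.P s.val (ext (C.ord s i₀)) = C.P s.val w := C.P_congr _ _ _ hag
  have hnag : ∀ i, i ≠ i₀ → ¬ Agree s.val w (ext (C.ord s i)) := by
    intro i hi hcon
    have h1 : C.Y s.val (ext (C.ord s i)) = C.Y s.val (ext (C.ord s i₀)) := by
      rw [hY]
      exact (C.Y_congr _ _ _ hcon).symm
    exact hi ((C.ord_anti s).injective h1)
  refine cnt_planned g hg (σ := b) (C.Q s) i₀ (w s.val) ?_ ?_ ?_ ?_ (hbase s.val hs)
  · intro i hi v
    have h1 : C.Y s.val (ext (C.ord s i₀)) < C.Y s.val (ext (C.ord s i)) := C.ord_anti s hi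
    rw [hY] at h1
    exact (hsgn s.val hs _ v).2 ((C.other n hn s.val hs w _ v (hnag i hi.ne)).2 h1)
  · intro i hi v
    have h1 : C.Y s.val (ext (C.ord s i)) < C.Y s.val (ext (C.ord s i₀)) := C.ord_anti s hi
    rw [hY] at h1
    have h2 : ¬ 0 < val a b c (C.P s.val (ext (C.ord s i)) v) * b := fun h3 =>
      absurd ((C.other n hn s.val hs w _ v (hnag i hi.ne')).1 ((hsgn s.val hs _ v).1 h3))
        (not_lt.2 h1.le)
    have h3 : val a b c (C.P s.val (ext (C.ord s i)) v) ≠ 0 := hv (.inl ⟨s, C.ord s i, v⟩)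
    exact lt_of_le_of_ne (not_lt.1 h2) (mul_ne_zero h3 hb)
  · intro v
    exact hv (.inl ⟨s, C.ord s i₀, v⟩)
  · intro v
    have h1 : C.Q s i₀ v = C.P s.val w v := congrFun hP v
    rw [h1]
    exact (hsgn s.val hs w v).trans (C.own n hn s.val hs w v)

end TSN
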