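import Pool.Agent.TSN.NetB
import Pool.Agent.TSN.NetD
import Pool.Agent.TSN.Follow

/-!
Project TSN, module NetUp: the sum over the stations is at most `κ S + const`.
If some station has two hit copies, then all other stations are quiet.  Otherwise every station
contributes at most `κ`, plus `card E + 1` for the stations of a set with at most `card J + 2`
elements: the stations with a hit which do not follow the planned line.
-/

namespace TSN

variable {V J E : Type}

theorem net_up [Fintype V] [Fintype J] [Fintype E] [Nonempty J] {g : Gad V J E} {κ : ℕ}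
    (hg : g.Good κ) {S : ℕ} (hS : 1 ≤ S) (C : Conf g S) {a b c : ℝ} (hab : a ≠ 0 ∨ b ≠ 0)
    (hv : ∀ i, val a b c (C.pt i) ≠ 0) :
    (∑ s : Fin S, cnt g a b c ((s : ℕ) : ℝ) (C.Q s)) ≤
      κ * S + (Fintype.card J + 2) * (Fintype.card E + 1) := by
  classical
  have hκ : 2 ≤ κ := hg.two_le
  have key : ∀ T : Finset (Fin S), T.card ≤ Fintype.card J + 2 →
      (∀ s : Fin S, cnt g a b c ((s : ℕ) : ℝ) (C.Q s) ≤
        κ + (if s ∈ T then Fintype.card E + 1 else 0)) →
      (∑ s : Fin S, cnt g a b c ((s : ℕ) : ℝ) (C.Q s)) ≤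
      κ * S + (Fintype.card J + 2) * (Fintype.card E + 1) := by
    intro T hT h
    calc (∑ s : Fin S, cnt g a b c ((s : ℕ) : ℝ) (C.Q s))
        ≤ ∑ s : Fin S, (κ + (if s ∈ T then Fintype.card E + 1 else 0)) :=
          Finset.sum_le_sum fun s _ => h s
      _ = κ * S + T.card * (Fintype.card E + 1) := by
          rw [Finset.sum_add_distrib, Finset.sum_const, Finset.card_univ, Fintype.card_fin,
            Finset.sum_ite_mem, Finset.univ_inter, Finset.sum_const]
          simp only [smul_eq_mul]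
          ring
      _ ≤ _ := Nat.add_le_add_left (Nat.mul_le_mul_right _ hT) _
  by_cases hB : ∃ s, 2 ≤ C.hits a b c s
  · obtain ⟨s, hs⟩ := hB
    rw [Finset.sum_eq_single s (fun s' _ hne => quiet C hab hne hs)
      (fun h => absurd (Finset.mem_univ s) h)]
    have h1 := cnt_le_hits C hv s
    have h2 := hits_le_two C (c := c) hab s
    have h3 : C.hits a b c s * (Fintype.card E + 1) ≤
        (Fintype.card J + 2) * (Fintype.card E + 1) := Nat.mul_le_mul_right _ (by omega)
    have h4 : 2 * 1 ≤ κ * S := Nat.mul_le_mul hκ hS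
    omega
  have hle : ∀ s, C.hits a b c s ≤ 1 := fun s => by
    by_contra h
    exact hB ⟨s, by omega⟩
  have hex : ∀ s : Fin S, C.hits a b c s ≠ 0 → ∃ w, Hit a b c (C.P s w) g.t := by
    intro s hs
    unfold Conf.hits at hs
    obtain ⟨i, hi⟩ := Finset.card_ne_zero.1 hs
    exact ⟨ext (C.ord s i), (Finset.mem_filter.1 hi).2⟩
  have h1 : ∀ s : Fin S, cnt g a b c ((s : ℕ) : ℝ) (C.Q s) ≤
      κ + (if C.hits a b c s ≠ 0 then Fintype.card E + 1 else 0) := by
    intro s
    have h2 := cnt_le_hits C hv s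
    have h3 := hle s
    by_cases h0 : C.hits a b c s = 0
    · rw [h0, zero_mul] at h2
      omega
    · have h4 : C.hits a b c s = 1 := by omega
      rw [if_pos h0]
      rw [h4, one_mul] at h2
      omega
  by_cases hD : ∃ s₁ s₂ : Fin S, s₁ < s₂ ∧ C.hits a b c s₁ ≠ 0 ∧ C.hits a b c s₂ ≠ 0
  · obtain ⟨s₁, s₂, h12, hs₁, hs₂⟩ := hD
    obtain ⟨w₁, hw₁⟩ := hex s₁ hs₁
    obtain ⟨w₂, hw₂⟩ := hex s₂ hs₂
    obtain ⟨hb, n, hn, w, hsgn, hbase, hcard⟩ := follow C hab (Fin.lt_def.1 h12) s₂.2 hw₁ hw₂
    refine key (Finset.univ.filter fun s : Fin S => n ≤ s.val ∧ C.hits a b c s ≠ 0) ?_ ?_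
    · refine le_trans ?_ (le_trans hcard (Nat.le_succ _))
      refine Finset.card_le_card_of_injOn Fin.val ?_ Fin.val_injective.injOn
      intro s hs
      have h3 := (Finset.mem_filter.1 (Finset.mem_coe.1 hs)).2
      exact Finset.mem_coe.2 (Finset.mem_filter.2 ⟨Finset.mem_range.2 s.2, h3.1, hex s h3.2⟩)
    · intro s
      by_cases hsn : s.val < n
      · exact (planned hg C hb hv hn w hsgn hbase s hsn).trans (Nat.le_add_right _ _)
      · refine (h1 s).trans (Nat.add_le_add_left ?_ _)
        by_cases h0 : C.hits a b c s ≠ 0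
        · rw [if_pos h0, if_pos (Finset.mem_filter.2 ⟨Finset.mem_univ s, not_lt.1 hsn, h0⟩)]
        · rw [if_neg h0]
          exact Nat.zero_le _
  · refine key (Finset.univ.filter fun s : Fin S => C.hits a b c s ≠ 0) ?_ ?_
    · refine le_trans (Finset.card_le_one.2 ?_) (by omega : 1 ≤ Fintype.card J + 2)
      intro s hs s' hs'
      have h3 := (Finset.mem_filter.1 hs).2
      have h4 := (Finset.mem_filter.1 hs').2
      rcases lt_trichotomy s s' with h5 | h5 | h5
      · exact absurd ⟨s, s', h5, h3, h4⟩ hD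
      · exact h5
      · exact absurd ⟨s', s, h5, h4, h3⟩ hD
    · intro s
      refine (h1 s).trans (Nat.add_le_add_left ?_ _)
      by_cases h0 : C.hits a b c s ≠ 0
      · rw [if_pos h0, if_pos (Finset.mem_filter.2 ⟨Finset.mem_univ s, h0⟩)]
      · rw [if_neg h0]
        exact Nat.zero_le _

end TSN
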