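import Pool.Agent.TSN.Two
import Pool.Agent.TSN.NetConn
import Pool.Agent.TSN.NetSum
import Pool.Agent.TSN.NetUp
import Pool.Agent.TSN.Lb
import Pool.Agent.TSN.GadMake
import Pool.Agent.TSN.Geo

/-!
Project TSN: assembly.
-/

namespace TSN

theorem exists_pair {m : ℕ} (hm : 4 ≤ m) : ∃ C₀ : ℝ, ∀ S : ℕ, 1 ≤ S →
    ∃ T T' : Finset (ℝ × ℝ), T'.Nonempty ∧ T' ⊆ T ∧
      (treeStab T : ℝ) ≤ (m + 1) * S + C₀ ∧
      ((S : ℝ) - 1) * (2 * ((m : ℝ) - 2) * ((m : ℝ) - 1) / (m + 1)) ≤ treeStab T' := by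
  classical
  have hm0 : 0 < m := by omega
  obtain ⟨g, hg, hl⟩ := exists_gad (m := m) (D := m) hm (by omega)
  haveI : Nonempty (Wd m m) := nonempty_Wd hm0 m
  refine ⟨((Fintype.card (Wd m m) + 2) * (Fintype.card (Option (Ed m m)) + 1) + 1 : ℕ), ?_⟩
  intro S hS
  obtain ⟨C⟩ := exists_conf g hg S
  haveI : Nonempty (Idx (Option (Vt m m)) (Wd m m) S) := ⟨Sum.inr ⟨0, hS⟩⟩
  set T : Finset (ℝ × ℝ) := Finset.univ.image C.pt with hT
  set T' : Finset (ℝ × ℝ) := Finset.univ.image (C.tpt fun z : Wd m m => some (em m z)) with hT'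
  have hTm : ∀ X, X ∈ T ↔ ∃ i, C.pt i = X := by
    intro X; simp [hT]
  have hTm' : ∀ X, X ∈ T' ↔ ∃ i, C.tpt (fun z : Wd m m => some (em m z)) i = X := by
    intro X; simp [hT']
  refine ⟨T, T', ?_, ?_, ?_, ?_⟩
  · have z0 : Wd m m := Classical.arbitrary _
    exact ⟨_, (hTm' _).2 ⟨⟨⟨0, hS⟩, fun i => absurd i.2 (by simp), z0⟩, rfl⟩⟩
  · intro X hX
    obtain ⟨x, rfl⟩ := (hTm' X).1 hX
    exact (hTm _).2 ⟨Sum.inl ⟨x.1, x.2.1, some (em m x.2.2)⟩, rfl⟩
  · have h1 : treeStab T ≤ (m + 1) * S +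
        (Fintype.card (Wd m m) + 2) * (Fintype.card (Option (Ed m m)) + 1) + 1 := by
      refine treeStab_le C.pt C.esrc C.etgt (net_conn hg C) T ∅ hTm _ ?_
      intro a b c hab hv _
      have h2 := net_sum C a b c
      have h3 := net_up hg hS C hab hv
      omega
    have h2 : ((treeStab T : ℕ) : ℝ) ≤ (((m + 1) * S +
        (Fintype.card (Wd m m) + 2) * (Fintype.card (Option (Ed m m)) + 1) + 1 : ℕ) : ℝ) := by
      exact_mod_cast h1
    push_cast at h2 ⊢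
    linarith
  · have h1 := lb hg hm (by omega) hl hS C T' hTm'
    have hmR : (4 : ℝ) ≤ m := by exact_mod_cast hm
    have hm1 : (0 : ℝ) < m := by linarith
    have e1 : (1 + 1 / (m : ℝ)) = (m + 1) / m := by field_simp
    rw [e1] at h1
    have e2 : (2 * (m : ℝ) * ((m : ℝ) - 2) * ((m : ℝ) - 1) / (m : ℝ) ^ 2) =
        (2 * ((m : ℝ) - 2) * ((m : ℝ) - 1) / (m + 1)) * ((m + 1) / m) := by
      field_simp
    rw [e2, ← mul_assoc] at h1
    exact le_of_mul_le_mul_right h1 (by positivity)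

theorem main_lower {ε : ℝ} (hε : 0 < ε) (N : ℕ) :
    ∃ T T' : Finset (ℝ × ℝ), T'.Nonempty ∧ T' ⊆ T ∧ N ≤ treeStab T ∧
      (2 - ε) * treeStab T ≤ treeStab T' := by
  -- reduce to `ε ≤ 1`
  set e : ℝ := min ε 1 with he
  have he0 : 0 < e := lt_min hε one_pos
  have he1 : e ≤ 1 := min_le_right _ _
  have heε : e ≤ ε := min_le_left _ _
  obtain ⟨m, hm4, hme⟩ : ∃ m : ℕ, 4 ≤ m ∧ 11 < e * m := by
    obtain ⟨k, hk⟩ := exists_nat_gt (11 / e)
    refine ⟨max k 4, le_max_right _ _, ?_⟩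
    have h1 : 11 < e * k := by
      rw [div_lt_iff₀ he0] at hk
      linarith
    have h2 : (k : ℝ) ≤ ((max k 4 : ℕ) : ℝ) := by exact_mod_cast le_max_left _ _
    nlinarith
  obtain ⟨C₀, hC⟩ := exists_pair hm4
  have hmR : (4 : ℝ) ≤ m := by exact_mod_cast hm4
  set q : ℝ := 2 * ((m : ℝ) - 2) * ((m : ℝ) - 1) / (m + 1) with hq
  have hq0 : 0 < q := by
    rw [hq]
    apply div_pos
    · nlinarith
    · linarith
  -- `q > (2 - e) (m + 1)`
  have hL : 0 < q - (2 - e) * (m + 1) := by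
    have h1 : q * (m + 1) = 2 * ((m : ℝ) - 2) * ((m : ℝ) - 1) := by
      rw [hq]
      field_simp
    have h2 : 0 < (q - (2 - e) * (m + 1)) * (m + 1) := by
      have : (q - (2 - e) * (m + 1)) * (m + 1) =
          2 * ((m : ℝ) - 2) * ((m : ℝ) - 1) - (2 - e) * (m + 1) ^ 2 := by
        rw [sub_mul, h1]; ring
      rw [this]
      nlinarith
    exact (pos_iff_pos_of_mul_pos h2).2 (by linarith)
  set L : ℝ := q - (2 - e) * (m + 1) with hLdef
  obtain ⟨S, hS1⟩ := exists_nat_gt (max (((2 - e) * |C₀| + q) / L) (2 * N / q + 1))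
  have hSa : ((2 - e) * |C₀| + q) / L < S := lt_of_le_of_lt (le_max_left _ _) hS1
  have hSb : 2 * N / q + 1 < S := lt_of_le_of_lt (le_max_right _ _) hS1
  have hS : 1 ≤ S := by
    have : (0 : ℝ) < S := by
      have h0 : 0 ≤ 2 * (N : ℝ) / q := by positivity
      linarith
    exact_mod_cast this
  obtain ⟨T, T', hne, hsub, hup, hlo⟩ := hC S hS
  refine ⟨T, T', hne, hsub, ?_, ?_⟩
  · have h2 := treeStab_le_two_mul T T' hsub hne
    have h2' : (treeStab T' : ℝ) ≤ 2 * treeStab T := by exact_mod_cast h2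
    have h3 : 2 * (N : ℝ) < (S - 1) * q := by
      have h4 : 2 * (N : ℝ) / q < S - 1 := by linarith
      rwa [div_lt_iff₀ hq0] at h4
    have h5 : (N : ℝ) < treeStab T := by linarith
    exact_mod_cast h5.le
  · have h1 : (2 - e) * |C₀| + q < S * L := by
      rwa [div_lt_iff₀ (by exact hL)] at hSa
    have h2 : (2 - e) * treeStab T ≤ (2 - e) * ((m + 1) * S + C₀) := by
      apply mul_le_mul_of_nonneg_left hup
      linarith
    have h3 : (2 - e) * ((m + 1) * S + C₀) ≤ (S - 1) * q := by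
      have h4 : (2 - e) * C₀ ≤ (2 - e) * |C₀| :=
        mul_le_mul_of_nonneg_left (le_abs_self _) (by linarith)
      have h5 : (S : ℝ) * L = S * q - S * ((2 - e) * (m + 1)) := by rw [hLdef]; ring
      nlinarith
    have h6 : (2 - ε) * (treeStab T : ℝ) ≤ (2 - e) * treeStab T := by
      apply mul_le_mul_of_nonneg_right _ (by positivity)
      linarith
    linarith

end TSN
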