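import Pool.Agent.TSN.Stat

/-!
Project TSN: the network (all vertices and edges) of a configuration.  Definitions.
-/

namespace TSN

variable {V J E : Type}

theorem exists_ord [Fintype J] [Nonempty J] {g : Gad V J E} {S : ℕ} (C : Conf g S) (s : Fin S) :
    ∃ e : Fin (Fintype.card (Fin s.val → J)) ≃ (Fin s.val → J),
      StrictAnti fun i => C.Y s (ext (e i)) := by
  classical
  set e0 : Fin (Fintype.card (Fin s.val → J)) ≃ (Fin s.val → J) :=
    (Fintype.equivFin (Fin s.val → J)).symm with he0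
  set f : Fin (Fintype.card (Fin s.val → J)) → ℝ := fun i => - C.Y s (ext (e0 i)) with hf
  refine ⟨(Tuple.sort f).trans e0, ?_⟩
  have hmono : Monotone (f ∘ Tuple.sort f) := Tuple.monotone_sort f
  intro i j hij
  have h1 : f (Tuple.sort f i) ≤ f (Tuple.sort f j) := hmono hij.le
  have h2 : C.Y s (ext (e0 (Tuple.sort f j))) ≤ C.Y s (ext (e0 (Tuple.sort f i))) := by
    simp only [hf] at h1
    linarith
  refine lt_of_le_of_ne h2 ?_
  intro h3
  have hne : ¬ Agree s.val (ext (e0 (Tuple.sort f j))) (ext (e0 (Tuple.sort f i))) := by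
    rw [agree_ext]
    intro h4
    have := (Tuple.sort f).injective (e0.injective h4)
    exact absurd this (ne_of_gt hij)
  exact (C.Y_gap s.val s.2 _ _ hne).1 h3

/-- the words of length `s`, sorted so that `Y` decreases -/
noncomputable def Conf.ord [Fintype J] [Nonempty J] {g : Gad V J E} {S : ℕ} (C : Conf g S)
    (s : Fin S) : Fin (Fintype.card (Fin s.val → J)) ≃ (Fin s.val → J) :=
  (exists_ord C s).choose

theorem Conf.ord_anti [Fintype J] [Nonempty J] {g : Gad V J E} {S : ℕ} (C : Conf g S)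
    (s : Fin S) : StrictAnti fun i => C.Y s (ext (C.ord s i)) :=
  (exists_ord C s).choose_spec

/-- indices of the vertices: copies of the gadget vertices, base points -/
abbrev Idx (V J : Type) (S : ℕ) : Type := (Σ s : Fin S, (Fin s.val → J) × V) ⊕ Fin S

/-- indices of the edges: copies of gadget edges, stacking edges, base edges -/
abbrev EIdx (J E : Type) [Fintype J] (S : ℕ) : Type :=
  (Σ s : Fin S, (Fin s.val → J) × E) ⊕
    (Σ s : Fin S, Fin (Fintype.card (Fin s.val → J))) ⊕ Fin (S - 1)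

/-- the vertices -/
noncomputable def Conf.pt [Nonempty J] {g : Gad V J E} {S : ℕ} (C : Conf g S) :
    Idx V J S → ℝ × ℝ
  | .inl x => C.P x.1 (ext x.2.1) x.2.2
  | .inr s => (((s : ℕ) : ℝ) + 1 / 25, -2)

noncomputable def Conf.esrc [Fintype J] [Nonempty J] {g : Gad V J E} {S : ℕ} (C : Conf g S) :
    EIdx J E S → Idx V J S
  | .inl x => .inl ⟨x.1, x.2.1, g.src x.2.2⟩
  | .inr (.inl x) => .inl ⟨x.1, C.ord x.1 x.2, g.bt⟩
  | .inr (.inr i) => .inr ⟨i.val, by have := i.2; omega⟩

noncomputable def Conf.etgt [Fintype J] [Nonempty J] {g : Gad V J E} {S : ℕ} (C : Conf g S) :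
    EIdx J E S → Idx V J S
  | .inl x => .inl ⟨x.1, x.2.1, g.tgt x.2.2⟩
  | .inr (.inl x) =>
      if h : x.2.val + 1 < Fintype.card (Fin x.1.val → J) then
        .inl ⟨x.1, C.ord x.1 ⟨x.2.val + 1, h⟩, g.t⟩
      else .inr x.1
  | .inr (.inr i) => .inr ⟨i.val + 1, by have := i.2; omega⟩

/-- the copies of the station `s`, in decreasing order -/
noncomputable def Conf.Q [Fintype J] [Nonempty J] {g : Gad V J E} {S : ℕ} (C : Conf g S)
    (s : Fin S) : Fin (Fintype.card (Fin s.val → J)) → V → ℝ × ℝ :=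
  fun i => C.P s (ext (C.ord s i))

end TSN
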