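import Pool.Agent.TSN.Net
import Pool.Agent.TSN.Hits

/-!
Project TSN, module NetA: stations of the network, number of hits.
-/

namespace TSN

variable {V J E : Type}

open Classical in
/-- number of hit copies of the station `s` -/
noncomputable def Conf.hits [Fintype J] [Nonempty J] {g : Gad V J E} {S : ℕ} (C : Conf g S)
    (a b c : ℝ) (s : Fin S) : ℕ :=
  (Finset.univ.filter fun i => Hit a b c (C.Q s i) g.t).card

theorem cnt_le_hits [Fintype J] [Fintype E] [Nonempty J] {g : Gad V J E}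
    {S : ℕ} (C : Conf g S) {a b c : ℝ} (hv : ∀ i, val a b c (C.pt i) ≠ 0) (s : Fin S) :
    cnt g a b c ((s : ℕ) : ℝ) (C.Q s) ≤ C.hits a b c s * (Fintype.card E + 1) + 2 := by
  refine cnt_le g a b c ((s : ℕ) : ℝ) (C.Q s) (fun i => C.Y s (ext (C.ord s i))) (C.ord_anti s)
    (fun i => ?_) (fun i => C.P_t s s.2 _) (fun i v => hv (.inl ⟨s, C.ord s i, v⟩)) (hv (.inr s))
  have h := (abs_le.1 (C.Y_le s s.2 (ext (C.ord s i)))).1
  linarith

theorem hits_le_two [Fintype J] [Nonempty J] {g : Gad V J E}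
    {S : ℕ} (C : Conf g S) {a b c : ℝ} (hab : a ≠ 0 ∨ b ≠ 0) (s : Fin S) :
    C.hits a b c s ≤ 2 := by
  classical
  by_contra hcon
  push Not at hcon
  unfold Conf.hits at hcon
  obtain ⟨i₁, h₁, i₂, h₂, i₃, h₃, n12, n13, n23⟩ := Finset.two_lt_card.1 hcon
  rw [Finset.mem_filter] at h₁ h₂ h₃
  have hag : ∀ {i j : Fin (Fintype.card (Fin s.val → J))}, i ≠ j →
      ¬ Agree s.val (ext (C.ord s i)) (ext (C.ord s j)) := by
    intro i j hij h
    rw [agree_ext] at h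
    exact hij ((C.ord s).injective h)
  exact hits_three hab (C.P_t s s.2 _) (C.P_t s s.2 _) (C.P_t s s.2 _) (C.Y_le s s.2 _)
    (C.Y_le s s.2 _) (C.Y_le s s.2 _) (C.near s s.2 _) (C.near s s.2 _) (C.near s s.2 _)
    (C.Y_gap s s.2 _ _ (hag n12)).1 (C.Y_gap s s.2 _ _ (hag n23)).1
    (C.Y_gap s s.2 _ _ (hag n13)).1 (C.Y_gap s s.2 _ _ (hag n12)).2
    (C.Y_gap s s.2 _ _ (hag n23)).2 (C.Y_gap s s.2 _ _ (hag n13)).2 h₁.2 h₂.2 h₃.2

end TSN
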