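import Pool.Agent.TSN.NetA

/-!
Project TSN, module NetB: a line which hits two copies of one station meets no edge of another
station.
-/

namespace TSN

variable {V J E : Type}

private theorem netb_key {a b p q : ℝ} (hb : |b| ≤ |a| / 50) (hq : |q| ≤ 3)
    (hp : (1 / 2 ≤ p ∧ 0 < a) ∨ (p ≤ -(1 / 2) ∧ a < 0)) : 0 < a * p + b * q := by
  have h1 : |b * q| ≤ |a| / 50 * 3 := by
    rw [abs_mul]
    exact mul_le_mul hb hq (abs_nonneg _) (by positivity)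
  have h2 : -(|a| / 50 * 3) ≤ b * q := (abs_le.mp h1).1
  rcases hp with ⟨h3, h4⟩ | ⟨h3, h4⟩
  · rw [abs_of_pos h4] at h2
    nlinarith
  · rw [abs_of_neg h4] at h2
    nlinarith

theorem quiet [Fintype J] [Fintype E] [Nonempty J] {g : Gad V J E}
    {S : ℕ} (C : Conf g S) {a b c : ℝ} (hab : a ≠ 0 ∨ b ≠ 0) {s s' : Fin S} (hne : s' ≠ s)
    (h2 : 2 ≤ C.hits a b c s) : cnt g a b c ((s' : ℕ) : ℝ) (C.Q s') = 0 := by
  classical
  have h2' : 1 < C.hits a b c s := h2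
  unfold Conf.hits at h2'
  rw [Finset.one_lt_card] at h2'
  obtain ⟨i, hi, i', hi', hii⟩ := h2'
  simp only [Finset.mem_filter, Finset.mem_univ, true_and] at hi hi'
  have hna : ¬ Agree s.val (ext (C.ord s i)) (ext (C.ord s i')) := by
    rw [agree_ext]
    intro h
    exact hii ((C.ord s).injective h)
  have hg := C.Y_gap s.val s.2 _ _ hna
  have hb : |b| ≤ |a| / 50 :=
    hits_steep (C.P_t s.val s.2 (ext (C.ord s i))) (C.P_t s.val s.2 (ext (C.ord s i')))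
      (C.Y_le s.val s.2 _) (C.Y_le s.val s.2 _)
      (fun v => C.near s.val s.2 _ v) (fun v => C.near s.val s.2 _ v) hg.1 hg.2 hi hi'
  have ha : a ≠ 0 := by
    rintro rfl
    rcases hab with h | h
    · exact h rfl
    · rw [abs_zero, zero_div] at hb
      exact h (abs_nonpos_iff.mp hb)
  -- points of positive and negative value
  obtain ⟨Pp, Pm, hPp, hPm, hPp0, hPm0⟩ : ∃ Pp Pm : ℝ × ℝ,
      (|Pp.1 - (s : ℕ)| ≤ 1 / 4 ∧ |Pp.2| ≤ 1) ∧ (|Pm.1 - (s : ℕ)| ≤ 1 / 4 ∧ |Pm.2| ≤ 1) ∧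
      0 < val a b c Pp ∧ val a b c Pm < 0 := by
    obtain ⟨v, hv⟩ := hi
    have e1 := fun v => C.P_x s.val s.2 (ext (C.ord s i)) v
    have e2 := fun v => C.P_y s.val s.2 (ext (C.ord s i)) v
    rcases mul_neg_iff.mp hv with ⟨h3, h4⟩ | ⟨h3, h4⟩
    · exact ⟨_, _, ⟨e1 v, e2 v⟩, ⟨e1 g.t, e2 g.t⟩, h3, h4⟩
    · exact ⟨_, _, ⟨e1 g.t, e2 g.t⟩, ⟨e1 v, e2 v⟩, h4, h3⟩
  have hd : ((s' : ℕ) : ℝ) + 1 ≤ (s : ℕ) ∨ ((s : ℕ) : ℝ) + 1 ≤ (s' : ℕ) := by
    have : (s' : ℕ) ≠ (s : ℕ) := fun h => hne (Fin.ext h)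
    rcases lt_or_gt_of_ne this with h | h
    · left
      exact_mod_cast h
    · right
      exact_mod_cast h
  -- all points of the station s' have values of the same sign
  have hsame : (∀ R : ℝ × ℝ, |R.1 - (s' : ℕ)| ≤ 1 / 4 → |R.2| ≤ 2 → 0 < val a b c R) ∨
      (∀ R : ℝ × ℝ, |R.1 - (s' : ℕ)| ≤ 1 / 4 → |R.2| ≤ 2 → val a b c R < 0) := by
    have hup : ((((s : ℕ) : ℝ) + 1 ≤ (s' : ℕ) ∧ 0 < a) ∨ (((s' : ℕ) : ℝ) + 1 ≤ (s : ℕ) ∧ a < 0)) →
        ∀ R : ℝ × ℝ, |R.1 - (s' : ℕ)| ≤ 1 / 4 → |R.2| ≤ 2 → 0 < val a b c R := by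
      intro hc R hR1 hR2
      have k := netb_key (a := a) (b := b) (p := R.1 - Pp.1) (q := R.2 - Pp.2) hb
        (by
          have := abs_sub R.2 Pp.2
          linarith [hPp.2])
        (by
          have r1 := abs_le.mp hR1
          have r2 := abs_le.mp hPp.1
          rcases hc with ⟨hc1, hc2⟩ | ⟨hc1, hc2⟩
          · exact Or.inl ⟨by linarith [r1.1, r2.2], hc2⟩
          · exact Or.inr ⟨by linarith [r1.2, r2.1], hc2⟩)
      have e : val a b c R = val a b c Pp + (a * (R.1 - Pp.1) + b * (R.2 - Pp.2)) := by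
        unfold val; ring
      rw [e]
      linarith
    have hdn : ((((s : ℕ) : ℝ) + 1 ≤ (s' : ℕ) ∧ a < 0) ∨ (((s' : ℕ) : ℝ) + 1 ≤ (s : ℕ) ∧ 0 < a)) →
        ∀ R : ℝ × ℝ, |R.1 - (s' : ℕ)| ≤ 1 / 4 → |R.2| ≤ 2 → val a b c R < 0 := by
      intro hc R hR1 hR2
      have k := netb_key (a := a) (b := b) (p := Pm.1 - R.1) (q := Pm.2 - R.2) hb
        (by
          have := abs_sub Pm.2 R.2
          linarith [hPm.2])
        (by
          have r1 := abs_le.mp hR1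
          have r2 := abs_le.mp hPm.1
          rcases hc with ⟨hc1, hc2⟩ | ⟨hc1, hc2⟩
          · exact Or.inr ⟨by linarith [r1.1, r2.2], hc2⟩
          · exact Or.inl ⟨by linarith [r1.2, r2.1], hc2⟩)
      have e : val a b c Pm = val a b c R + (a * (Pm.1 - R.1) + b * (Pm.2 - R.2)) := by
        unfold val; ring
      rw [e] at hPm0
      linarith
    rcases hd with hd | hd
    · rcases lt_or_gt_of_ne ha with h | h
      · exact Or.inl (hup (Or.inr ⟨hd, h⟩))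
      · exact Or.inr (hdn (Or.inr ⟨hd, h⟩))
    · rcases lt_or_gt_of_ne ha with h | h
      · exact Or.inr (hdn (Or.inl ⟨hd, h⟩))
      · exact Or.inl (hup (Or.inl ⟨hd, h⟩))
  have hsep : ∀ R R' : ℝ × ℝ, |R.1 - (s' : ℕ)| ≤ 1 / 4 → |R.2| ≤ 2 →
      |R'.1 - (s' : ℕ)| ≤ 1 / 4 → |R'.2| ≤ 2 → ¬ Sep a b c R R' := by
    intro R R' a1 a2 a3 a4 hs
    unfold Sep at hs
    rcases hsame with h | h
    · exact absurd hs (not_lt.mpr (mul_pos (h R a1 a2) (h R' a3 a4)).le)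
    · exact absurd hs (not_lt.mpr (mul_pos_of_neg_of_neg (h R a1 a2) (h R' a3 a4)).le)
  have hQ1 : ∀ i v, |(C.Q s' i v).1 - (s' : ℕ)| ≤ 1 / 4 := fun i v => C.P_x s'.val s'.2 _ v
  have hQ2 : ∀ i v, |(C.Q s' i v).2| ≤ 2 := fun i v =>
    (C.P_y s'.val s'.2 _ v).trans (by norm_num)
  unfold cnt
  rw [Nat.add_eq_zero_iff, Finset.card_eq_zero, Finset.card_eq_zero, Finset.filter_eq_empty_iff,
    Finset.filter_eq_empty_iff]
  constructor
  · intro ie _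
    exact hsep _ _ (hQ1 _ _) (hQ2 _ _) (hQ1 _ _) (hQ2 _ _)
  · intro k _
    have hn : |(nxt ((s' : ℕ) : ℝ) (C.Q s') g.t k).1 - (s' : ℕ)| ≤ 1 / 4 ∧
        |(nxt ((s' : ℕ) : ℝ) (C.Q s') g.t k).2| ≤ 2 := by
      unfold nxt
      split_ifs with h
      · exact ⟨hQ1 _ _, hQ2 _ _⟩
      · constructor
        · show |((s' : ℕ) : ℝ) + 1 / 25 - (s' : ℕ)| ≤ 1 / 4
          rw [add_sub_cancel_left]
          rw [abs_of_pos (by norm_num)]
          norm_num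
        · show |(-2 : ℝ)| ≤ 2
          rw [abs_neg, abs_of_pos (by norm_num)]
    exact hsep _ _ (hQ1 _ _) (hQ2 _ _) hn.1 hn.2

end TSN
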