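import Pool.Agent.TSN.Chain

/-!
Project TSN, module Stat: the number of separated edges in one station.
(`quad_changes` of `Chain.lean` may be used.)

A station: gadget copies `Q i : V → ℝ × ℝ`, `i : Fin N`, with tops `Q i t = (x₀ + y_i²/100, y_i)`,
`y` strictly decreasing; the bottom of the copy `i` is joined to the top of the copy `i+1`, the
last one to the base point `(x₀ + 1/25, -2)`.

The first summand is at most `#hits * card E`, because in a copy that is not hit no edge is
separated.  For a separated `i` of the second summand either `i` is hit, or the quadratic polynomial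
`val` along the tops (continued by the base point) changes sign between `i` and `i + 1`, which
happens at most twice (`quad_changes`).
-/

namespace TSN

variable {V J E : Type}

/-- the copy `R` of the gadget is hit by the line -/
def Hit (a b c : ℝ) (R : V → ℝ × ℝ) (t : V) : Prop := ∃ v, Sep a b c (R v) (R t)

/-- the vertex below the copy `i` -/
noncomputable def nxt (x₀ : ℝ) {N : ℕ} (Q : Fin N → V → ℝ × ℝ) (t : V) (i : Fin N) : ℝ × ℝ :=
  if h : i.val + 1 < N then Q ⟨i.val + 1, h⟩ t else (x₀ + 1 / 25, -2)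

open Classical in
/-- number of separated edges of the station -/
noncomputable def cnt [Fintype E] (g : Gad V J E) (a b c x₀ : ℝ) {N : ℕ}
    (Q : Fin N → V → ℝ × ℝ) : ℕ :=
  (Finset.univ.filter fun ie : Fin N × E =>
    Sep a b c (Q ie.1 (g.src ie.2)) (Q ie.1 (g.tgt ie.2))).card +
  (Finset.univ.filter fun i : Fin N => Sep a b c (Q i g.bt) (nxt x₀ Q g.t i)).card

open Classical in
theorem cnt_le [Fintype E] (g : Gad V J E) (a b c x₀ : ℝ) {N : ℕ}
    (Q : Fin N → V → ℝ × ℝ) (y : Fin N → ℝ) (hy : StrictAnti y) (hy2 : ∀ i, -2 < y i)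
    (ht : ∀ i, Q i g.t = (x₀ + y i ^ 2 / 100, y i)) (hv : ∀ i v, val a b c (Q i v) ≠ 0)
    (hb : val a b c (x₀ + 1 / 25, -2) ≠ 0) :
    cnt g a b c x₀ Q ≤
      (Finset.univ.filter fun i => Hit a b c (Q i) g.t).card * (Fintype.card E + 1) + 2 := by
  obtain ⟨q, hqc, hql⟩ : ∃ q : Fin (N + 1) → ℝ, (∀ i : Fin N, q i.castSucc = y i) ∧
      q (Fin.last N) = -2 :=
    ⟨Fin.snoc (α := fun _ => ℝ) y (-2), fun i => by simp, by simp⟩
  have hq : StrictAnti q := by
    rw [Fin.strictAnti_iff_succ_lt]
    intro i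
    rw [hqc]
    by_cases h : i.val + 1 < N
    · have h1 : i.succ = Fin.castSucc ⟨i.val + 1, h⟩ := Fin.ext rfl
      rw [h1, hqc]
      exact hy (Fin.lt_def.2 (Nat.lt_succ_self _))
    · have h1 : i.succ = Fin.last N := Fin.ext (by
        have := i.2
        rw [Fin.val_succ, Fin.val_last]
        omega)
      rw [h1, hql]
      exact hy2 i
  have hval : ∀ z : ℝ, val a b c (x₀ + z ^ 2 / 100, z) = a / 100 * z ^ 2 + b * z + (a * x₀ - c) := by
    intro z
    simp only [val]
    ring
  have hval2 : val a b c (x₀ + 1 / 25, -2) = a / 100 * (-2) ^ 2 + b * (-2) + (a * x₀ - c) := by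
    simp only [val]
    ring
  have h0 : ∀ i, a / 100 * q i ^ 2 + b * q i + (a * x₀ - c) ≠ 0 := by
    intro i
    refine Fin.lastCases ?_ (fun i => ?_) i
    · rw [hql, ← hval2]
      exact hb
    · rw [hqc, ← hval, ← ht]
      exact hv i g.t
  have hnx : ∀ i : Fin N, val a b c (nxt x₀ Q g.t i) =
      a / 100 * q i.succ ^ 2 + b * q i.succ + (a * x₀ - c) := by
    intro i
    unfold nxt
    by_cases h : i.val + 1 < N
    · have h1 : i.succ = Fin.castSucc ⟨i.val + 1, h⟩ := Fin.ext rfl
      rw [dif_pos h, h1, hqc, ht, hval]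
    · have h1 : i.succ = Fin.last N := Fin.ext (by
        have := i.2
        rw [Fin.val_succ, Fin.val_last]
        omega)
      rw [dif_neg h, h1, hql, hval2]
  have htop : ∀ i : Fin N, val a b c (Q i g.t) =
      a / 100 * q i.castSucc ^ 2 + b * q i.castSucc + (a * x₀ - c) := by
    intro i
    rw [ht, hval, hqc]
  obtain ⟨C, hC2, hC⟩ : ∃ C : Finset (Fin N), C.card ≤ 2 ∧
      ∀ i, val a b c (Q i g.t) * val a b c (nxt x₀ Q g.t i) < 0 → i ∈ C := by
    refine ⟨_, quad_changes q hq (a / 100) b (a * x₀ - c) h0, fun i hi => ?_⟩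
    rw [htop, hnx] at hi
    exact Finset.mem_filter.2 ⟨Finset.mem_univ i, hi⟩
  have hnh : ∀ i, ¬ Hit a b c (Q i) g.t → ∀ v, 0 < val a b c (Q i v) * val a b c (Q i g.t) := by
    intro i hi v
    have h1 : ¬ Sep a b c (Q i v) (Q i g.t) := fun h => hi ⟨v, h⟩
    have h2 : 0 ≤ val a b c (Q i v) * val a b c (Q i g.t) := not_lt.1 h1
    exact lt_of_le_of_ne h2 (Ne.symm (mul_ne_zero (hv i v) (hv i g.t)))
  obtain ⟨H, hH⟩ : ∃ H : Finset (Fin N), H = Finset.univ.filter fun i => Hit a b c (Q i) g.t :=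
    ⟨_, rfl⟩
  have hmem : ∀ i, i ∉ H → ¬ Hit a b c (Q i) g.t := by
    intro i hi h
    apply hi
    rw [hH]
    exact Finset.mem_filter.2 ⟨Finset.mem_univ i, h⟩
  have hA : (Finset.univ.filter fun ie : Fin N × E =>
      Sep a b c (Q ie.1 (g.src ie.2)) (Q ie.1 (g.tgt ie.2))).card ≤ H.card * Fintype.card E := by
    rw [← Finset.card_univ (α := E), ← Finset.card_product]
    apply Finset.card_le_card
    rintro ⟨i, e⟩ hie
    have h1 : Sep a b c (Q i (g.src e)) (Q i (g.tgt e)) := (Finset.mem_filter.1 hie).2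
    refine Finset.mem_product.2 ⟨?_, Finset.mem_univ _⟩
    by_contra hi
    have h2 := hnh i (hmem i hi) (g.src e)
    have h3 := hnh i (hmem i hi) (g.tgt e)
    have h4 : val a b c (Q i (g.src e)) * val a b c (Q i (g.tgt e)) < 0 := h1
    have h5 := mul_pos h2 h3
    have h6 : val a b c (Q i (g.src e)) * val a b c (Q i g.t) *
        (val a b c (Q i (g.tgt e)) * val a b c (Q i g.t)) =
        val a b c (Q i (g.src e)) * val a b c (Q i (g.tgt e)) * val a b c (Q i g.t) ^ 2 := by ring
    rw [h6] at h5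
    have h7 := mul_nonpos_of_nonpos_of_nonneg h4.le (sq_nonneg (val a b c (Q i g.t)))
    linarith
  have hB : (Finset.univ.filter fun i : Fin N => Sep a b c (Q i g.bt) (nxt x₀ Q g.t i)).card ≤
      H.card + 2 := by
    refine le_trans (Finset.card_le_card (t := H ∪ C) ?_) ((Finset.card_union_le _ _).trans
      (Nat.add_le_add_left hC2 _))
    intro i hi
    have h1 : val a b c (Q i g.bt) * val a b c (nxt x₀ Q g.t i) < 0 := (Finset.mem_filter.1 hi).2
    rw [Finset.mem_union]
    by_cases hiH : i ∈ H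
    · exact Or.inl hiH
    · refine Or.inr (hC i ?_)
      have h2 := hnh i (hmem i hiH) g.bt
      have h3 := mul_neg_of_pos_of_neg h2 h1
      have h4 : val a b c (Q i g.bt) * val a b c (Q i g.t) *
          (val a b c (Q i g.bt) * val a b c (nxt x₀ Q g.t i)) =
          val a b c (Q i g.bt) ^ 2 * (val a b c (Q i g.t) * val a b c (nxt x₀ Q g.t i)) := by ring
      rw [h4] at h3
      by_contra h5
      have h6 := mul_nonneg (sq_nonneg (val a b c (Q i g.bt))) (not_lt.1 h5)
      linarith
  unfold cnt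
  rw [← hH]
  calc _ ≤ H.card * Fintype.card E + (H.card + 2) := Nat.add_le_add hA hB
    _ = H.card * (Fintype.card E + 1) + 2 := by ring

end TSN
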