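import Pool.Agent.TSN.IntfL
import Pool.Agent.TSN.Eul

/-!
Project TSN, module Two: `treeStab S' ≤ 2 treeStab S` for `S' ⊆ S` (the doubling argument).
-/

namespace TSN

open Classical in
private theorem cuts_eq_sum {α : Type} (A : α → Prop) (x₀ : α) (L : List α) :
    cuts A L = ∑ k ∈ Finset.range (L.length - 1),
      (if (A (L.getD k x₀) ↔ A (L.getD (k + 1) x₀)) then 0 else 1) := by
  induction L with
  | nil => rfl
  | cons x t ih =>
    cases t with
    | nil => rfl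
    | cons y t =>
      have h1 : (x :: y :: t).length - 1 = ((y :: t).length - 1) + 1 := by
        simp only [List.length_cons]
        omega
      rw [h1, Finset.sum_range_succ', show cuts A (x :: y :: t) =
        (if (A x ↔ A y) then 0 else 1) + cuts A (y :: t) from rfl, ih]
      simp only [List.getD_cons_succ, List.getD_cons_zero]
      exact Nat.add_comm _ _

theorem treeStab_le_two_mul (S S' : Finset (ℝ × ℝ)) (h : S' ⊆ S) (hne : S'.Nonempty) :
    treeStab S' ≤ 2 * treeStab S := by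
  classical
  obtain ⟨G, hG, hst⟩ := exists_tree S (hne.mono h)
  obtain ⟨l, hl, hcut⟩ := exists_list G hG.connected
  obtain ⟨L, hL⟩ : ∃ L : List S, L = l.filter (fun x : S => decide ((x : ℝ × ℝ) ∈ S')) := ⟨_, rfl⟩
  have hLsub : L.Sublist l := by
    rw [hL]
    exact List.filter_sublist
  have hmem : ∀ x ∈ L, (x : ℝ × ℝ) ∈ S' := by
    intro x hx
    rw [hL, List.mem_filter] at hx
    exact of_decide_eq_true hx.2
  have hall : ∀ x : S', ∃ i : Fin L.length, ((L[i] : S) : ℝ × ℝ) = x := by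
    intro x
    have h1 : (⟨x, h x.2⟩ : S) ∈ L := by
      rw [hL, List.mem_filter]
      exact ⟨hl _, decide_eq_true x.2⟩
    obtain ⟨i, hi, hi2⟩ := List.getElem_of_mem h1
    exact ⟨⟨i, hi⟩, congrArg Subtype.val hi2⟩
  have hne' : Nonempty S' := hne.to_subtype
  obtain ⟨y₀, hy₀⟩ := hne
  have hlen : 0 < L.length := by
    obtain ⟨i, -⟩ := hall ⟨y₀, hy₀⟩
    exact i.pos
  obtain ⟨q, hq⟩ : ∃ q : Fin L.length → S', ∀ i, ((q i : S') : ℝ × ℝ) = (L[i] : S) :=
    ⟨fun i => ⟨L[i], hmem _ (List.getElem_mem _)⟩, fun i => rfl⟩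
  have hk1 : ∀ k : Fin (L.length - 1), (k : ℕ) < L.length := fun k => by omega
  have hk2 : ∀ k : Fin (L.length - 1), (k : ℕ) + 1 < L.length := fun k => by omega
  refine treeStab_le (ι := S') (K := Fin (L.length - 1)) (fun x => (x : ℝ × ℝ))
    (fun k => q ⟨k, hk1 k⟩) (fun k => q ⟨k + 1, hk2 k⟩) ?_ S' S ?_ (2 * treeStab S) ?_
  · have h0 : ∀ n (hn : n < L.length), Conn (fun k : Fin (L.length - 1) => q ⟨k, hk1 k⟩)
        (fun k => q ⟨k + 1, hk2 k⟩) (q ⟨0, hlen⟩) (q ⟨n, hn⟩) := by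
      intro n
      induction n with
      | zero => exact fun _ => Relation.ReflTransGen.refl
      | succ n ih =>
        intro hn
        exact (ih (by omega)).trans (Conn.edge (src := fun k : Fin (L.length - 1) => q ⟨k, hk1 k⟩)
          (tgt := fun k => q ⟨k + 1, hk2 k⟩) ⟨n, by omega⟩)
    have h1 : ∀ x : S', Conn (fun k : Fin (L.length - 1) => q ⟨k, hk1 k⟩)
        (fun k => q ⟨k + 1, hk2 k⟩) (q ⟨0, hlen⟩) x := by
      intro x
      obtain ⟨i, hi⟩ := hall x
      have h2 : q i = x := Subtype.ext ((hq i).trans hi)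
      rw [← h2]
      exact h0 i i.2
    exact fun i j => (h1 i).symm.trans (h1 j)
  · intro X
    exact ⟨fun hX => ⟨⟨X, hX⟩, rfl⟩, fun ⟨i, hi⟩ => hi ▸ i.2⟩
  · intro a b c habc _ hF
    obtain ⟨A, hA⟩ : ∃ A : S → Prop, A = fun X : S => 0 < val a b c (X : ℝ × ℝ) := ⟨_, rfl⟩
    have h1 : (Finset.univ.filter fun k : Fin (L.length - 1) =>
        Sep a b c ((q ⟨k, hk1 k⟩ : S') : ℝ × ℝ) ((q ⟨k + 1, hk2 k⟩ : S') : ℝ × ℝ)).card ≤
        cuts A L := by
      rw [cuts_eq_sum A (⟨y₀, h hy₀⟩ : S) L, Finset.sum_range, Finset.card_filter]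
      refine Finset.sum_le_sum fun k _ => ?_
      by_cases h2 : Sep a b c ((q ⟨k, hk1 k⟩ : S') : ℝ × ℝ) ((q ⟨k + 1, hk2 k⟩ : S') : ℝ × ℝ)
      · rw [if_pos h2, if_neg]
        rw [List.getD_eq_getElem _ _ (hk1 k), List.getD_eq_getElem _ _ (hk2 k), hA]
        rw [hq, hq] at h2
        intro h3
        have h4 : (0 < val a b c ((L[(k : ℕ)]'(hk1 k) : S) : ℝ × ℝ)) ↔
            0 < val a b c ((L[(k : ℕ) + 1]'(hk2 k) : S) : ℝ × ℝ) := h3
        have h5 : val a b c ((L[(k : ℕ)]'(hk1 k) : S) : ℝ × ℝ) *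
            val a b c ((L[(k : ℕ) + 1]'(hk2 k) : S) : ℝ × ℝ) < 0 := h2
        rcases mul_neg_iff.1 h5 with ⟨h6, h7⟩ | ⟨h6, h7⟩
        · exact absurd (h4.1 h6) (not_lt.2 h7.le)
        · exact absurd (h4.2 h7) (not_lt.2 h6.le)
      · rw [if_neg h2]
        exact Nat.zero_le _
    refine (le_trans ?_ ((cuts_sublist A hLsub).trans (hcut A))).trans
      (Nat.mul_le_mul_left 2 (le_trans ?_ (hst _ ⟨a, b, c, habc, rfl⟩)))
    · refine le_trans (le_of_eq ?_) h1
      congr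
    · refine Set.ncard_le_ncard ?_ (Set.toFinite _)
      rintro e ⟨he, x, y, rfl, hx, hy⟩
      refine ⟨he, x, y, rfl, ?_⟩
      rw [hA] at hx hy
      have hx' : 0 < val a b c (x : ℝ × ℝ) := hx
      have hy' : val a b c (y : ℝ × ℝ) < 0 := lt_of_le_of_ne (not_lt.1 hy) (hF y y.2)
      have hxy : (x : ℝ × ℝ) ≠ y := by
        intro h2
        rw [h2] at hx'
        exact absurd hx' (not_lt.2 hy'.le)
      exact (stabs_iff hxy).2 (mul_neg_of_pos_of_neg hx' hy')

end TSN
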